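import Pool.Agent.H93.RO.Call

namespace Pool.Agent.H93.RO

theorem Ex.unique {Z : Oracle} {g : ℕ → Bool} {p : Prog} {σ σ1 σ2 : Store} {n m : ℕ}
    (h1 : Ex Z g p σ n σ1) (h2 : Ex Z g p σ m σ2) : σ1 = σ2 := by
  have e1 := h1 []
  have e2 := h2 []
  have := run_halt_eq Z g ([p], σ) (n := n) (m := m) (by rw [e1]) (by rw [e2])
  rw [e1, e2] at this
  exact (congrArg Prod.snd this).symm

/-! ### Deterministic acceptance -/

/-- predicates decidable in polynomial time by a deterministic program fragment -/
def DPT (n : ℕ) (A : Oracle → List Str → Prop) : Prop :=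
  ∃ (p : ℕ → ℕ) (code : List ℕ → ℕ → Prog), PB p ∧
    ∀ (ρ : List ℕ) (o : ℕ), ρ.length = n → (∀ i ∈ ρ, i < o) → ∀ (Z : Oracle) (σ : Store),
      (∀ s, o ≤ s → σ s = []) →
      ∃ σ', DB Z (code ρ o) σ (p (sz (ρ.map σ))) σ' ∧
        ((∃ w, σ' o = true :: w) ↔ A Z (ρ.map σ))

theorem DPT.of_PT {n : ℕ} {f : Oracle → List Str → Str} (hf : PT n f) :
    DPT n (fun Z v => ∃ w, f Z v = true :: w) := by
  obtain ⟨p, code, hp, _, hc⟩ := hf
  refine ⟨p, code, hp, fun ρ o hρ hlt Z σ hσ => ⟨_, hc ρ o hρ hlt Z σ hσ, ?_⟩⟩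
  rw [Function.update_self]

/-- case distinction for predicates -/
def bcP (w : Str) (e z o : Prop) : Prop :=
  match w with
  | [] => e
  | false :: _ => z
  | true :: _ => o

@[simp] theorem bcP_nil (e z o : Prop) : bcP [] e z o = e := rfl
@[simp] theorem bcP_false (w : Str) (e z o : Prop) : bcP (false :: w) e z o = z := rfl
@[simp] theorem bcP_true (w : Str) (e z o : Prop) : bcP (true :: w) e z o = o := rfl

theorem DPT.case {n : ℕ} {f : Oracle → List Str → Str} {Ae Az Ao : Oracle → List Str → Prop}
    (hf : PT n f) (he : DPT n Ae) (hz : DPT n Az) (ho : DPT n Ao) :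
    DPT n (fun Z v => bcP (f Z v) (Ae Z v) (Az Z v) (Ao Z v)) := by
  obtain ⟨p, cf, hp, hs, hc⟩ := hf
  obtain ⟨pe, ce, hpe, hce⟩ := he
  obtain ⟨pz, cz, hpz, hcz⟩ := hz
  obtain ⟨po, co, hpo, hco⟩ := ho
  refine ⟨fun m => (4 * p m + 5) + (pe m + pz m + po m), fun ρ o =>
      Prog.seq (cf ρ o) (Prog.pop o (ce ρ o) (Prog.seq (clr o) (cz ρ o))
        (Prog.seq (clr o) (co ρ o))),
    (((PB.const 4).mul hp).add (PB.const 5)).add ((hpe.add hpz).add hpo), ?_⟩
  intro ρ o hρ hlt Z σ hσ
  have hlen := hs Z (ρ.map σ) (by simpa using hρ)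
  have hself : Function.update σ o [] = σ := by rw [← hσ o le_rfl]; simp
  have h0 := hc ρ o hρ hlt Z σ hσ
  beta_reduce
  rcases hw : f Z (ρ.map σ) with _ | ⟨b, w⟩
  · rw [hw, hself] at h0
    obtain ⟨σ', h1, h2⟩ := hce ρ o hρ hlt Z σ hσ
    exact ⟨σ', (h0.seq (DB.pop_nil (hσ o le_rfl) h1)).mono (by omega), h2⟩
  · rw [hw] at h0 hlen
    simp only [List.length_cons] at hlen
    have hcl := clr_spec Z o w (Function.update σ o w) (by simp)
    rw [Function.update_idem, hself] at hcl
    cases b
    · obtain ⟨σ', h1, h2⟩ := hcz ρ o hρ hlt Z σ hσ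
      refine ⟨σ', (h0.seq (DB.pop_cons (n := 3 * w.length + 1 + pz (sz (ρ.map σ)) + 1)
        (b := false) (w := w) (by simp) ?_)).mono ?_, h2⟩
      · rw [Function.update_idem]
        exact hcl.seq h1
      · omega
    · obtain ⟨σ', h1, h2⟩ := hco ρ o hρ hlt Z σ hσ
      refine ⟨σ', (h0.seq (DB.pop_cons (n := 3 * w.length + 1 + po (sz (ρ.map σ)) + 1)
        (b := true) (w := w) (by simp) ?_)).mono ?_, h2⟩
      · rw [Function.update_idem]
        exact hcl.seq h1
      · omega

/-- for a deterministic polynomial time machine the choices do not matter -/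
theorem det_run {Q : Prog} (hQ : Q.Det) (Z : Oracle) (g g' : ℕ → Bool) (x : Str) (T : ℕ) :
    run Z g' (start Q x) T = run Z g (start Q x) T := by
  have key : ∀ (n : ℕ) (L : List Prog) (τ : Store) (g g' : ℕ → Bool), (∀ p ∈ L, p.Det) →
      run Z g' (L, τ) n = run Z g (L, τ) n := by
    intro n
    induction n with
    | zero => intros; rfl
    | succ n ih =>
      intro L τ g g' hL
      rw [run_succ', run_succ']
      have hstep : step Z (g' 0) (L, τ) = step Z (g 0) (L, τ) := by
        rcases L with _ | ⟨p, K⟩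
        · rfl
        · cases p with
          | guess z o => exact (hL (Prog.guess z o) (by simp)).elim
          | skip => rfl
          | push s b => rfl
          | pop s e z o => rfl
          | query s n y => rfl
          | seq p q => rfl
          | loop s p => rfl
      rw [hstep]
      have hdet : ∀ p ∈ (step Z (g 0) (L, τ)).1, p.Det := by
        rcases L with _ | ⟨p, K⟩
        · intro p hp; simp [step] at hp
        · have hp := hL p (by simp)
          have hK : ∀ q ∈ K, q.Det := fun q hq => hL q (by simp [hq])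
          intro r
          cases p with
          | skip => exact hK r
          | push s b => exact hK r
          | pop s e z o =>
            obtain ⟨h1, h2, h3⟩ := hp
            rcases hs : τ s with _ | ⟨_ | _, w⟩ <;> simp only [step, hs, List.mem_cons] <;>
              rintro (rfl | hr) <;> first | assumption | exact hK r hr
          | query s n y =>
            obtain ⟨h1, h2⟩ := hp
            simp only [step]
            split_ifs <;> simp only [List.mem_cons] <;> rintro (rfl | hr) <;>
              first | assumption | exact hK r hr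
          | guess z o => exact absurd hp (by simp [Prog.Det])
          | seq p q =>
            obtain ⟨h1, h2⟩ := hp
            simp only [step, List.mem_cons]
            rintro (rfl | rfl | hr) <;> first | assumption | exact hK r hr
          | loop s p =>
            rcases hs : τ s with _ | ⟨b, w⟩ <;> simp only [step, hs, List.mem_cons]
            · exact hK r
            · rintro (rfl | rfl | hr) <;> first | assumption | exact hK r hr
      exact ih _ _ _ _ hdet
  exact key T _ _ _ _ (by simpa using hQ)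

theorem mem_Lang_det {Q : Prog} (hQ : Q.Det) (Z : Oracle) (x : Str) (T : ℕ) (g : ℕ → Bool)
    (h : (run Z g (start Q x) T).1 = []) :
    x ∈ Lang Q Z ↔ ∃ w, (run Z g (start Q x) T).2 1 = true :: w := by
  constructor
  · rintro ⟨g', t, w, h1, h2⟩
    refine ⟨w, ?_⟩
    have e1 : run Z g (start Q x) t = run Z g' (start Q x) t := det_run hQ Z g' g x t
    rw [run_halt_eq Z g (start Q x) (n := t) (m := T) (by rw [e1]; exact h1) h, e1]
    exact h2
  · rintro ⟨w, hw⟩
    exact ⟨g, T, w, h, hw⟩

theorem DPT.call {n : ℕ} {e : Oracle → List Str → Str} (he : PT n e) {Q : Prog} (hQ : Q.Det)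
    (hT : PolyTime Q) : DPT n (fun Z v => e Z v ∈ Lang Q (fun q => Z (true :: q))) := by
  obtain ⟨p, ce, hp, hse, hce⟩ := he
  obtain ⟨c, k, hT⟩ := hT
  have hPB : PB (fun m => c * (m + 1) ^ k) :=
    ⟨fun a b hab => Nat.mul_le_mul_left _ (Nat.pow_le_pow_left (by omega) k), c, k,
      fun n => le_rfl⟩
  refine ⟨fun m => p m + 4 * (c * (p m + 1) ^ k) + 10, fun ρ o =>
      Prog.seq (ce ρ o) (Prog.seq (tr o Q) (Prog.pop (o + 1) (Prog.push o false)
        (Prog.push o false) (Prog.push o true))),
    (hp.add ((PB.const 4).mul (hPB.comp hp))).add (PB.const 10), ?_⟩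
  intro ρ o hρ hlt Z σ hσ
  have hv : (ρ.map σ).length = n := by simpa using hρ
  set v := ρ.map σ with hvdef
  set x := e Z v with hx
  have hxl : x.length ≤ p (sz v) := hse Z v hv
  have h0 := hce ρ o hρ hlt Z σ hσ
  have hhalt := hT (fun q => Z (true :: q)) (fun _ => false) x
  obtain ⟨m, hm, σ1, hd, ho, hlo, hhi, hlen⟩ := tr_run Z (fun q => Z (true :: q)) (fun _ => rfl)
    Q hQ x _ (fun _ => false) hhalt o (Function.update σ o x) (by simp) (by
      intro s hs
      rw [Function.update_of_ne (by omega)]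
      exact hσ s (by omega))
  have hmem := mem_Lang_det hQ (fun q => Z (true :: q)) x _ (fun _ => false) hhalt
  rw [← ho] at hmem
  have hlast : ∃ σ', DB Z (Prog.pop (o + 1) (Prog.push o false) (Prog.push o false)
      (Prog.push o true)) σ1 2 σ' ∧ ((∃ w, σ' o = true :: w) ↔ ∃ w, σ1 (o + 1) = true :: w) := by
    rcases hs : σ1 (o + 1) with _ | ⟨b, w⟩
    · exact ⟨_, DB.pop_nil hs DB.push, by simp⟩
    · refine ⟨_, DB.pop_cons hs (n := 1) (σ' := Function.update (Function.update σ1 (o + 1) w) o
        (b :: (Function.update σ1 (o + 1) w) o)) ?_, by simp⟩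
      have : (if b then Prog.push o true else Prog.push o false) = Prog.push o b := by
        cases b <;> rfl
      rw [this]
      exact DB.push
  obtain ⟨σ', hl1, hl2⟩ := hlast
  refine ⟨σ', (h0.seq (DB.seq ⟨m, le_rfl, hd⟩ hl1)).mono ?_, hl2.trans hmem.symm⟩
  have : c * (x.length + 1) ^ k ≤ c * (p (sz v) + 1) ^ k := hPB.mono hxl
  have l4 : p (sz (List.map σ ρ)) = p (sz v) := rfl
  beta_reduce
  omega

/-- from a program fragment to a machine: the deterministic case -/
theorem DPT.machine {A : Oracle → List Str → Prop} (hA : DPT 1 A) :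
    ∃ (P : Prog) (c k : ℕ), ∀ (Z : Oracle) (g : ℕ → Bool) (x : Str),
      (run Z g (start P x) (c * (x.length + 1) ^ k)).1 = [] ∧
      ((∃ w, (run Z g (start P x) (c * (x.length + 1) ^ k)).2 1 = true :: w) ↔ A Z [x]) := by
  obtain ⟨p, code, hp, hc⟩ := hA
  obtain ⟨c, k, hbd⟩ := hp.bd
  refine ⟨code [0] 1, c, k, fun Z g x => ?_⟩
  obtain ⟨σ', ⟨m, hm, hd⟩, hacc⟩ := hc [0] 1 rfl (by simp) Z (fun s => if s = 0 then x else [])
    (by intro s hs; rw [if_neg (by omega)])
  have h1 : run Z g (start (code [0] 1) x) m = ([], σ') := hd g []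
  have h2 : m ≤ c * (x.length + 1) ^ k := by
    refine hm.trans ((hbd _).trans ?_)
    simp
  rw [run_halt_of_le Z g _ h2 (by rw [h1]), h1]
  exact ⟨rfl, by simpa using hacc⟩

/-! ### Nondeterministic acceptance -/

/-- predicates decidable in polynomial time by a nondeterministic program fragment -/
def NPT (n : ℕ) (A : Oracle → List Str → Prop) : Prop :=
  ∃ (p : ℕ → ℕ) (code : List ℕ → ℕ → Prog), PB p ∧
    ∀ (ρ : List ℕ) (o : ℕ), ρ.length = n → (∀ i ∈ ρ, i < o) → ∀ (Z : Oracle) (σ : Store),
      (∀ s, o ≤ s → σ s = []) →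
      (∀ g, ∃ m ≤ p (sz (ρ.map σ)), ∃ σ', Ex Z g (code ρ o) σ m σ') ∧
      ((∃ (g : ℕ → Bool) (m : ℕ) (σ' : Store) (w : Str),
        Ex Z g (code ρ o) σ m σ' ∧ σ' o = true :: w) ↔ A Z (ρ.map σ))

theorem NPT.of_DPT {n : ℕ} {A : Oracle → List Str → Prop} (hA : DPT n A) : NPT n A := by
  obtain ⟨p, code, hp, hc⟩ := hA
  refine ⟨p, code, hp, fun ρ o hρ hlt Z σ hσ => ?_⟩
  obtain ⟨σ', ⟨m, hm, hd⟩, hacc⟩ := hc ρ o hρ hlt Z σ hσ
  refine ⟨fun g => ⟨m, hm, σ', hd g⟩, ?_⟩
  rw [← hacc]
  constructor
  · rintro ⟨g, m', σ'', w, h1, h2⟩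
    rw [(hd g).unique h1]
    exact ⟨w, h2⟩
  · rintro ⟨w, hw⟩
    exact ⟨fun _ => false, m, σ', w, hd _, hw⟩

theorem Ex.seq_exists {Z : Oracle} {g1 g2 : ℕ → Bool} {p q : Prog} {σ σ1 σ2 : Store} {n m : ℕ}
    (h1 : Ex Z g1 p σ n σ1) (h2 : Ex Z g2 q σ1 m σ2) :
    ∃ g, Ex Z g (Prog.seq p q) σ (1 + n + m) σ2 := by
  refine ⟨fun i => if i < 1 + n then g1 (i - 1) else g2 (i - 1 - n), Ex.seq (σ1 := σ1) ?_ ?_⟩
  · refine h1.congr fun i hi => ?_
    rw [if_pos (by omega)]
    congr 1; omega
  · refine h2.congr fun i hi => ?_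
    rw [if_neg (by omega)]
    congr 1; omega

/-- guess a string as long as the content of stack `o + 1`, on stack `o` -/
def guessLoop (o : ℕ) : Prog :=
  Prog.loop (o + 1) (Prog.pop (o + 1) Prog.skip (Prog.guess (Prog.push o false) (Prog.push o true))
    (Prog.guess (Prog.push o false) (Prog.push o true)))

theorem guess_body (Z : Oracle) (g : ℕ → Bool) (o : ℕ) (σ : Store) (b : Bool) (u : Str)
    (h : σ (o + 1) = b :: u) :
    Ex Z g (Prog.pop (o + 1) Prog.skip (Prog.guess (Prog.push o false) (Prog.push o true))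
      (Prog.guess (Prog.push o false) (Prog.push o true))) σ 3
      (Function.update (Function.update σ (o + 1) u) o (g 1 :: σ o)) := by
  refine Ex.pop_cons h ?_
  have e : (if b then (Prog.guess (Prog.push o false) (Prog.push o true))
      else (Prog.guess (Prog.push o false) (Prog.push o true)))
      = Prog.guess (Prog.push o false) (Prog.push o true) := by cases b <;> rfl
  rw [e]
  refine Ex.guess ?_
  have e2 : (if (fun i => g (i + 1)) 0 then Prog.push o true else Prog.push o false)
      = Prog.push o (g 1) := by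
    simp only [Nat.zero_add]
    cases g 1 <;> rfl
  rw [e2]
  have := Dx.push (Z := Z) (σ := Function.update σ (o + 1) u) (s := o) (b := g 1)
    (fun i => (fun i => g (i + 1)) (i + 1))
  rwa [Function.update_of_ne (show o ≠ o + 1 by omega)] at this

theorem guessLoop_all (Z : Oracle) (o : ℕ) (u : Str) : ∀ (g : ℕ → Bool) (σ : Store),
    σ (o + 1) = u → ∃ w : Str, w.length = u.length ∧ Ex Z g (guessLoop o) σ (4 * u.length + 1)
      (Function.update (Function.update σ (o + 1) []) o (w ++ σ o)) := by
  induction u with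
  | nil =>
    intro g σ h
    refine ⟨[], rfl, ?_⟩
    have : Function.update (Function.update σ (o + 1) []) o ([] ++ σ o) = σ := by
      have e : Function.update σ (o + 1) [] = σ := by
        rw [Function.update_eq_self_iff]; exact h.symm
      rw [e]; simp
    rw [this]
    exact Ex.loop_nil h
  | cons b u ih =>
    intro g σ h
    have h1 := guess_body Z (fun i => g (1 + i)) o σ b u h
    obtain ⟨w, hw, h2⟩ := ih (fun i => g (1 + 3 + i))
      (Function.update (Function.update σ (o + 1) u) o (g (1 + 1) :: σ o)) (by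
        rw [Function.update_of_ne (by omega), Function.update_self])
    refine ⟨w ++ [g (1 + 1)], by simp [hw], ?_⟩
    have h3 := Ex.loop_cons h h1 h2
    have e1 : 1 + 3 + (4 * u.length + 1) = 4 * (b :: u).length + 1 := by
      simp only [List.length_cons]; ring
    rw [e1] at h3
    have e2 : Function.update (Function.update (Function.update (Function.update σ (o + 1) u) o
        (g (1 + 1) :: σ o)) (o + 1) []) o (w ++ (Function.update (Function.update σ (o + 1) u) o
        (g (1 + 1) :: σ o)) o)
        = Function.update (Function.update σ (o + 1) []) o (w ++ [g (1 + 1)] ++ σ o) := by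
      funext s
      by_cases e1 : s = o
      · subst e1; simp
      · by_cases e2 : s = o + 1
        · subst e2; simp
        · simp [e1, e2]
    rw [e2] at h3
    exact h3

theorem guessLoop_exists (Z : Oracle) (o : ℕ) (u : Str) : ∀ (w : Str) (σ : Store),
    σ (o + 1) = u → w.length = u.length → ∃ g, Ex Z g (guessLoop o) σ (4 * u.length + 1)
      (Function.update (Function.update σ (o + 1) []) o (w ++ σ o)) := by
  induction u with
  | nil =>
    intro w σ h hw
    have hw' : w = [] := List.eq_nil_of_length_eq_zero (by simpa using hw)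
    subst hw'
    refine ⟨fun _ => false, ?_⟩
    have : Function.update (Function.update σ (o + 1) []) o ([] ++ σ o) = σ := by
      have e : Function.update σ (o + 1) [] = σ := by
        rw [Function.update_eq_self_iff]; exact h.symm
      rw [e]; simp
    rw [this]
    exact Ex.loop_nil h
  | cons b u ih =>
    intro w σ h hw
    obtain ⟨w', c, rfl⟩ : ∃ w' c, w = w' ++ [c] := by
      rcases List.eq_nil_or_concat w with rfl | ⟨w', c, rfl⟩
      · simp at hw
      · exact ⟨w', c, by simp⟩
    have h1 : Ex Z (fun _ => c) (Prog.pop (o + 1) Prog.skip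
        (Prog.guess (Prog.push o false) (Prog.push o true))
        (Prog.guess (Prog.push o false) (Prog.push o true))) σ 3 _ :=
      guess_body Z (fun _ => c) o σ b u h
    obtain ⟨g, h2⟩ := ih w' (Function.update (Function.update σ (o + 1) u) o (c :: σ o)) (by
        rw [Function.update_of_ne (by omega), Function.update_self]) (by simpa using hw)
    refine ⟨fun i => if i < 4 then c else g (i - 4), ?_⟩
    have h3 := Ex.loop_cons (g := fun i => if i < 4 then c else g (i - 4)) h
      (h1.congr fun i hi => by rw [if_pos (by omega)])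
      (h2.congr fun i hi => by
        rw [if_neg (by omega)]; congr 1; omega)
    have e1 : 1 + 3 + (4 * u.length + 1) = 4 * (b :: u).length + 1 := by
      simp only [List.length_cons]; ring
    rw [e1] at h3
    have e2 : Function.update (Function.update (Function.update (Function.update σ (o + 1) u) o
        (c :: σ o)) (o + 1) []) o (w' ++ (Function.update (Function.update σ (o + 1) u) o
        (c :: σ o)) o)
        = Function.update (Function.update σ (o + 1) []) o (w' ++ [c] ++ σ o) := by
      funext s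
      by_cases e1 : s = o
      · subst e1; simp
      · by_cases e2 : s = o + 1
        · subst e2; simp
        · simp [e1, e2]
    rw [e2] at h3
    exact h3

theorem NPT.guess {n : ℕ} {u : Oracle → List Str → Str} {A : Oracle → List Str → Prop}
    (hu : PT n u) (hA : NPT (n + 1) A) :
    NPT n (fun Z v => ∃ w : Str, w.length = (u Z v).length ∧ A Z (w :: v)) := by
  obtain ⟨p, cu, hp, hsu, hcu⟩ := hu
  obtain ⟨q, ca, hq, hca⟩ := hA
  refine ⟨fun m => p m + (4 * p m + q (p m + m)) + 20, fun ρ o =>
      Prog.seq (cu ρ (o + 1)) (Prog.seq (guessLoop o) (Prog.seq (ca (o :: ρ) (o + 1))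
        (Prog.pop (o + 1) (Prog.push o false) (Prog.push o false) (Prog.push o true)))),
    (hp.add (((PB.const 4).mul hp).add (hq.comp (hp.add PB.id)))).add (PB.const 20), ?_⟩
  intro ρ o hρ hlt Z σ hσ
  have hv : (ρ.map σ).length = n := by simpa using hρ
  set v := ρ.map σ with hvdef
  set x := u Z v with hx
  have hxl : x.length ≤ p (sz v) := hsu Z v hv
  obtain ⟨m0, hm0, h0⟩ := hcu ρ (o + 1) hρ (fun i hi => by have := hlt i hi; omega) Z σ
    (fun s hs => hσ s (by omega))
  -- the store after guessing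
  have hst : ∀ w : Str, Function.update (Function.update (Function.update σ (o + 1) x) (o + 1) [])
      o (w ++ (Function.update σ (o + 1) x) o) = Function.update σ o w := by
    intro w
    funext s
    by_cases e1 : s = o
    · subst e1; simp [hσ]
    · by_cases e2 : s = o + 1
      · subst e2; simp [hσ]
      · simp [e1, e2]
  have hinner : ∀ w : Str, _ := fun w => hca (o :: ρ) (o + 1) (by simpa using hρ) (by
      intro i hi
      rcases List.mem_cons.1 hi with rfl | hi
      · omega
      · have := hlt i hi; omega) Z (Function.update σ o w) (by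
      intro s hs
      rw [Function.update_of_ne (by omega)]
      exact hσ s (by omega))
  simp only [List.map_cons, map_update hlt le_rfl, Function.update_self] at hinner
  have hlast : ∀ σ1 : Store, ∃ σ', Dx Z (Prog.pop (o + 1) (Prog.push o false) (Prog.push o false)
      (Prog.push o true)) σ1 2 σ' ∧ ((∃ w, σ' o = true :: w) ↔ ∃ w, σ1 (o + 1) = true :: w) := by
    intro σ1
    rcases hs : σ1 (o + 1) with _ | ⟨b, w⟩
    · exact ⟨_, Dx.pop_nil hs Dx.push, by simp⟩
    · refine ⟨_, Dx.pop_cons hs (n := 1) (σ' := Function.update (Function.update σ1 (o + 1) w) o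
        (b :: (Function.update σ1 (o + 1) w) o)) ?_, by simp⟩
      have : (if b then Prog.push o true else Prog.push o false) = Prog.push o b := by
        cases b <;> rfl
      rw [this]
      exact Dx.push
  constructor
  · intro g
    obtain ⟨w, hw, h1⟩ := guessLoop_all Z o x (fun i => g (1 + m0 + (1 + i)))
      (Function.update σ (o + 1) x) (by simp)
    rw [hst] at h1
    obtain ⟨m2, hm2, σ2, h2⟩ := (hinner w).1
      (fun i => g (1 + m0 + (1 + (4 * x.length + 1) + (1 + i))))
    obtain ⟨σ3, h3, -⟩ := hlast σ2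
    refine ⟨1 + m0 + (1 + (4 * x.length + 1) + (1 + m2 + 2)), ?_, σ3, ?_⟩
    · have hq' : q (sz (w :: v)) ≤ q (p (sz v) + sz v) := hq.mono (by simp; omega)
      beta_reduce
      have hm0' : m0 ≤ p (sz v) := hm0
      have hm2' : m2 ≤ q (sz (w :: v)) := hm2
      omega
    · exact Ex.seq (h0 _) (Ex.seq h1 (Ex.seq h2 (h3 _)))
  · constructor
    · rintro ⟨g, m, σ', wf, hex, hacc⟩
      obtain ⟨w, hw, h1⟩ := guessLoop_all Z o x (fun i => g (1 + m0 + (1 + i)))
        (Function.update σ (o + 1) x) (by simp)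
      rw [hst] at h1
      obtain ⟨m2, hm2, σ2, h2⟩ := (hinner w).1
        (fun i => g (1 + m0 + (1 + (4 * x.length + 1) + (1 + i))))
      obtain ⟨σ3, h3, h3'⟩ := hlast σ2
      have hex' := Ex.seq (g := g) (h0 _) (Ex.seq h1 (Ex.seq h2 (h3 _)))
      have := hex.unique hex'
      subst this
      obtain ⟨w', hw'⟩ := h3'.1 ⟨wf, hacc⟩
      exact ⟨w, hw, (hinner w).2.1 ⟨_, m2, σ2, w', h2, hw'⟩⟩
    · rintro ⟨w, hw, hAw⟩
      obtain ⟨g1, h1⟩ := guessLoop_exists Z o x w (Function.update σ (o + 1) x) (by simp) hw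
      rw [hst] at h1
      obtain ⟨g2, m2, σ2, w', h2, hw'⟩ := (hinner w).2.2 hAw
      obtain ⟨σ3, h3, h3'⟩ := hlast σ2
      obtain ⟨wf, hwf⟩ := h3'.2 ⟨w', hw'⟩
      obtain ⟨g3, h4⟩ := Ex.seq_exists h2 (h3 (fun _ => false))
      obtain ⟨g4, h5⟩ := Ex.seq_exists h1 h4
      obtain ⟨g5, h6⟩ := Ex.seq_exists (h0 (fun _ => false)) h5
      exact ⟨g5, _, σ3, wf, h6, hwf⟩

/-- from a program fragment to a machine: the nondeterministic case -/
theorem NPT.machine {A : Oracle → List Str → Prop} (hA : NPT 1 A) :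
    ∃ P : Prog, PolyTime P ∧ ∀ (Z : Oracle) (x : Str), x ∈ Lang P Z ↔ A Z [x] := by
  obtain ⟨p, code, hp, hc⟩ := hA
  obtain ⟨c, k, hbd⟩ := hp.bd
  refine ⟨code [0] 1, ⟨c, k, fun Z g x => ?_⟩, fun Z x => ?_⟩
  · obtain ⟨hall, -⟩ := hc [0] 1 rfl (by simp) Z (fun s => if s = 0 then x else [])
      (by intro s hs; rw [if_neg (by omega)])
    obtain ⟨m, hm, σ', h⟩ := hall g
    have h1 : run Z g (start (code [0] 1) x) m = ([], σ') := h []
    have h2 : m ≤ c * (x.length + 1) ^ k := by
      refine hm.trans ((hbd _).trans ?_)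
      simp
    rw [run_halt_of_le Z g _ h2 (by rw [h1]), h1]
  · obtain ⟨hall, hacc⟩ := hc [0] 1 rfl (by simp) Z (fun s => if s = 0 then x else [])
      (by intro s hs; rw [if_neg (by omega)])
    have e : List.map (fun s => if s = 0 then x else ([] : Str)) [0] = [x] := by simp
    rw [e] at hacc
    rw [← hacc]
    constructor
    · rintro ⟨g, t, w, h1, h2⟩
      obtain ⟨m, hm, σ', h⟩ := hall g
      have h3 : run Z g (start (code [0] 1) x) m = ([], σ') := h []
      refine ⟨g, m, σ', w, h, ?_⟩
      have := run_halt_eq Z g (start (code [0] 1) x) (n := t) (m := m) h1 (by rw [h3])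
      rw [← this, h3] at h2
      exact h2
    · rintro ⟨g, m, σ', w, h, hw⟩
      have h3 : run Z g (start (code [0] 1) x) m = ([], σ') := h []
      exact ⟨g, m, w, by rw [h3], by rw [h3]; exact hw⟩

end Pool.Agent.H93.RO
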