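import Pool.Agent.H93.RO.TokPT

namespace Pool.Agent.H93.RO

/-- the deterministic part of the hard machine -/
def accS (Z : Oracle) (x v0 v1 v2 j : Str) : Str :=
  bc (eqS (coins Z [false, false] (pfst (psnd x)).length) (pfst (psnd x))) []
    (bc (ltS j (coins Z [false, false] (pfst (psnd x)).length)) [] []
      [Z (false :: true :: j)])
    (bc (iniS Z (pfst x) x)
      (psnd (tokRun Z (pfst x) v0 v1 v2 (psnd (psnd x)))).tail
      (psnd (tokRun Z (pfst x) v0 v1 v2 (psnd (psnd x)))).tail
      [true])

theorem PT.accS {n : ℕ} {x v0 v1 v2 j : Oracle → List Str → Str} (hx : PT n x)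
    (h0 : PT n v0) (h1 : PT n v1) (h2 : PT n v2) (hj : PT n j) :
    PT n (fun Z v => RO.accS Z (x Z v) (v0 Z v) (v1 Z v) (v2 Z v) (j Z v)) := by
  have hu := hx.fst
  have hs := hx.snd.fst
  have hT := hx.snd.snd
  have hidx := PT.coins [false, false] hs
  have hR := (PT.tokRun hu h0 h1 h2 hT).snd.tail
  exact PT.case (PT.eqS hidx hs) PT.nil
    (PT.case (PT.ltS hj hidx) PT.nil PT.nil (PT.ask (PT.cons false (PT.cons true hj))))
    (PT.case (PT.iniS hu hx) hR hR (PT.const _))

/-- acceptance by the hard machine -/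
def B0acc (Z : Oracle) (x : Str) : Prop :=
  ∃ v0 : Str, v0.length = (pfst x).length ∧ ∃ v1 : Str, v1.length = (pfst x).length ∧
    ∃ v2 : Str, v2.length = (pfst x).length ∧ ∃ j : Str, j.length = (pfst (psnd x)).length ∧
      ∃ w, accS Z x v0 v1 v2 j = true :: w

theorem B0_NPT : NPT 1 (fun Z v => B0acc Z (v.getD 0 [])) := by
  have h5 : NPT 5 (fun Z v => ∃ w, accS Z (v.getD 4 []) (v.getD 3 []) (v.getD 2 [])
      (v.getD 1 []) (v.getD 0 []) = true :: w) :=
    NPT.of_DPT (DPT.of_PT (PT.accS (PT.var 4 (by omega)) (PT.var 3 (by omega))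
      (PT.var 2 (by omega)) (PT.var 1 (by omega)) (PT.var 0 (by omega))))
  have h4 := NPT.guess (n := 4) (PT.var 3 (by omega)).snd.fst h5
  have h3 := NPT.guess (n := 3) (PT.var 2 (by omega)).fst h4
  have h2 := NPT.guess (n := 2) (PT.var 1 (by omega)).fst h3
  have h1 := NPT.guess (n := 1) (PT.var 0 (by omega)).fst h2
  exact h1

/-- the initial row is right -/
def IniOK (Z : Oracle) (u x : Str) : Prop :=
  (∀ d (hd : d < x.length), Z (adr0 u 6 (bin u.length d)) = true ∧
    Z (adr0 u 7 (bin u.length d)) = x[d]) ∧ Z (adr0 u 6 (bin u.length x.length)) = false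

/-- no pattern is violated, and the initial row is right -/
def Valid (Z : Oracle) (u : Str) (ps : List (List Lit)) (x : Str) : Prop :=
  IniOK Z u x ∧ ∀ v0 v1 v2 : Str, v0.length = u.length → v1.length = u.length →
    v2.length = u.length → ∀ p ∈ ps, patB Z u v0 v1 v2 p = false

theorem B0_machine : ∃ P : Prog, PolyTime P ∧ ∀ (Z : Oracle) (u s : Str) (ps : List (List Lit)),
    (pr u (pr s (tokPats ps))).length < 2 ^ u.length →
    (pr u (pr s (tokPats ps)) ∉ Lang P Z ↔
      if coins Z [false, false] s.length = s then Valid Z u ps (pr u (pr s (tokPats ps)))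
      else ∀ j : Str, j.length = s.length → val j < val (coins Z [false, false] s.length) →
        Z (false :: true :: j) = false) := by
  obtain ⟨P, hP, h⟩ := B0_NPT.machine
  refine ⟨P, hP, fun Z u s ps hlen => ?_⟩
  set x := pr u (pr s (tokPats ps)) with hx
  have hmem : x ∈ Lang P Z ↔ B0acc Z x := h Z x
  rw [hmem]
  have e1 : pfst x = u := by simp [hx]
  have e2 : pfst (psnd x) = s := by simp [hx]
  have e3 : psnd (psnd x) = tokPats ps := by simp [hx]
  have hacc : ∀ v0 v1 v2 j : Str, j.length = s.length →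
      ((∃ w, accS Z x v0 v1 v2 j = true :: w) ↔
        if coins Z [false, false] s.length = s then
          (¬ IniOK Z u x ∨ ps.any (patB Z u v0 v1 v2) = true)
        else (val j < val (coins Z [false, false] s.length) ∧ Z (false :: true :: j) = true)) := by
    intro v0 v1 v2 j hj
    unfold accS
    rw [e1, e2, e3, eqS_spec (by simp), tokRun_spec]
    by_cases hc : coins Z [false, false] s.length = s
    · rw [if_pos hc]
      simp only [hc, decide_true, bc_true, psnd_pr, List.tail_cons]
      have hini := iniS_spec Z u x hlen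
      change (∃ w, iniS Z u x = true :: w) ↔ ¬ IniOK Z u x at hini
      rw [← hini]
      rcases hi : iniS Z u x with _ | ⟨_ | _, w⟩ <;> simp
    · rw [if_neg hc]
      simp only [hc, decide_false, bc_false]
      rcases ltS_cases (a := j) (b := coins Z [false, false] s.length) (by simp [hj]) with
        ⟨h1, r, h2⟩ | ⟨h1, r, h2⟩
      · rw [h2]; simp [h1]
      · rw [h2]; simp [h1]
  unfold B0acc
  rw [e1, e2]
  by_cases hc : coins Z [false, false] s.length = s
  · rw [if_pos hc]
    constructor
    · intro hno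
      refine ⟨?_, fun v0 v1 v2 h0 h1 h2 p hp => ?_⟩
      · by_contra hbad
        apply hno
        refine ⟨u, rfl, u, rfl, u, rfl, s, rfl, ?_⟩
        rw [hacc _ _ _ _ rfl, if_pos hc]
        exact Or.inl hbad
      · by_contra hbad
        apply hno
        refine ⟨v0, h0, v1, h1, v2, h2, s, rfl, ?_⟩
        rw [hacc _ _ _ _ rfl, if_pos hc]
        right
        rw [List.any_eq_true]
        exact ⟨p, hp, by simpa using hbad⟩
    · rintro ⟨hini, hpat⟩ ⟨v0, h0, v1, h1, v2, h2, j, hj, hw⟩
      rw [hacc _ _ _ _ hj, if_pos hc] at hw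
      rcases hw with hw | hw
      · exact hw hini
      · rw [List.any_eq_true] at hw
        obtain ⟨p, hp, hp'⟩ := hw
        rw [hpat v0 v1 v2 h0 h1 h2 p hp] at hp'
        exact absurd hp' (by simp)
  · rw [if_neg hc]
    constructor
    · intro hno j hj hlt
      by_contra hbad
      apply hno
      refine ⟨u, rfl, u, rfl, u, rfl, j, hj, ?_⟩
      rw [hacc _ _ _ _ hj, if_neg hc]
      exact ⟨hlt, by simpa using hbad⟩
    · rintro hall ⟨v0, h0, v1, h1, v2, h2, j, hj, hw⟩
      rw [hacc _ _ _ _ hj, if_neg hc] at hw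
      rw [hall j hj hw.1] at hw
      exact absurd hw.2 (by simp)

end Pool.Agent.H93.RO
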