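import Pool.Agent.H93.RO.Defs
import Mathlib.Tactic

namespace Pool.Agent.H93.RO

/-! ### Steps as functions of the oracle answer -/

/-- the string asked about in a configuration (empty if there is no query) -/
def asked : Cfg → Str
  | (Prog.query s _ _ :: _, σ) => σ s
  | _ => []

/-- one step, given the answer `a` to the query -/
def stepA (a c : Bool) : Cfg → Cfg
  | ([], σ) => ([], σ)
  | (Prog.skip :: K, σ) => (K, σ)
  | (Prog.push s b :: K, σ) => (K, Function.update σ s (b :: σ s))
  | (Prog.pop s e z o :: K, σ) =>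
      match σ s with
      | [] => (e :: K, σ)
      | false :: w => (z :: K, Function.update σ s w)
      | true :: w => (o :: K, Function.update σ s w)
  | (Prog.query _ n y :: K, σ) => ((if a then y else n) :: K, σ)
  | (Prog.guess z o :: K, σ) => ((if c then o else z) :: K, σ)
  | (Prog.seq p q :: K, σ) => (p :: q :: K, σ)
  | (Prog.loop s p :: K, σ) =>
      match σ s with
      | [] => (K, σ)
      | _ :: _ => (p :: Prog.loop s p :: K, σ)

theorem step_eq (Z : Oracle) (c : Bool) (x : Cfg) : step Z c x = stepA (Z (asked x)) c x := by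
  rcases x with ⟨L, σ⟩
  rcases L with _ | ⟨p, K⟩
  · rfl
  · cases p <;> rfl

/-! ### Runs -/

@[simp] theorem run_zero (Z : Oracle) (g : ℕ → Bool) (c : Cfg) : run Z g c 0 = c := rfl

theorem run_succ (Z : Oracle) (g : ℕ → Bool) (c : Cfg) (t : ℕ) :
    run Z g c (t + 1) = step Z (g t) (run Z g c t) := rfl

theorem run_add (Z : Oracle) (g : ℕ → Bool) (c : Cfg) (n m : ℕ) :
    run Z g c (n + m) = run Z (fun i => g (n + i)) (run Z g c n) m := by
  induction m with
  | zero => rfl
  | succ m ih => rw [← Nat.add_assoc, run_succ, ih, run_succ]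

theorem run_succ' (Z : Oracle) (g : ℕ → Bool) (c : Cfg) (t : ℕ) :
    run Z g c (t + 1) = run Z (fun i => g (i + 1)) (step Z (g 0) c) t := by
  rw [Nat.add_comm t 1, run_add]
  congr 1
  funext i
  rw [Nat.add_comm]

theorem run_congr (Z : Oracle) {g g' : ℕ → Bool} (c : Cfg) (n : ℕ) (h : ∀ i < n, g i = g' i) :
    run Z g c n = run Z g' c n := by
  induction n with
  | zero => rfl
  | succ n ih => rw [run_succ, run_succ, ih (fun i hi => h i (by omega)), h n (by omega)]

theorem run_halt (Z : Oracle) (g : ℕ → Bool) (σ : Store) (n : ℕ) :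
    run Z g ([], σ) n = ([], σ) := by
  induction n with
  | zero => rfl
  | succ n ih => rw [run_succ, ih]; rfl

theorem run_halt_of_le (Z : Oracle) (g : ℕ → Bool) (c : Cfg) {n m : ℕ} (h : n ≤ m)
    (hn : (run Z g c n).1 = []) : run Z g c m = run Z g c n := by
  obtain ⟨k, rfl⟩ := Nat.exists_eq_add_of_le h
  rw [run_add]
  rcases hc : run Z g c n with ⟨L, σ⟩
  rw [hc] at hn
  simp only at hn
  subst hn
  exact run_halt _ _ _ _

theorem run_halt_eq (Z : Oracle) (g : ℕ → Bool) (c : Cfg) {n m : ℕ}
    (hn : (run Z g c n).1 = []) (hm : (run Z g c m).1 = []) : run Z g c m = run Z g c n := by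
  rcases le_total n m with h | h
  · exact run_halt_of_le Z g c h hn
  · exact (run_halt_of_le Z g c h hm).symm

/-! ### Execution of a program from any continuation -/

/-- `Ex Z g p σ n σ'`: executing `p` from the stacks `σ` takes `n` steps and leads to `σ'`. -/
def Ex (Z : Oracle) (g : ℕ → Bool) (p : Prog) (σ : Store) (n : ℕ) (σ' : Store) : Prop :=
  ∀ K, run Z g (p :: K, σ) n = (K, σ')

/-- Execution independent of the choice bits. -/
def Dx (Z : Oracle) (p : Prog) (σ : Store) (n : ℕ) (σ' : Store) : Prop :=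
  ∀ g, Ex Z g p σ n σ'

theorem Ex.congr {Z : Oracle} {g g' : ℕ → Bool} {p : Prog} {σ : Store} {n : ℕ} {σ' : Store}
    (h : Ex Z g p σ n σ') (hg : ∀ i < n, g i = g' i) : Ex Z g' p σ n σ' := by
  intro K
  rw [← h K]
  exact (run_congr Z _ n hg).symm

theorem Ex.seq {Z : Oracle} {g : ℕ → Bool} {p q : Prog} {σ σ1 σ2 : Store} {n m : ℕ}
    (h1 : Ex Z (fun i => g (1 + i)) p σ n σ1) (h2 : Ex Z (fun i => g (1 + n + i)) q σ1 m σ2) :
    Ex Z g (Prog.seq p q) σ (1 + n + m) σ2 := by
  intro K
  rw [run_add, run_add]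
  have : run Z g (Prog.seq p q :: K, σ) 1 = (p :: q :: K, σ) := rfl
  rw [this, h1 (q :: K)]
  have := h2 K
  simpa [Nat.add_assoc] using this

theorem Dx.skip {Z : Oracle} {σ : Store} : Dx Z Prog.skip σ 1 σ := fun _ _ => rfl

theorem Dx.push {Z : Oracle} {σ : Store} {s : ℕ} {b : Bool} :
    Dx Z (Prog.push s b) σ 1 (Function.update σ s (b :: σ s)) := fun _ _ => rfl

theorem Dx.seq {Z : Oracle} {p q : Prog} {σ σ1 σ2 : Store} {n m : ℕ}
    (h1 : Dx Z p σ n σ1) (h2 : Dx Z q σ1 m σ2) :
    Dx Z (Prog.seq p q) σ (1 + n + m) σ2 := fun _ => Ex.seq (h1 _) (h2 _)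

theorem Ex.pop_nil {Z : Oracle} {g : ℕ → Bool} {s : ℕ} {e z o : Prog} {σ σ' : Store} {n : ℕ}
    (hs : σ s = []) (h : Ex Z (fun i => g (i + 1)) e σ n σ') :
    Ex Z g (Prog.pop s e z o) σ (n + 1) σ' := by
  intro K
  rw [run_succ']
  have : step Z (g 0) (Prog.pop s e z o :: K, σ) = (e :: K, σ) := by simp [step, hs]
  rw [this]
  exact h K

theorem Ex.pop_cons {Z : Oracle} {g : ℕ → Bool} {s : ℕ} {e z o : Prog} {σ σ' : Store} {n : ℕ}
    {b : Bool} {w : Str} (hs : σ s = b :: w)
    (h : Ex Z (fun i => g (i + 1)) (if b then o else z) (Function.update σ s w) n σ') :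
    Ex Z g (Prog.pop s e z o) σ (n + 1) σ' := by
  intro K
  rw [run_succ']
  have : step Z (g 0) (Prog.pop s e z o :: K, σ)
      = ((if b then o else z) :: K, Function.update σ s w) := by
    cases b <;> simp [step, hs]
  rw [this]
  exact h K

theorem Dx.pop_nil {Z : Oracle} {s : ℕ} {e z o : Prog} {σ σ' : Store} {n : ℕ}
    (hs : σ s = []) (h : Dx Z e σ n σ') : Dx Z (Prog.pop s e z o) σ (n + 1) σ' :=
  fun _ => Ex.pop_nil hs (h _)

theorem Dx.pop_cons {Z : Oracle} {s : ℕ} {e z o : Prog} {σ σ' : Store} {n : ℕ}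
    {b : Bool} {w : Str} (hs : σ s = b :: w)
    (h : Dx Z (if b then o else z) (Function.update σ s w) n σ') :
    Dx Z (Prog.pop s e z o) σ (n + 1) σ' := fun _ => Ex.pop_cons hs (h _)

theorem Dx.query {Z : Oracle} {s : ℕ} {n y : Prog} {σ σ' : Store} {k : ℕ}
    (h : Dx Z (if Z (σ s) then y else n) σ k σ') : Dx Z (Prog.query s n y) σ (k + 1) σ' := by
  intro g K
  rw [run_succ']
  have : step Z (g 0) (Prog.query s n y :: K, σ) = ((if Z (σ s) then y else n) :: K, σ) := rfl
  rw [this]
  exact h _ K

theorem Ex.guess {Z : Oracle} {g : ℕ → Bool} {z o : Prog} {σ σ' : Store} {n : ℕ}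
    (h : Ex Z (fun i => g (i + 1)) (if g 0 then o else z) σ n σ') :
    Ex Z g (Prog.guess z o) σ (n + 1) σ' := by
  intro K
  rw [run_succ']
  exact h K

theorem Ex.loop_nil {Z : Oracle} {g : ℕ → Bool} {s : ℕ} {p : Prog} {σ : Store} (hs : σ s = []) :
    Ex Z g (Prog.loop s p) σ 1 σ := by
  intro K
  have : step Z (g 0) (Prog.loop s p :: K, σ) = (K, σ) := by simp [step, hs]
  exact this

theorem Ex.loop_cons {Z : Oracle} {g : ℕ → Bool} {s : ℕ} {p : Prog} {σ σ1 σ2 : Store} {n m : ℕ}
    {b : Bool} {w : Str} (hs : σ s = b :: w) (h1 : Ex Z (fun i => g (1 + i)) p σ n σ1)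
    (h2 : Ex Z (fun i => g (1 + n + i)) (Prog.loop s p) σ1 m σ2) :
    Ex Z g (Prog.loop s p) σ (1 + n + m) σ2 := by
  intro K
  rw [run_add, run_add]
  have : run Z g (Prog.loop s p :: K, σ) 1 = (p :: Prog.loop s p :: K, σ) := by
    rw [run_succ, run_zero]; simp [step, hs]
  rw [this, h1 (Prog.loop s p :: K)]
  have := h2 K
  simpa [Nat.add_assoc] using this

theorem Dx.loop_nil {Z : Oracle} {s : ℕ} {p : Prog} {σ : Store} (hs : σ s = []) :
    Dx Z (Prog.loop s p) σ 1 σ := fun _ => Ex.loop_nil hs

theorem Dx.loop_cons {Z : Oracle} {s : ℕ} {p : Prog} {σ σ1 σ2 : Store} {n m : ℕ}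
    {b : Bool} {w : Str} (hs : σ s = b :: w) (h1 : Dx Z p σ n σ1)
    (h2 : Dx Z (Prog.loop s p) σ1 m σ2) : Dx Z (Prog.loop s p) σ (1 + n + m) σ2 :=
  fun _ => Ex.loop_cons hs (h1 _) (h2 _)

/-! ### Bounded execution and basic fragments -/

/-- deterministic execution within `B` steps -/
def DB (Z : Oracle) (p : Prog) (σ : Store) (B : ℕ) (σ' : Store) : Prop :=
  ∃ n ≤ B, Dx Z p σ n σ'

theorem DB.mono {Z : Oracle} {p : Prog} {σ σ' : Store} {B B' : ℕ} (h : DB Z p σ B σ')
    (hB : B ≤ B') : DB Z p σ B' σ' := by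
  obtain ⟨n, hn, h⟩ := h
  exact ⟨n, hn.trans hB, h⟩

theorem DB.of_eq {Z : Oracle} {p : Prog} {σ σ' σ'' : Store} {B : ℕ} (h : DB Z p σ B σ')
    (e : σ' = σ'') : DB Z p σ B σ'' := e ▸ h

theorem DB.skip {Z : Oracle} {σ : Store} : DB Z Prog.skip σ 1 σ := ⟨1, le_rfl, Dx.skip⟩

theorem DB.push {Z : Oracle} {σ : Store} {s : ℕ} {b : Bool} :
    DB Z (Prog.push s b) σ 1 (Function.update σ s (b :: σ s)) := ⟨1, le_rfl, Dx.push⟩

theorem DB.seq {Z : Oracle} {p q : Prog} {σ σ1 σ2 : Store} {n m : ℕ}
    (h1 : DB Z p σ n σ1) (h2 : DB Z q σ1 m σ2) :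
    DB Z (Prog.seq p q) σ (n + m + 1) σ2 := by
  obtain ⟨a, ha, h1⟩ := h1
  obtain ⟨b, hb, h2⟩ := h2
  exact ⟨1 + a + b, by omega, h1.seq h2⟩

theorem DB.pop_nil {Z : Oracle} {s : ℕ} {e z o : Prog} {σ σ' : Store} {n : ℕ}
    (hs : σ s = []) (h : DB Z e σ n σ') : DB Z (Prog.pop s e z o) σ (n + 1) σ' := by
  obtain ⟨a, ha, h⟩ := h
  exact ⟨a + 1, by omega, h.pop_nil hs⟩

theorem DB.pop_cons {Z : Oracle} {s : ℕ} {e z o : Prog} {σ σ' : Store} {n : ℕ}
    {b : Bool} {w : Str} (hs : σ s = b :: w)
    (h : DB Z (if b then o else z) (Function.update σ s w) n σ') :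
    DB Z (Prog.pop s e z o) σ (n + 1) σ' := by
  obtain ⟨a, ha, h⟩ := h
  exact ⟨a + 1, by omega, h.pop_cons hs⟩

theorem DB.query {Z : Oracle} {s : ℕ} {n y : Prog} {σ σ' : Store} {k : ℕ}
    (h : DB Z (if Z (σ s) then y else n) σ k σ') : DB Z (Prog.query s n y) σ (k + 1) σ' := by
  obtain ⟨a, ha, h⟩ := h
  exact ⟨a + 1, by omega, h.query⟩

theorem DB.loop_nil {Z : Oracle} {s : ℕ} {p : Prog} {σ : Store} (hs : σ s = []) :
    DB Z (Prog.loop s p) σ 1 σ := ⟨1, le_rfl, Dx.loop_nil hs⟩

theorem DB.loop_cons {Z : Oracle} {s : ℕ} {p : Prog} {σ σ1 σ2 : Store} {n m : ℕ}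
    {b : Bool} {w : Str} (hs : σ s = b :: w) (h1 : DB Z p σ n σ1)
    (h2 : DB Z (Prog.loop s p) σ1 m σ2) : DB Z (Prog.loop s p) σ (n + m + 1) σ2 := by
  obtain ⟨a, ha, h1⟩ := h1
  obtain ⟨c, hc, h2⟩ := h2
  exact ⟨1 + a + c, by omega, Dx.loop_cons hs h1 h2⟩

/-- empty a stack -/
def clr (s : ℕ) : Prog := Prog.loop s (Prog.pop s Prog.skip Prog.skip Prog.skip)

theorem clr_spec (Z : Oracle) (s : ℕ) (w : Str) : ∀ σ : Store, σ s = w →
    DB Z (clr s) σ (3 * w.length + 1) (Function.update σ s []) := by
  induction w with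
  | nil =>
    intro σ h
    have : Function.update σ s [] = σ := by rw [← h]; simp
    rw [this]
    exact DB.loop_nil h
  | cons b w ih =>
    intro σ h
    have h1 : DB Z (Prog.pop s Prog.skip Prog.skip Prog.skip) σ 2 (Function.update σ s w) := by
      refine DB.pop_cons h ?_
      have : (if b then Prog.skip else Prog.skip) = Prog.skip := by split_ifs <;> rfl
      rw [this]
      exact DB.skip
    have h2 := DB.loop_cons h h1 (ih (Function.update σ s w) (by simp))
    refine (h2.of_eq (by simp)).mono ?_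
    simp only [List.length_cons]; omega

/-- move the content of stack `a` to stack `b` (in reverse order) -/
def mv (a b : ℕ) : Prog := Prog.loop a (Prog.pop a Prog.skip (Prog.push b false) (Prog.push b true))

theorem mv_spec (Z : Oracle) {a b : ℕ} (hab : a ≠ b) (w : Str) : ∀ (σ : Store), σ a = w →
    DB Z (mv a b) σ (3 * w.length + 1)
      (Function.update (Function.update σ b (w.reverse ++ σ b)) a []) := by
  induction w with
  | nil =>
    intro σ h
    have : Function.update (Function.update σ b ([].reverse ++ σ b)) a [] = σ := by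
      simp only [List.reverse_nil, List.nil_append, Function.update_eq_self]
      rw [← h]; simp
    rw [this]
    exact DB.loop_nil h
  | cons c w ih =>
    intro σ h
    have h1 : DB Z (Prog.pop a Prog.skip (Prog.push b false) (Prog.push b true)) σ 2
        (Function.update (Function.update σ a w) b (c :: σ b)) := by
      refine DB.pop_cons h ?_
      have : (if c then Prog.push b true else Prog.push b false) = Prog.push b c := by
        cases c <;> rfl
      rw [this]
      refine DB.push.of_eq ?_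
      simp [Function.update_of_ne hab.symm]
    have h2 := DB.loop_cons h h1 (ih (Function.update (Function.update σ a w) b (c :: σ b))
      (by simp [Function.update_of_ne hab]))
    refine (h2.of_eq ?_).mono ?_
    · funext s
      simp only [Function.update_apply, List.reverse_cons, List.append_assoc]
      split_ifs <;> simp_all
    · simp only [List.length_cons]; omega

/-- copy the content of stack `a` on top of stack `b`, using the empty stack `t` -/
def cp (a t b : ℕ) : Prog :=
  Prog.seq (mv a t) (Prog.loop t (Prog.pop t Prog.skip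
    (Prog.seq (Prog.push a false) (Prog.push b false))
    (Prog.seq (Prog.push a true) (Prog.push b true))))

theorem cp_spec (Z : Oracle) {a t b : ℕ} (hat : a ≠ t) (hab : a ≠ b) (htb : t ≠ b) (σ : Store)
    (ht : σ t = []) :
    DB Z (cp a t b) σ (8 * (σ a).length + 3) (Function.update σ b (σ a ++ σ b)) := by
  have aux : ∀ (w : Str) (τ : Store), τ t = w → DB Z (Prog.loop t (Prog.pop t Prog.skip
      (Prog.seq (Prog.push a false) (Prog.push b false))
      (Prog.seq (Prog.push a true) (Prog.push b true)))) τ (5 * w.length + 1)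
      (Function.update (Function.update (Function.update τ a (w.reverse ++ τ a)) b
        (w.reverse ++ τ b)) t []) := by
    intro w
    induction w with
    | nil =>
      intro τ h
      have : Function.update (Function.update (Function.update τ a ([].reverse ++ τ a)) b
        ([].reverse ++ τ b)) t [] = τ := by
        simp only [List.reverse_nil, List.nil_append, Function.update_eq_self]
        rw [← h]; simp
      rw [this]
      exact DB.loop_nil h
    | cons c w ih =>
      intro τ h
      have h1 : DB Z (Prog.pop t Prog.skip (Prog.seq (Prog.push a false) (Prog.push b false))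
          (Prog.seq (Prog.push a true) (Prog.push b true))) τ 4
          (Function.update (Function.update (Function.update τ t w) a (c :: τ a)) b
            (c :: τ b)) := by
        refine DB.pop_cons h ?_
        have : (if c then (Prog.seq (Prog.push a true) (Prog.push b true))
          else (Prog.seq (Prog.push a false) (Prog.push b false)))
            = (Prog.seq (Prog.push a c) (Prog.push b c)) := by
          cases c <;> rfl
        rw [this]
        refine (DB.seq DB.push DB.push).of_eq ?_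
        simp [Function.update_of_ne hat, Function.update_of_ne hab.symm,
          Function.update_of_ne htb.symm]
      have h2 := DB.loop_cons h h1 (ih _ (by
        simp [Function.update_of_ne hat.symm, Function.update_of_ne htb]))
      refine (h2.of_eq ?_).mono ?_
      · funext s
        simp only [Function.update_apply, List.reverse_cons, List.append_assoc]
        split_ifs <;> simp_all
      · simp only [List.length_cons]; omega
  have h1 := mv_spec Z hat (σ a) σ rfl
  have h2 := aux (σ a).reverse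
    (Function.update (Function.update σ t ((σ a).reverse ++ σ t)) a []) (by
      simp [Function.update_of_ne hat.symm, ht])
  refine ((h1.seq h2).of_eq ?_).mono ?_
  · funext s
    simp only [Function.update_apply, List.reverse_reverse]
    split_ifs <;> simp_all
  · simp only [List.length_reverse]; omega

end Pool.Agent.H93.RO
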