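import Pool.Agent.H93.RO.PT

namespace Pool.Agent.H93.RO

/-! ### Bounds on the stacks used -/

/-- all stack numbers used by the program are below this number -/
def Prog.bd : Prog → ℕ
  | Prog.skip => 0
  | Prog.push s _ => s + 1
  | Prog.pop s e z o => max (s + 1) (max e.bd (max z.bd o.bd))
  | Prog.query s n y => max (s + 1) (max n.bd y.bd)
  | Prog.guess z o => max z.bd o.bd
  | Prog.seq p q => max p.bd q.bd
  | Prog.loop s p => max (s + 1) p.bd

theorem step_bd (Z : Oracle) (c : Bool) (N : ℕ) (L : List Prog) (τ : Store)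
    (h : ∀ p ∈ L, p.bd ≤ N) :
    (∀ p ∈ (step Z c (L, τ)).1, p.bd ≤ N) ∧ ∀ s, N ≤ s → (step Z c (L, τ)).2 s = τ s := by
  rcases L with _ | ⟨p, K⟩
  · exact ⟨h, fun _ _ => rfl⟩
  · have hp := h p (by simp)
    have hK : ∀ q ∈ K, q.bd ≤ N := fun q hq => h q (by simp [hq])
    have two : ∀ (q : Prog), q.bd ≤ N → ∀ r ∈ q :: K, r.bd ≤ N := by
      intro q hq r hr
      rcases List.mem_cons.1 hr with rfl | hr
      · exact hq
      · exact hK r hr
    cases p with
    | skip => exact ⟨hK, fun _ _ => rfl⟩
    | push s b =>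
      refine ⟨hK, fun t ht => ?_⟩
      simp only [Prog.bd] at hp
      exact Function.update_of_ne (by omega) _ _
    | pop s e z o =>
      simp only [Prog.bd, max_le_iff] at hp
      rcases hs : τ s with _ | ⟨_ | _, w⟩
      · simp only [step, hs]
        exact ⟨two e hp.2.1, fun _ _ => trivial⟩
      · simp only [step, hs]
        exact ⟨two z hp.2.2.1, fun t ht => Function.update_of_ne (by omega) _ _⟩
      · simp only [step, hs]
        exact ⟨two o hp.2.2.2, fun t ht => Function.update_of_ne (by omega) _ _⟩
    | query s n y =>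
      simp only [Prog.bd, max_le_iff] at hp
      refine ⟨?_, fun _ _ => rfl⟩
      simp only [step]
      split_ifs
      · exact two y hp.2.2
      · exact two n hp.2.1
    | guess z o =>
      simp only [Prog.bd, max_le_iff] at hp
      refine ⟨?_, fun _ _ => rfl⟩
      simp only [step]
      split_ifs
      · exact two o hp.2
      · exact two z hp.1
    | seq p q =>
      simp only [Prog.bd, max_le_iff] at hp
      refine ⟨?_, fun _ _ => rfl⟩
      intro r hr
      simp only [step, List.mem_cons] at hr
      rcases hr with rfl | rfl | hr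
      · exact hp.1
      · exact hp.2
      · exact hK r hr
    | loop s p =>
      rcases hs : τ s with _ | ⟨b, w⟩
      · simp only [step, hs]
        exact ⟨hK, fun _ _ => trivial⟩
      · simp only [step, hs]
        refine ⟨?_, fun _ _ => trivial⟩
        intro r hr
        simp only [List.mem_cons] at hr
        rcases hr with rfl | rfl | hr
        · simp only [Prog.bd, max_le_iff] at hp; exact hp.2
        · exact hp
        · exact hK r hr

theorem run_bd (Z : Oracle) (g : ℕ → Bool) (N : ℕ) (L : List Prog) (τ : Store)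
    (h : ∀ p ∈ L, p.bd ≤ N) (n : ℕ) :
    (∀ p ∈ (run Z g (L, τ) n).1, p.bd ≤ N) ∧ ∀ s, N ≤ s → (run Z g (L, τ) n).2 s = τ s := by
  induction n with
  | zero => exact ⟨h, fun _ _ => rfl⟩
  | succ n ih =>
    rw [run_succ]
    have h1 := step_bd Z (g n) N (run Z g (L, τ) n).1 (run Z g (L, τ) n).2 ih.1
    exact ⟨h1.1, fun s hs => (h1.2 s hs).trans (ih.2 s hs)⟩

theorem step_len (Z : Oracle) (c : Bool) (L : List Prog) (τ : Store) (s : ℕ) :
    ((step Z c (L, τ)).2 s).length ≤ (τ s).length + 1 := by
  rcases L with _ | ⟨p, K⟩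
  · simp [step]
  · cases p with
    | skip => simp [step]
    | push s' b =>
      simp only [step, Function.update_apply]
      split_ifs with h
      · subst h; simp
      · omega
    | pop s' e z o =>
      rcases hs : τ s' with _ | ⟨_ | _, w⟩
      · simp [step, hs]
      · simp only [step, hs, Function.update_apply]
        split_ifs with h
        · subst h; simp [hs]; omega
        · omega
      · simp only [step, hs, Function.update_apply]
        split_ifs with h
        · subst h; simp [hs]; omega
        · omega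
    | query s' n y => simp [step]
    | guess z o => simp [step]
    | seq p q => simp [step]
    | loop s' p =>
      rcases hs : τ s' with _ | ⟨b, w⟩ <;> simp [step, hs]

theorem run_len (Z : Oracle) (g : ℕ → Bool) (c : Cfg) (s : ℕ) (n : ℕ) :
    ((run Z g c n).2 s).length ≤ (c.2 s).length + n := by
  induction n with
  | zero => simp
  | succ n ih =>
    rw [run_succ]
    have := step_len Z (g n) (run Z g c n).1 (run Z g c n).2 s
    have e : ((run Z g c n).1, (run Z g c n).2) = run Z g c n := rfl
    rw [e] at this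
    omega

/-! ### Relocated programs -/

/-- shift all stack numbers by `o`, and put the bit `1` in front of all oracle queries -/
def tr (o : ℕ) : Prog → Prog
  | Prog.skip => Prog.skip
  | Prog.push s b => Prog.push (s + o) b
  | Prog.pop s e z n => Prog.pop (s + o) (tr o e) (tr o z) (tr o n)
  | Prog.query s n y => Prog.seq (Prog.push (s + o) true)
      (Prog.query (s + o) (Prog.pop (s + o) Prog.skip Prog.skip (tr o n))
        (Prog.pop (s + o) Prog.skip Prog.skip (tr o y)))
  | Prog.guess z n => Prog.guess (tr o z) (tr o n)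
  | Prog.seq p q => Prog.seq (tr o p) (tr o q)
  | Prog.loop s p => Prog.loop (s + o) (tr o p)

theorem tr_sim (o : ℕ) (Z Z1 : Oracle) (hZ : ∀ q, Z1 q = Z (true :: q)) :
    ∀ (n : ℕ) (L : List Prog) (τ : Store) (g : ℕ → Bool), (∀ p ∈ L, p.Det) →
      (run Z1 g (L, τ) n).1 = [] → ∀ σ : Store, (∀ s, σ (s + o) = τ s) →
      ∃ m ≤ 4 * n, ∃ σ' : Store,
        (∀ g' K, run Z g' (L.map (tr o) ++ K, σ) m = (K, σ')) ∧
        (∀ s, σ' (s + o) = (run Z1 g (L, τ) n).2 s) ∧ ∀ s < o, σ' s = σ s := by
  intro n
  induction n with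
  | zero =>
    intro L τ g _ h σ hσ
    simp only [run_zero] at h
    subst h
    exact ⟨0, le_rfl, σ, fun _ _ => rfl, hσ, fun _ _ => rfl⟩
  | succ n ih =>
    intro L τ g hdet h σ hσ
    rcases L with _ | ⟨p, L⟩
    · rw [run_halt]
      exact ⟨0, by omega, σ, fun _ _ => rfl, hσ, fun _ _ => rfl⟩
    rw [run_succ'] at h ⊢
    have hp := hdet p (by simp)
    have hL : ∀ q ∈ L, q.Det := fun q hq => hdet q (by simp [hq])
    have hcons : ∀ q : Prog, q.Det → ∀ r ∈ q :: L, r.Det := by
      intro q hq r hr
      rcases List.mem_cons.1 hr with rfl | hr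
      · exact hq
      · exact hL r hr
    -- general composition
    have key : ∀ (L1 : List Prog) (τ1 : Store) (σ1 : Store) (k : ℕ), k ≤ 4 →
        step Z1 (g 0) (p :: L, τ) = (L1, τ1) → (∀ q ∈ L1, q.Det) →
        (∀ s, σ1 (s + o) = τ1 s) → (∀ s < o, σ1 s = σ s) →
        (∀ g' K, run Z g' ((p :: L).map (tr o) ++ K, σ) k = (L1.map (tr o) ++ K, σ1)) →
        ∃ m ≤ 4 * (n + 1), ∃ σ' : Store,
        (∀ g' K, run Z g' ((p :: L).map (tr o) ++ K, σ) m = (K, σ')) ∧
        (∀ s, σ' (s + o)
          = (run Z1 (fun i => g (i + 1)) (step Z1 (g 0) (p :: L, τ)) n).2 s) ∧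
        ∀ s < o, σ' s = σ s := by
      intro L1 τ1 σ1 k hk hstep hd1 h1 h2 h3
      rw [hstep] at h ⊢
      obtain ⟨m, hm, σ', hr, hs, hlt⟩ := ih L1 τ1 _ hd1 h σ1 h1
      refine ⟨k + m, by omega, σ', fun g' K => ?_, hs, fun s hs => (hlt s hs).trans (h2 s hs)⟩
      rw [run_add, h3, hr]
    cases p with
    | skip =>
      exact key L τ σ 1 (by omega) rfl hL hσ (fun _ _ => rfl) (fun _ _ => rfl)
    | push s b =>
      refine key L (Function.update τ s (b :: τ s))
        (Function.update σ (s + o) (b :: σ (s + o))) 1 (by omega) rfl hL ?_ ?_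
        (fun _ _ => rfl)
      · intro t
        simp only [Function.update_apply, hσ]
        simp
      · intro t ht
        exact Function.update_of_ne (by omega) _ _
    | pop s e z q =>
      obtain ⟨he, hz, hq⟩ := hp
      rcases hs : τ s with _ | ⟨b, w⟩
      · refine key (e :: L) τ σ 1 (by omega) (by simp [step, hs]) (hcons e he) hσ
          (fun _ _ => rfl) ?_
        intro g' K
        rw [run_succ, run_zero]
        simp [tr, step, hσ, hs]
      · refine key ((if b then q else z) :: L) (Function.update τ s w)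
          (Function.update σ (s + o) w) 1 (by omega) (by cases b <;> simp [step, hs])
          (hcons _ (by cases b <;> assumption)) ?_ ?_ ?_
        · intro t
          simp only [Function.update_apply, hσ]
          simp
        · intro t ht
          exact Function.update_of_ne (by omega) _ _
        · intro g' K
          rw [run_succ, run_zero]
          cases b <;> simp [tr, step, hσ, hs]
    | query s q y =>
      obtain ⟨hq, hy⟩ := hp
      refine key ((if Z1 (τ s) then y else q) :: L) τ σ 4 (by omega) rfl
        (hcons _ (by split_ifs <;> assumption)) hσ (fun _ _ => rfl) ?_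
      intro g' K
      have e1 : Z (true :: τ s) = Z1 (τ s) := (hZ _).symm
      simp only [run_succ, run_zero, List.map_cons, tr, List.cons_append, step,
        Function.update_self, hσ, e1]
      cases Z1 (τ s) <;> simp [← hσ s]
    | guess z q => exact absurd hp (by simp [Prog.Det])
    | seq p q =>
      obtain ⟨h1, h2⟩ := hp
      refine key (p :: q :: L) τ σ 1 (by omega) rfl ?_ hσ (fun _ _ => rfl) (fun _ _ => rfl)
      intro r hr
      simp only [List.mem_cons] at hr
      rcases hr with rfl | rfl | hr
      · exact h1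
      · exact h2
      · exact hL r hr
    | loop s p =>
      rcases hs : τ s with _ | ⟨b, w⟩
      · refine key L τ σ 1 (by omega) (by simp [step, hs]) hL hσ (fun _ _ => rfl) ?_
        intro g' K
        rw [run_succ, run_zero]
        simp [tr, step, hσ, hs]
      · refine key (p :: Prog.loop s p :: L) τ σ 1 (by omega) (by simp [step, hs]) ?_ hσ
          (fun _ _ => rfl) ?_
        · intro r hr
          simp only [List.mem_cons] at hr
          rcases hr with rfl | rfl | hr
          · exact hp
          · exact hp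
          · exact hL r hr
        · intro g' K
          rw [run_succ, run_zero]
          simp [tr, step, hσ, hs]

/-- clear the stacks `a, ..., a + k - 1` -/
def clrs (a : ℕ) : ℕ → Prog
  | 0 => Prog.skip
  | k + 1 => Prog.seq (clrs a k) (clr (a + k))

theorem clrs_spec (Z : Oracle) (a H : ℕ) : ∀ (k : ℕ) (σ : Store),
    (∀ s, a ≤ s → (σ s).length ≤ H) →
    DB Z (clrs a k) σ (k * (3 * H + 2) + 1) (fun s => if a ≤ s ∧ s < a + k then [] else σ s) := by
  intro k
  induction k with
  | zero =>
    intro σ _
    refine (DB.skip.of_eq ?_).mono (by omega)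
    funext s
    simp
  | succ k ih =>
    intro σ hσ
    have h1 := ih σ hσ
    have h2 := clr_spec Z (a + k) _ (fun s => if a ≤ s ∧ s < a + k then [] else σ s) rfl
    refine ((h1.seq h2).of_eq ?_).mono ?_
    · funext s
      simp only [Function.update_apply]
      split_ifs <;> first | rfl | omega
    · have : (if a ≤ a + k ∧ a + k < a + k then ([] : Str) else σ (a + k)).length ≤ H := by
        rw [if_neg (by omega)]; exact hσ _ (by omega)
      rw [Nat.add_mul]
      omega

/-- running a relocated deterministic machine -/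
theorem tr_run (Z Z1 : Oracle) (hZ : ∀ q, Z1 q = Z (true :: q)) (Q : Prog) (hQ : Q.Det)
    (x : Str) (T : ℕ) (g : ℕ → Bool) (hT : (run Z1 g (start Q x) T).1 = [])
    (o : ℕ) (σ : Store) (h0 : σ o = x) (h1 : ∀ s, o < s → σ s = []) :
    ∃ m ≤ 4 * T, ∃ σ' : Store, Dx Z (tr o Q) σ m σ' ∧
      σ' (o + 1) = (run Z1 g (start Q x) T).2 1 ∧ (∀ s < o, σ' s = σ s) ∧
      (∀ s, o + Q.bd ≤ s → o < s → σ' s = []) ∧ (∀ s, o ≤ s → (σ' s).length ≤ x.length + T) := by
  have hσ : ∀ s, σ (s + o) = (if s = 0 then x else []) := by
    intro s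
    split_ifs with h
    · subst h; simpa using h0
    · exact h1 _ (by omega)
  obtain ⟨m, hm, σ', hr, hs, hlt⟩ := tr_sim o Z Z1 hZ T [Q] (fun s => if s = 0 then x else []) g
    (by simpa using hQ) hT σ hσ
  refine ⟨m, hm, σ', fun g' K => hr g' K, ?_, hlt, ?_, ?_⟩
  · have := hs 1
    rw [Nat.add_comm] at this
    exact this
  · intro s hs1 hs2
    obtain ⟨t, rfl⟩ : ∃ t, s = t + o := ⟨s - o, by omega⟩
    rw [hs t]
    have := (run_bd Z1 g Q.bd [Q] (fun s => if s = 0 then x else []) (by simp) T).2 t (by omega)
    rw [this, if_neg (by omega)]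
  · intro s hs1
    obtain ⟨t, rfl⟩ : ∃ t, s = t + o := ⟨s - o, by omega⟩
    rw [hs t]
    refine (run_len Z1 g _ t T).trans ?_
    simp only
    split_ifs <;> simp

/-- composition with a polynomial time function -/
theorem PT.call {n : ℕ} {e : Oracle → List Str → Str} (he : PT n e) {F : Str → Str}
    (hF : PolyFun F) : PT n (fun Z v => F (e Z v)) := by
  obtain ⟨p, ce, hp, hse, hce⟩ := he
  obtain ⟨Q, hdet, hqf, ⟨c, k, hT⟩, hout⟩ := hF
  set T : ℕ → ℕ := fun m => c * (p m + 1) ^ k with hTdef
  have hPB : PB (fun m => c * (m + 1) ^ k) :=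
    ⟨fun a b hab => Nat.mul_le_mul_left _ (Nat.pow_le_pow_left (by omega) k), c, k,
      fun n => le_rfl⟩
  have hPT : PB T := hPB.comp hp
  refine ⟨fun m => (p m + 4 * T m) + ((Q.bd + 9) * (3 * (p m + T m) + 2) + 20), fun ρ o =>
      Prog.seq (ce ρ o) (Prog.seq (tr o Q) (Prog.seq (clrs (o + 2) Q.bd) (shiftDown o))),
    (hp.add ((PB.const 4).mul hPT)).add (((PB.const _).mul (((PB.const 3).mul
      (hp.add hPT)).add (PB.const 2))).add (PB.const 20)), fun Z v hv => ?_, ?_⟩
  · have h1 := hT Z (fun _ => false) (e Z v)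
    have h2 := hout (e Z v) Z (fun _ => false) _ h1
    have h3 := run_len Z (fun _ => false) (start Q (e Z v)) 1 (c * ((e Z v).length + 1) ^ k)
    rw [h2] at h3
    have h4 := hse Z v hv
    have h5 : c * ((e Z v).length + 1) ^ k ≤ T (sz v) := hPB.mono h4
    have h6 : ((start Q (e Z v)).2 1).length = 0 := by simp [start]
    beta_reduce
    have h7 : (Q.bd + 9) * (3 * (p (sz v) + T (sz v)) + 2) ≥ 0 := Nat.zero_le _
    omega
  intro ρ o hρ hlt Z σ hσ
  have hv : (ρ.map σ).length = n := by simpa using hρ
  set v := ρ.map σ with hvdef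
  set x := e Z v with hx
  have hxl : x.length ≤ p (sz v) := hse Z v hv
  set T0 := c * (x.length + 1) ^ k with hT0
  have hT0' : T0 ≤ T (sz v) := hPB.mono hxl
  have h0 := hce ρ o hρ hlt Z σ hσ
  have hhalt := hT (fun q => Z (true :: q)) (fun _ => false) x
  obtain ⟨m, hm, σ1, hd, ho, hlo, hhi, hlen⟩ := tr_run Z (fun q => Z (true :: q)) (fun _ => rfl)
    Q hdet x T0 (fun _ => false) hhalt o (Function.update σ o x) (by simp) (by
      intro s hs
      rw [Function.update_of_ne (by omega)]
      exact hσ s (by omega))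
  rw [hout x _ _ _ hhalt] at ho
  have c1 := clrs_spec Z (o + 2) (x.length + T0) Q.bd σ1 (fun s hs => hlen s (by omega))
  have c2 := shiftDown_spec Z o (fun s => if o + 2 ≤ s ∧ s < o + 2 + Q.bd then [] else σ1 s) (by
    by_cases hb : Q.bd = 0
    · rw [if_neg (by omega)]
      exact hhi _ (by omega) (by omega)
    · rw [if_pos (by omega)])
  refine ((h0.seq (DB.seq ⟨m, le_rfl, hd⟩ (c1.seq c2))).of_eq ?_).mono ?_
  · change _ = Function.update σ o (F x)
    funext s
    by_cases e1 : s = o
    · subst e1
      rw [Function.update_of_ne (by omega), Function.update_self, Function.update_self,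
        if_neg (by omega), ho]
    · by_cases e2 : s = o + 1
      · subst e2
        rw [Function.update_self, Function.update_of_ne (by omega), hσ _ (by omega)]
      · rw [Function.update_of_ne e2, Function.update_of_ne e1, Function.update_of_ne e1]
        by_cases e3 : s < o
        · rw [if_neg (by omega), hlo s e3, Function.update_of_ne e1]
        · by_cases e4 : s < o + 2 + Q.bd
          · rw [if_pos (by omega), hσ _ (by omega)]
          · rw [if_neg (by omega), hhi s (by omega) (by omega), hσ _ (by omega)]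
  · have l1 : (if o + 2 ≤ o ∧ o < o + 2 + Q.bd then ([] : Str) else σ1 o).length
        ≤ x.length + T0 := by rw [if_neg (by omega)]; exact hlen _ (by omega)
    have l2 : (if o + 2 ≤ o + 1 ∧ o + 1 < o + 2 + Q.bd then ([] : Str) else σ1 (o + 1)).length
        ≤ x.length + T0 := by rw [if_neg (by omega)]; exact hlen _ (by omega)
    have l3 : Q.bd * (3 * (x.length + T0) + 2) ≤ Q.bd * (3 * (p (sz v) + T (sz v)) + 2) :=
      Nat.mul_le_mul_left _ (by omega)
    have l4 : p (sz (List.map σ ρ)) = p (sz v) := rfl
    beta_reduce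
    rw [Nat.add_mul]
    omega

end Pool.Agent.H93.RO
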