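import Mathlib.Probability.ProductMeasure
import Mathlib.Probability.Distributions.Uniform
import Mathlib.Data.Nat.Bits

/-!
# Definitions for the classes LP and LNP

The machine model is the multi-stack machine: a program works on finitely many stacks of bits
(two stacks are one tape), may ask oracle queries and may make nondeterministic binary choices.
Programs are written in structured form (sequencing, case distinction, while loop).
-/

namespace Pool.Agent.H93.RO

open MeasureTheory

/-- Finite binary strings, the elements of `Sigma^*`. -/
abbrev Str := List Bool

/-- An oracle is a set of strings, given by its characteristic function. -/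
abbrev Oracle := Str → Bool

/-- Programs of nondeterministic oracle machines working on stacks of bits
(stacks are numbered by natural numbers, a program uses only finitely many of them). -/
inductive Prog : Type
  /-- do nothing -/
  | skip : Prog
  /-- push the bit `b` on stack `s` -/
  | push (s : ℕ) (b : Bool) : Prog
  /-- remove the top bit of stack `s`; continue with `e` if the stack was empty, with `z` if the
  removed bit was `0` and with `o` if it was `1` -/
  | pop (s : ℕ) (e z o : Prog) : Prog
  /-- oracle query: continue with `y` if the content of stack `s` belongs to the oracle and with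
  `n` otherwise -/
  | query (s : ℕ) (n y : Prog) : Prog
  /-- nondeterministic choice between `z` and `o` -/
  | guess (z o : Prog) : Prog
  /-- first `p`, then `q` -/
  | seq (p q : Prog) : Prog
  /-- while stack `s` is not empty do `p` -/
  | loop (s : ℕ) (p : Prog) : Prog
  deriving DecidableEq

/-- The contents of the stacks; the head of a list is the top of the stack. -/
abbrev Store := ℕ → Str

/-- A configuration: the list of programs still to be executed, and the stacks. -/
abbrev Cfg := List Prog × Store

/-- One step of computation with oracle `Z` and choice bit `c`
(the choice bit is used by the instruction `guess` only). -/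
def step (Z : Oracle) (c : Bool) : Cfg → Cfg
  | ([], σ) => ([], σ)
  | (Prog.skip :: K, σ) => (K, σ)
  | (Prog.push s b :: K, σ) => (K, Function.update σ s (b :: σ s))
  | (Prog.pop s e z o :: K, σ) =>
      match σ s with
      | [] => (e :: K, σ)
      | false :: w => (z :: K, Function.update σ s w)
      | true :: w => (o :: K, Function.update σ s w)
  | (Prog.query s n y :: K, σ) => ((if Z (σ s) then y else n) :: K, σ)
  | (Prog.guess z o :: K, σ) => ((if c then o else z) :: K, σ)
  | (Prog.seq p q :: K, σ) => (p :: q :: K, σ)
  | (Prog.loop s p :: K, σ) =>
      match σ s with
      | [] => (K, σ)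
      | _ :: _ => (p :: Prog.loop s p :: K, σ)

/-- The configuration reached after `t` steps with oracle `Z`, where `g i` is the choice bit
of step number `i`. -/
def run (Z : Oracle) (g : ℕ → Bool) (c : Cfg) : ℕ → Cfg
  | 0 => c
  | t + 1 => step Z (g t) (run Z g c t)

/-- The initial configuration: the input `x` is on stack `0`, all other stacks are empty. -/
def start (P : Prog) (x : Str) : Cfg := ([P], fun s => if s = 0 then x else [])

/-- The machine with program `P` runs in polynomial time: there is a polynomial time bound
after which it has halted (no program is left to be executed), for every oracle, every input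
and every sequence of choices. -/
def PolyTime (P : Prog) : Prop :=
  ∃ c k : ℕ, ∀ (Z : Oracle) (g : ℕ → Bool) (x : Str),
    (run Z g (start P x) (c * (x.length + 1) ^ k)).1 = []

/-- The program makes no nondeterministic choices. -/
def Prog.Det : Prog → Prop
  | Prog.skip => True
  | Prog.push _ _ => True
  | Prog.pop _ e z o => e.Det ∧ z.Det ∧ o.Det
  | Prog.query _ n y => n.Det ∧ y.Det
  | Prog.guess _ _ => False
  | Prog.seq p q => p.Det ∧ q.Det
  | Prog.loop _ p => p.Det

/-- The program asks no oracle queries. -/
def Prog.QueryFree : Prog → Prop
  | Prog.skip => True
  | Prog.push _ _ => True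
  | Prog.pop _ e z o => e.QueryFree ∧ z.QueryFree ∧ o.QueryFree
  | Prog.query _ _ _ => False
  | Prog.guess z o => z.QueryFree ∧ o.QueryFree
  | Prog.seq p q => p.QueryFree ∧ q.QueryFree
  | Prog.loop _ p => p.QueryFree

/-- The language `L(M^Z)` of the oracle machine with program `P`: the set of inputs for which
some sequence of choices leads to a halting configuration with the bit `1` on top of stack `1`. -/
def Lang (P : Prog) (Z : Oracle) : Set Str :=
  {x | ∃ (g : ℕ → Bool) (t : ℕ) (w : Str),
    (run Z g (start P x) t).1 = [] ∧ (run Z g (start P x) t).2 1 = true :: w}

/-- The function `f` on strings is computable in polynomial time (by a deterministic machine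
without oracle; the output is the final content of stack `1`). -/
def PolyFun (f : Str → Str) : Prop :=
  ∃ P : Prog, P.Det ∧ P.QueryFree ∧ PolyTime P ∧
    ∀ (x : Str) (Z : Oracle) (g : ℕ → Bool) (t : ℕ),
      (run Z g (start P x) t).1 = [] → (run Z g (start P x) t).2 1 = f x

/-- Polynomial-time many-one reducibility. -/
def ManyOne (A D : Set Str) : Prop :=
  ∃ f : Str → Str, PolyFun f ∧ ∀ w, w ∈ A ↔ f w ∈ D

/-- The length-lexicographic enumeration `z_0, z_1, ...` of the binary strings: `z k` is the binary
expansion of `k + 1` without its leading `1`. -/
def z (k : ℕ) : Str := (Nat.bits (k + 1)).reverse.tail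

/-- Pairing of strings: every bit of `a` is preceded by a `1`, the end of `a` is marked by `0`. -/
def pr (a b : Str) : Str := a.flatMap (fun c => [true, c]) ++ false :: b

/-- The tupling function for triples. -/
def triple (a b c : Str) : Str := pr a (pr b c)

/-- The fair-coin product measure on oracles. -/
noncomputable def mu : Measure Oracle :=
  Measure.infinitePi (fun _ : Str => (PMF.uniformOfFintype Bool).toMeasure)

/-- The language `Lm(B)` for the oracle-dependent language `B^Z = L(M^Z)` given by a program. -/
def Lm (P : Prog) : Set Str :=
  {w | ∃ (x : Str) (k n : ℕ), 1 ≤ k ∧ w = triple x (z k) (z n) ∧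
    (n : ENNReal) / (k : ENNReal) < mu {Z : Oracle | x ∈ Lang P Z}}

/-- The class LP. -/
def LP : Set (Set Str) := {A | ∃ P : Prog, P.Det ∧ PolyTime P ∧ A = Lm P}

/-- The class LNP. -/
def LNP : Set (Set Str) := {A | ∃ P : Prog, PolyTime P ∧ A = Lm P}

end Pool.Agent.H93.RO
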