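import Pool.Agent.H93.RO.Num

namespace Pool.Agent.H93.RO

/-- the instance built from `x`: the threshold is `(2 ^ (r - 1) - 1) / 2 ^ (r - 1)` where `r` is
the length of the second component of `x` -/
def inst (x : Str) : Str :=
  triple x (List.replicate (pfst (psnd x)).tail.tail.length false ++ [true])
    (List.replicate (pfst (psnd x)).tail.length false ++ [])

/-- the number `k + 1` coded by the string `z_k` -/
def num (c : Str) : ℕ := val (true :: c).reverse

/-- decision of the diagonal machine: `[true]` accept, `[false]` reject, `[]` run the machine -/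
def dec (Z : Oracle) (y : Str) : Str :=
  bc [isP y] [] [false] (bc [isP (psnd y)] [] [false] (bc (pfst (psnd y)) [false]
    (bc (coins Z [false] (true :: y).length) []
      (bc (ltS (List.replicate (coins Z [false] (true :: y).length).tail.length false ++ [])
          (coins Z [false] (true :: y).length).tail) [] [true]
        (bc (ltS (coins Z [false] (true :: y).length).tail (true :: (psnd (psnd y))).reverse) []
          [true] [false]))
      (bc (ltS (List.replicate (coins Z [false] (true :: y).length).tail.length false ++ [])
          (coins Z [false] (true :: y).length).tail) [] [false]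
        (bc (ltS (coins Z [false] (true :: y).length).tail (true :: (pfst (psnd y))).reverse) []
          [false] [])))
    (bc (coins Z [false] (true :: y).length) []
      (bc (ltS (List.replicate (coins Z [false] (true :: y).length).tail.length false ++ [])
          (coins Z [false] (true :: y).length).tail) [] [true]
        (bc (ltS (coins Z [false] (true :: y).length).tail (true :: (psnd (psnd y))).reverse) []
          [true] [false]))
      (bc (ltS (List.replicate (coins Z [false] (true :: y).length).tail.length false ++ [])
          (coins Z [false] (true :: y).length).tail) [] [false]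
        (bc (ltS (coins Z [false] (true :: y).length).tail (true :: (pfst (psnd y))).reverse) []
          [false] [])))))

theorem PT.dec {n : ℕ} {y : Oracle → List Str → Str} (hy : PT n y) :
    PT n (fun Z v => RO.dec Z (y Z v)) := by
  have hC := PT.coins [false] (PT.cons true hy)
  have hz := PT.ltS (PT.rep false hC.tail PT.nil) hC.tail
  have main := PT.case hC PT.nil
    (PT.case hz PT.nil (PT.const [true])
      (PT.case (PT.ltS hC.tail (PT.cons true hy.snd.snd).rev) PT.nil (PT.const [true])
        (PT.const [false])))
    (PT.case hz PT.nil (PT.const [false])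
      (PT.case (PT.ltS hC.tail (PT.cons true hy.snd.fst).rev) PT.nil (PT.const [false])
        PT.nil))
  exact PT.case hy.isPr PT.nil (PT.const _) (PT.case hy.snd.isPr PT.nil (PT.const _)
    (PT.case hy.snd.fst (PT.const _) main main))

/-- the value of `dec` -/
theorem dec_eq (Z : Oracle) (y : Str) : dec Z y =
    if isP y = true ∧ isP (psnd y) = true ∧ pfst (psnd y) ≠ [] then
      (if Z (false :: coins Z [false] y.length) = true then
        (if 0 < val (coins Z [false] y.length) ∧
          val (coins Z [false] y.length) < num (pfst (psnd y)) then [] else [false])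
      else
        (if 0 < val (coins Z [false] y.length) ∧
          val (coins Z [false] y.length) < num (psnd (psnd y)) then [false] else [true]))
    else [false] := by
  unfold dec
  by_cases h1 : isP y = true
  swap
  · simp [h1]
  by_cases h2 : isP (psnd y) = true
  swap
  · simp [h1, h2]
  by_cases h3 : pfst (psnd y) = []
  · simp [h1, h2, h3]
  rw [if_pos ⟨h1, h2, h3⟩]
  simp only [h1, h2, bc_true]
  have hy1 := pr_of_isP y h1
  have hy2 := pr_of_isP (psnd y) h2
  have hlen : y.length = 2 * (pfst y).length + 1 + (2 * (pfst (psnd y)).length + 1 +
      (psnd (psnd y)).length) := by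
    conv_lhs => rw [hy1, pr_length, hy2, pr_length]
  have hw : coins Z [false] (true :: y).length
      = Z (false :: coins Z [false] y.length) :: coins Z [false] y.length := rfl
  rw [hw, List.tail_cons]
  set C := coins Z [false] y.length with hC
  have hCl : C.length = y.length := coins_length _ _ _
  have e0 : val (List.replicate C.length false) = 0 := by
    rw [← bin_zero]
    exact val_bin _ _ (by positivity)
  have z0 := ltS_cases (a := List.replicate C.length false ++ []) (b := C) (by simp)
  rw [List.append_nil, e0] at z0
  rw [List.append_nil]
  have z1 := ltS_cases (a := C) (b := (true :: psnd (psnd y)).reverse) (by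
    simp only [List.length_reverse, List.length_cons]; omega)
  have z2 := ltS_cases (a := C) (b := (true :: pfst (psnd y)).reverse) (by
    simp only [List.length_reverse, List.length_cons]; omega)
  have key : ∀ m : Str, bc (pfst (psnd y)) [false] m m = m := by
    intro m
    rcases hb : pfst (psnd y) with _ | ⟨_ | _, w⟩
    · exact absurd hb h3
    · rfl
    · rfl
  rw [key]
  unfold num
  rcases z0 with ⟨a0, r0, b0⟩ | ⟨a0, r0, b0⟩ <;> rcases z1 with ⟨a1, r1, b1⟩ | ⟨a1, r1, b1⟩ <;>
    rcases z2 with ⟨a2, r2, b2⟩ | ⟨a2, r2, b2⟩ <;> rw [b0, b1, b2] <;>
    cases Z (false :: C) <;> simp only [bc_false, bc_true, a0, a1, a2, and_self, and_true,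
      and_false, if_true, if_false, Bool.false_eq_true]

/-- the diagonal machine for a reduction `F` and a machine `Q` -/
theorem PG_machine {F : Str → Str} (hF : PolyFun F) {Q : Prog} (hQ : Q.Det) (hT : PolyTime Q) :
    ∃ (P : Prog) (c k : ℕ), ∀ (Z : Oracle) (g : ℕ → Bool) (x : Str),
      (run Z g (start P x) (c * (x.length + 1) ^ k)).1 = [] ∧
      ((∃ w, (run Z g (start P x) (c * (x.length + 1) ^ k)).2 1 = true :: w) ↔
        bcP (dec Z (F (inst x))) (pfst (F (inst x)) ∈ Lang Q (fun q => Z (true :: q)))
          False True) := by
  have hx : PT 1 (fun _ v => v.getD 0 []) := PT.var 0 (by omega)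
  have hs := hx.snd.fst
  have hinst : PT 1 (fun _ v => inst (v.getD 0 [])) :=
    PT.pair hx (PT.pair (PT.rep false hs.tail.tail (PT.const [true]))
      (PT.rep false hs.tail PT.nil))
  have hy := hinst.call hF
  have hD := DPT.case hy.dec (DPT.call hy.fst hQ hT) (DPT.of_PT PT.nil)
    (DPT.of_PT (PT.const [true]))
  obtain ⟨P, c, k, h⟩ := hD.machine
  refine ⟨P, c, k, fun Z g x => ⟨(h Z g x).1, (h Z g x).2.trans ?_⟩⟩
  have e : ([x] : List Str).getD 0 [] = x := rfl
  rw [e]
  rcases dec Z (F (inst x)) with _ | ⟨_ | _, w⟩ <;> simp

end Pool.Agent.H93.RO
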