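import Pool.Agent.H93.RO.Meas
import Pool.Agent.H93.RO.PG

namespace Pool.Agent.H93.RO

open MeasureTheory

/-! ### Numbers and strings -/

theorem num_eq (c : Str) : num c = val c.reverse + 2 ^ c.length := by
  simp [num, val_append, val]

theorem num_pos (c : Str) : 1 ≤ num c := by
  rw [num_eq]
  have : 1 ≤ 2 ^ c.length := Nat.one_le_two_pow
  omega

theorem num_lt (c : Str) : num c < 2 ^ (c.length + 1) := by
  have := val_lt (true :: c).reverse
  simpa [num] using this

theorem num_inj {c c' : Str} (h : num c = num c') : c = c' := by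
  have h1 := num_eq c
  have h2 := num_eq c'
  have h3 := num_lt c
  have h4 := num_lt c'
  have hl : c.length = c'.length := by
    rcases lt_trichotomy c.length c'.length with hl | hl | hl
    · have : 2 ^ (c.length + 1) ≤ 2 ^ c'.length := Nat.pow_le_pow_right (by omega) hl
      omega
    · exact hl
    · have : 2 ^ (c'.length + 1) ≤ 2 ^ c.length := Nat.pow_le_pow_right (by omega) hl
      omega
  have h5 : val c.reverse = val c'.reverse := by rw [hl] at h1; omega
  have := val_inj (by simp [hl]) h5
  simpa using this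

theorem num_one_iff (c : Str) : 2 ≤ num c ↔ c ≠ [] := by
  constructor
  · rintro h rfl
    have : num [] = 1 := by simp [num, val]
    omega
  · intro h
    have h1 := num_eq c
    have : 2 ^ 1 ≤ 2 ^ c.length :=
      Nat.pow_le_pow_right (by omega) (List.length_pos_iff.2 h)
    omega

theorem bits_spec (n : ℕ) : val n.bits = n ∧ (n ≠ 0 → ∃ w, n.bits = w ++ [true]) := by
  induction n using Nat.strong_induction_on with
  | _ n ih =>
    rcases Nat.eq_zero_or_pos n with rfl | hn
    · exact ⟨by simp [val], fun h => absurd rfl h⟩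
    · rcases Nat.even_or_odd' n with ⟨m, rfl | rfl⟩
      · have hm : m ≠ 0 := by omega
        obtain ⟨h1, h2⟩ := ih m (by omega)
        obtain ⟨w, hw⟩ := h2 hm
        rw [Nat.bit0_bits m hm]
        exact ⟨by simp [val, h1], fun _ => ⟨false :: w, by rw [hw]; rfl⟩⟩
      · rw [Nat.bit1_bits m]
        obtain ⟨h1, h2⟩ := ih m (by omega)
        refine ⟨by simp [val, h1]; omega, fun _ => ?_⟩
        rcases Nat.eq_zero_or_pos m with rfl | hm
        · exact ⟨[], by simp⟩
        · obtain ⟨w, hw⟩ := h2 (by omega)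
          exact ⟨true :: w, by rw [hw]; rfl⟩

theorem num_z (k : ℕ) : num (z k) = k + 1 := by
  obtain ⟨h1, h2⟩ := bits_spec (k + 1)
  obtain ⟨w, hw⟩ := h2 (by omega)
  have : true :: z k = (Nat.bits (k + 1)).reverse := by
    rw [z, hw]; simp
  rw [num, this, List.reverse_reverse, h1]

theorem z_num (c : Str) : z (num c - 1) = c := by
  apply num_inj
  rw [num_z]
  have := num_pos c
  omega

/-! ### Membership in `Lm` -/

theorem ennreal_div_lt (n k : ℕ) (hk : 1 ≤ k) (E : Set Oracle) :
    (n : ENNReal) / (k : ENNReal) < mu E ↔ (n : ℝ) < k * pm E := by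
  have hk0 : (0 : ℝ) < k := by exact_mod_cast hk
  have h1 : (n : ENNReal) / (k : ENNReal) = ENNReal.ofReal ((n : ℝ) / k) := by
    rw [ENNReal.ofReal_div_of_pos hk0, ENNReal.ofReal_natCast, ENNReal.ofReal_natCast]
  have h2 : mu E = ENNReal.ofReal (pm E) := by
    unfold pm Measure.real
    rw [ENNReal.ofReal_toReal (measure_ne_top _ _)]
  rw [h1, h2, ENNReal.ofReal_lt_ofReal_iff_of_nonneg (by positivity), div_lt_iff₀ hk0, mul_comm]

theorem mem_Lm (P : Prog) (y : Str) :
    y ∈ Lm P ↔ isP y = true ∧ isP (psnd y) = true ∧ pfst (psnd y) ≠ [] ∧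
      ((num (psnd (psnd y)) : ℝ) - 1) <
        ((num (pfst (psnd y)) : ℝ) - 1) * pm {Z | pfst y ∈ Lang P Z} := by
  constructor
  · rintro ⟨x, k, n, hk, rfl, h⟩
    rw [ennreal_div_lt n k hk] at h
    simp only [triple, isP_pr, psnd_pr, pfst_pr, true_and]
    refine ⟨?_, ?_⟩
    · rw [← num_one_iff, num_z]; omega
    · rw [num_z, num_z]
      push_cast
      simpa using h
  · rintro ⟨h1, h2, h3, h4⟩
    have e1 := pr_of_isP y h1
    have e2 := pr_of_isP (psnd y) h2
    have hb := (num_one_iff _).2 h3
    have hc := num_pos (psnd (psnd y))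
    refine ⟨pfst y, num (pfst (psnd y)) - 1, num (psnd (psnd y)) - 1, by omega, ?_, ?_⟩
    · rw [z_num, z_num, triple, ← e2]; exact e1
    · rw [ennreal_div_lt _ _ (by omega)]
      rw [Nat.cast_sub hc, Nat.cast_sub (by omega)]
      simpa using h4

/-! ### Locality -/

/-- the run of a machine for `n` steps depends only on short strings of the oracle -/
theorem run_local {Z Z' : Oracle} (g : ℕ → Bool) (c : Cfg) (H n : ℕ)
    (hc : ∀ s, (c.2 s).length ≤ H) (h : ∀ q : Str, q.length ≤ H + n → Z q = Z' q) :
    run Z g c n = run Z' g c n := by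
  induction n with
  | zero => rfl
  | succ n ih =>
    have ih' := ih fun q hq => h q (by omega)
    rw [run_succ, run_succ, ← ih', step_eq, step_eq]
    congr 1
    apply h
    have hlen : ∀ s, ((run Z g c n).2 s).length ≤ H + n := by
      intro s
      have := run_len Z g c s n
      have := hc s
      omega
    rcases hr : run Z g c n with ⟨L, σ⟩
    rw [hr] at hlen
    rcases L with _ | ⟨p, K⟩
    · simp [asked]
    · cases p with
      | query s n' y =>
        have := hlen s
        simp only at this
        simp only [asked]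
        omega
      | _ => simp only [asked, List.length_nil]; omega

/-- strings of length at most `H` -/
def short (H : ℕ) : Set Str := {q : Str | q.length ≤ H}

theorem short_finite (H : ℕ) : (short H).Finite := List.finite_length_le Bool H

theorem Lang_dep {P : Prog} (hP : PolyTime P) (x : Str) :
    ∃ H, Dep (short H) {Z | x ∈ Lang P Z} := by
  obtain ⟨c, k, hT⟩ := hP
  set T := c * (x.length + 1) ^ k with hTd
  refine ⟨x.length + T, fun Z Z' h => ?_⟩
  have key : ∀ Z Z' : Oracle, (∀ q ∈ short (x.length + T), Z q = Z' q) →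
      x ∈ Lang P Z → x ∈ Lang P Z' := by
    rintro Z Z' h ⟨g, t, w, h1, h2⟩
    have e1 := run_local g (start P x) x.length T (by
      intro s; simp only [start]; split_ifs <;> simp) (fun q hq => h q hq)
    have e2 := run_halt_eq Z g (start P x) (n := t) (m := T) h1 (hT Z g x)
    rw [← e2] at h2
    refine ⟨g, T, w, hT Z' g x, ?_⟩
    rw [← e1]
    exact h2
  exact ⟨key Z Z' h, key Z' Z fun q hq => (h q hq).symm⟩

/-! ### The acceptance probability of the diagonal machine -/

theorem sum_two (K : ℕ) (g : ℕ → ℕ → ℝ) :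
    ∑ i ∈ Finset.range (2 * K), g (i % 2) (i / 2)
      = ∑ m ∈ Finset.range K, (g 0 m + g 1 m) := by
  induction K with
  | zero => simp
  | succ K ih =>
    rw [show 2 * (K + 1) = 2 * K + 1 + 1 by ring, Finset.sum_range_succ, Finset.sum_range_succ,
      Finset.sum_range_succ, ih]
    have h1 : 2 * K % 2 = 0 := by omega
    have h2 : 2 * K / 2 = K := by omega
    have h3 : (2 * K + 1) % 2 = 1 := by omega
    have h4 : (2 * K + 1) / 2 = K := by omega
    rw [h1, h2, h3, h4]
    ring

theorem sum_count (K B : ℕ) (hB : 1 ≤ B) (hBK : B ≤ K) (r : ℝ) :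
    ∑ m ∈ Finset.range K, (if 0 < m ∧ m < B then r else 0) = (B - 1) * r := by
  rw [← Finset.sum_filter, Finset.sum_const]
  have : (Finset.range K).filter (fun m => 0 < m ∧ m < B) = Finset.Ico 1 B := by
    ext m
    simp only [Finset.mem_filter, Finset.mem_range, Finset.mem_Ico]
    omega
  rw [this, Nat.card_Ico, nsmul_eq_mul, Nat.cast_sub hB]
  simp

theorem prob_G {Q : Prog} (hT : PolyTime Q) (y : Str) :
    pm {Z | bcP (dec Z y) (pfst y ∈ Lang Q (fun q => Z (true :: q))) False True} ≤ 1 / 2 ↔
      y ∉ Lm Q := by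
  set E : Set Oracle :=
    {Z | bcP (dec Z y) (pfst y ∈ Lang Q (fun q => Z (true :: q))) False True} with hE
  rw [mem_Lm]
  by_cases hv : isP y = true ∧ isP (psnd y) = true ∧ pfst (psnd y) ≠ []
  swap
  · have : E = ∅ := by
      ext Z
      simp only [hE, Set.mem_ofPred_eq, dec_eq, if_neg hv]
      simp
    rw [this, pm_empty]
    constructor
    · rintro - ⟨h1, h2, h3, -⟩
      exact hv ⟨h1, h2, h3⟩
    · intro _; norm_num
  have hdec := fun Z => (dec_eq Z y).trans (if_pos hv)
  set n := y.length with hn
  set b := pfst (psnd y) with hb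
  set c := psnd (psnd y) with hc
  obtain ⟨H, hH⟩ := Lang_dep hT (pfst y)
  set D : Set Oracle := {Z | pfst y ∈ Lang Q (fun q => Z (true :: q))} with hD
  have hDdep : Dep ((fun q => true :: q) '' short H) D := by
    intro Z Z' h
    exact hH _ _ fun q hq => h _ ⟨q, hq, rfl⟩
  have hDF : ((fun q : Str => true :: q) '' short H).Finite := (short_finite H).image _
  have hDpm : pm D = pm {Z | pfst y ∈ Lang Q Z} :=
    pm_sub true (Dep.meas (short_finite H) hH)
  have hlenbc : b.length + 1 ≤ n ∧ c.length + 1 ≤ n := by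
    have h1 := pr_of_isP y hv.1
    have h2 := pr_of_isP (psnd y) hv.2.1
    have : y.length = 2 * (pfst y).length + 1 + (2 * b.length + 1 + c.length) := by
      conv_lhs => rw [h1, pr_length, h2, pr_length]
    omega
  have hbK : num b ≤ 2 ^ n :=
    (num_lt b).le.trans (Nat.pow_le_pow_right (by omega) hlenbc.1)
  have hcK : num c ≤ 2 ^ n :=
    (num_lt c).le.trans (Nat.pow_le_pow_right (by omega) hlenbc.2)
  -- the whole set depends on finitely many coordinates
  set F : Set Str := (fun q => true :: q) '' short H ∪ (fun q => false :: q) '' short n with hF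
  have hFf : F.Finite := hDF.union ((short_finite n).image _)
  have hcoins : ∀ Z Z' : Oracle, (∀ q ∈ F, Z q = Z' q) → ∀ m ≤ n + 1,
      coins Z [false] m = coins Z' [false] m := by
    intro Z Z' h m hm
    apply coins_congr
    intro u hu
    apply h
    exact Or.inr ⟨u, by simp only [short, Set.mem_ofPred_eq]; omega, rfl⟩
  have hmem : ∀ Z, Z ∈ E ↔
      (if (coins Z [false] (n + 1)).head? = some true then
        ((0 < val (coins Z [false] n) ∧ val (coins Z [false] n) < num b) ∧ Z ∈ D)
      else ¬ (0 < val (coins Z [false] n) ∧ val (coins Z [false] n) < num c)) := by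
    intro Z
    simp only [hE, Set.mem_ofPred_eq, hdec]
    have : (coins Z [false] (n + 1)).head? = some (Z (false :: coins Z [false] n)) := rfl
    rw [this]
    cases hz : Z (false :: coins Z [false] n)
    · simp only [Bool.false_eq_true, if_false, Option.some.injEq]
      by_cases h : 0 < val (coins Z [false] n) ∧ val (coins Z [false] n) < num c
      · rw [if_pos h]; simp [h]
      · rw [if_neg h]; simp only [bcP_true, true_iff]; exact h
    · simp only [if_true]
      by_cases h : 0 < val (coins Z [false] n) ∧ val (coins Z [false] n) < num b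
      · rw [if_pos h]; simp only [bcP_nil, hD, Set.mem_ofPred_eq]; exact ⟨fun h' => ⟨h, h'⟩, fun h' => h'.2⟩
      · rw [if_neg h]; simp only [bcP_false, false_iff]; exact fun h' => h h'.1
  have hEdep : Dep F E := by
    intro Z Z' h
    rw [hmem, hmem, hcoins Z Z' h (n + 1) le_rfl, hcoins Z Z' h n (by omega),
      hDdep Z Z' fun q hq => h q (Or.inl hq)]
  have hsum := pm_sum hFf hEdep (2 * 2 ^ n) (fun Z => val (coins Z [false] (n + 1)))
    (fun Z Z' h => by rw [hcoins Z Z' h (n + 1) le_rfl]) (fun Z => by
      have := val_lt (coins Z [false] (n + 1))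
      rw [coins_length, pow_succ] at this
      omega)
  set g : ℕ → ℕ → ℝ := fun e m => (if e = 1 then (if 0 < m ∧ m < num b then pm D else 0)
    else 1 - (if 0 < m ∧ m < num c then 1 else 0)) / 2 ^ (n + 1) with hg
  have hterm : ∀ i ∈ Finset.range (2 * 2 ^ n),
      pm {Z | Z ∈ E ∧ val (coins Z [false] (n + 1)) = i} = g (i % 2) (i / 2) := by
    intro i hi
    rw [Finset.mem_range] at hi
    have hi2 : i < 2 ^ (n + 1) := by rw [pow_succ]; omega
    set w := bin (n + 1) i with hw
    have hwv : val w = i := val_bin _ _ hi2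
    have hwl : w.length = n + 1 := by simp [hw]
    have hwe : w = decide (i % 2 = 1) :: bin n (i / 2) := rfl
    have hv2 : val (bin n (i / 2)) = i / 2 := val_bin _ _ (by rw [pow_succ] at hi2; omega)
    -- replace the event by an independent one
    have hset : ∀ (E' : Set Oracle), (∀ Z, coins Z [false] (n + 1) = w → (Z ∈ E ↔ Z ∈ E')) →
        {Z | Z ∈ E ∧ val (coins Z [false] (n + 1)) = i}
          = {Z | Z ∈ E' ∧ coins Z [false] (n + 1) = w} := by
      intro E' hE'
      ext Z
      simp only [Set.mem_ofPred_eq]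
      constructor
      · rintro ⟨h1, h2⟩
        have : coins Z [false] (n + 1) = w := val_inj (by simp [hwl]) (by rw [h2, hwv])
        exact ⟨(hE' Z this).1 h1, this⟩
      · rintro ⟨h1, h2⟩
        exact ⟨(hE' Z h2).2 h1, by rw [h2, hwv]⟩
    have htail : ∀ Z, coins Z [false] (n + 1) = w → coins Z [false] n = bin n (i / 2) := by
      intro Z hZ
      rw [hwe, coins] at hZ
      exact (List.cons.inj hZ).2
    by_cases hodd : i % 2 = 1
    · have hwh : w.head? = some true := by rw [hwe, hodd]; rfl
      by_cases hr : 0 < i / 2 ∧ i / 2 < num b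
      · rw [hset D (fun Z hZ => by
          rw [hmem, hZ, if_pos hwh, htail Z hZ, hv2]
          exact ⟨fun h => h.2, fun h => ⟨hr, h⟩⟩)]
        rw [coins_half hDF hDdep [false] (by rintro u ⟨q, -, hq⟩; simp at hq) (n + 1) w hwl]
        simp only [hg, if_pos hodd, if_pos hr]
      · rw [hset ∅ (fun Z hZ => by
          rw [hmem, hZ, if_pos hwh, htail Z hZ, hv2]
          exact ⟨fun h => absurd h.1 hr, fun h => absurd h (by simp)⟩)]
        simp only [hg, if_pos hodd, if_neg hr, zero_div]
        have : {Z : Oracle | Z ∈ (∅ : Set Oracle) ∧ coins Z [false] (n + 1) = w} = ∅ := by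
          ext Z; simp
        rw [this, pm_empty]
    · have hwh : ¬ w.head? = some true := by rw [hwe]; simp [hodd]
      by_cases hr : 0 < i / 2 ∧ i / 2 < num c
      · rw [hset ∅ (fun Z hZ => by
          rw [hmem, hZ, if_neg hwh, htail Z hZ, hv2]
          exact ⟨fun h => absurd hr h, fun h => absurd h (by simp)⟩)]
        simp only [hg, if_neg hodd, if_pos hr, sub_self, zero_div]
        have : {Z : Oracle | Z ∈ (∅ : Set Oracle) ∧ coins Z [false] (n + 1) = w} = ∅ := by
          ext Z; simp
        rw [this, pm_empty]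
      · rw [hset Set.univ (fun Z hZ => by
          rw [hmem, hZ, if_neg hwh, htail Z hZ, hv2]
          exact ⟨fun _ => trivial, fun _ => hr⟩)]
        rw [coins_half (F := ∅) Set.finite_empty (E := Set.univ) (fun _ _ _ => by simp) [false]
          (by simp) (n + 1) w hwl, pm_univ]
        simp only [hg, if_neg hodd, if_neg hr, sub_zero]
  rw [Finset.sum_congr rfl hterm, sum_two] at hsum
  have h01 : (0 : ℕ) ≠ 1 := by norm_num
  have hval : pm E = (2 ^ n - ((num c : ℝ) - 1) + ((num b : ℝ) - 1) * pm D) / 2 ^ (n + 1) := by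
    rw [hsum]
    simp only [hg, if_true, if_neg h01]
    rw [Finset.sum_add_distrib, ← Finset.sum_div, ← Finset.sum_div, Finset.sum_sub_distrib,
      sum_count (2 ^ n) (num b) (num_pos b) hbK, sum_count (2 ^ n) (num c) (num_pos c) hcK]
    simp only [Finset.sum_const, Finset.card_range, nsmul_eq_mul, mul_one]
    push_cast
    ring
  rw [hval, hDpm]
  have hpow : (0 : ℝ) < 2 ^ (n + 1) := by positivity
  rw [div_le_div_iff₀ hpow (by norm_num : (0 : ℝ) < 2), pow_succ]
  constructor
  · rintro h ⟨-, -, -, h4⟩
    nlinarith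
  · intro h
    have h5 : ¬ ((num c : ℝ) - 1) < ((num b : ℝ) - 1) * pm {Z | pfst y ∈ Lang Q Z} :=
      fun h4 => h ⟨hv.1, hv.2.1, hv.2.2, h4⟩
    rw [not_lt] at h5
    nlinarith

end Pool.Agent.H93.RO
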