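import Pool.Agent.H93.RO.Lazy
import Pool.Agent.H93.RO.ProbG
import Mathlib.Analysis.SpecificLimits.Normed

namespace Pool.Agent.H93.RO

open MeasureTheory

/-- exponential beats polynomial -/
theorem PB.lt_pow {p : ℕ → ℕ} (hp : PB p) : ∃ l : ℕ, p l < 2 ^ l := by
  obtain ⟨c, k, h⟩ := hp.bd
  have ht := tendsto_pow_const_div_const_pow_of_one_lt k (r := 2) (by norm_num)
  have hev := (ht.eventually (gt_mem_nhds (show (0 : ℝ) < 1 / (2 * (c + 1)) by positivity))).and
    (Filter.eventually_ge_atTop 1)
  obtain ⟨m, hm, hm1⟩ := hev.exists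
  obtain ⟨l, rfl⟩ : ∃ l, m = l + 1 := ⟨m - 1, by omega⟩
  refine ⟨l, lt_of_le_of_lt (h l) ?_⟩
  rw [div_lt_div_iff₀ (by positivity) (by positivity)] at hm
  have h2 : ((c : ℝ) * ((l : ℝ) + 1) ^ k) < 2 ^ l := by
    have h3 : (0 : ℝ) < ((l : ℝ) + 1) ^ k := by positivity
    push_cast at hm
    rw [pow_succ] at hm
    nlinarith
  exact_mod_cast h2

/-- strings of length `r` with small value are not in the region -/
def GeoS (r i : ℕ) : Set Oracle :=
  {Z | ∀ j : Str, j.length = r → val j < i → Z (false :: true :: j) = false}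

theorem GeoS_dep (r i : ℕ) :
    Dep {s | ∃ j : Str, j.length = r ∧ val j < i ∧ s = false :: true :: j} (GeoS r i) := by
  intro Z Z' h
  simp only [GeoS, Set.mem_ofPred_eq]
  constructor
  · intro H j hj hv
    rw [← h _ ⟨j, hj, hv, rfl⟩]; exact H j hj hv
  · intro H j hj hv
    rw [h _ ⟨j, hj, hv, rfl⟩]; exact H j hj hv

theorem Geo_finite (r i : ℕ) :
    ({s | ∃ j : Str, j.length = r ∧ val j < i ∧ s = false :: true :: j} : Set Str).Finite := by
  refine ((List.finite_length_eq Bool r).image (fun j => false :: true :: j)).subset ?_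
  rintro s ⟨j, hj, -, rfl⟩
  exact ⟨j, hj, rfl⟩

theorem Geo_pm (r i : ℕ) (hi : i ≤ 2 ^ r) : pm (GeoS r i) = (1 / 2) ^ i := by
  induction i with
  | zero =>
    have : GeoS r 0 = Set.univ := by ext Z; simp [GeoS]
    rw [this, pm_univ, pow_zero]
  | succ i ih =>
    have hset : GeoS r (i + 1)
        = {Z | Z ∈ GeoS r i ∧ Z (false :: true :: bin r i) = false} := by
      ext Z
      simp only [GeoS, Set.mem_ofPred_eq]
      constructor
      · intro H
        refine ⟨fun j hj hv => H j hj (by omega), H _ (by simp) ?_⟩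
        rw [val_bin r i (by omega)]; omega
      · rintro ⟨H1, H2⟩ j hj hv
        rcases Nat.lt_succ_iff_lt_or_eq.1 hv with h | h
        · exact H1 j hj h
        · have : j = bin r i := val_inj (by simp [hj]) (by rw [h, val_bin r i (by omega)])
          rw [this]; exact H2
    rw [hset, half_lemma (Geo_finite r i) (GeoS_dep r i) (by
      rintro ⟨j, hj, hv, he⟩
      have : bin r i = j := by
        have := (List.cons.inj he).2
        exact (List.cons.inj this).2
      rw [← this, val_bin r i (by omega)] at hv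
      omega) (fun _ => false) (fun _ _ _ => rfl), ih (by omega), pow_succ]
    ring

theorem geo_sum (N : ℕ) : ∑ i ∈ Finset.range N, ((1 : ℝ) / 2) ^ i = 2 - 2 * (1 / 2) ^ N := by
  induction N with
  | zero => norm_num
  | succ N ih => rw [Finset.sum_range_succ, ih, pow_succ]; ring

/-- the probability that the tableau is valid -/
theorem Valid_pm {P : Prog} {x u : Str} {l T : ℕ} (hu : u.length = l)
    (hT : ∀ Z : Oracle, (run Z (fun _ => false) (start P x) T).1 = [])
    (hl : x.length + T + 2 ≤ 2 ^ l) :
    Dep {s | ∃ w, s = true :: w ∧ s.length ≤ 1 + 3 * l + KK P + 4} {Z | Valid Z u (patsP P) x} ∧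
    pm {Z | Valid Z u (patsP P) x}
      = pm {Z | AccL P x (RZ l Z) (2 ^ l - 1)} / 2 ^ (FS P l).card := by
  classical
  set n := 2 ^ l - 1 with hn
  have hp := pow_pos' l
  set F : Finset Str := (Finset.range (2 ^ l)).image (fun i => cell l 4 i 0 0) with hF
  have hRZ : ∀ Z Z' : Oracle, (∀ q ∈ (F : Set Str), Z q = Z' q) → ∀ i < 2 ^ l,
      RZ l Z i = RZ l Z' i := by
    intro Z Z' h i hi
    apply h
    simp only [hF, Finset.coe_image, Set.mem_image, Finset.coe_range, Set.mem_Iio]
    exact ⟨i, hi, rfl⟩
  have hlz : ∀ R R' : ℕ → Bool, (∀ i < 2 ^ l, R i = R' i) → ∀ t ≤ 2 ^ l,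
      lz P x R t = lz P x R' t := by
    intro R R' h t
    induction t with
    | zero => intro _; rfl
    | succ t ih =>
      intro ht
      rw [lz, lz, ih (by omega), h t (by omega)]
  have hdepAcc : Dep (F : Set Str) {Z | AccL P x (RZ l Z) n} := by
    intro Z Z' h
    simp only [Set.mem_ofPred_eq, AccL, hlz _ _ (hRZ Z Z' h) n (by omega)]
  -- the assignment depends only on the free cells
  have hsem : ∀ Z Z' : Oracle, (∀ q ∈ (F : Set Str), Z q = Z' q) → ∀ s ∈ FS P l,
      semS P x l (RZ l Z) s = semS P x l (RZ l Z') s := by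
    intro Z Z' h s hs
    obtain ⟨k, a, b, c, hf, rfl⟩ := mem_FS.1 hs
    obtain ⟨ha, hb, hc, -⟩ := hf
    rw [semS_cell P x l _ ha hb hc, semS_cell P x l _ ha hb hc]
    have hR := hRZ Z Z' h
    have hL := hlz _ _ hR
    have hq : ∀ t < 2 ^ l, qry P x (RZ l Z) t = qry P x (RZ l Z') t := by
      intro t ht; unfold qry; rw [hL t (by omega)]
    have han : ∀ t < 2 ^ l, ans P x (RZ l Z) t = ans P x (RZ l Z') t := by
      intro t ht; unfold ans; rw [hL t (by omega), hR t ht]
    have hfn : ∀ q : Str, ∀ t ≤ 2 ^ l, fnd P x (RZ l Z) q t = fnd P x (RZ l Z') q t ∧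
        vl P x (RZ l Z) q t = vl P x (RZ l Z') q t := by
      intro q t
      induction t with
      | zero => intro _; exact ⟨rfl, rfl⟩
      | succ t ih =>
        intro ht
        obtain ⟨i1, i2⟩ := ih (by omega)
        constructor
        · rw [fnd, fnd, i1, hq t (by omega)]
        · rw [vl, vl, i2, hq t (by omega), han t (by omega)]
    unfold sem
    rw [hq a ha, hq b hb, han a ha, hR a ha, hL a (by omega), (hfn _ b (by omega)).1,
      (hfn _ b (by omega)).2]
  have hval : {Z | Valid Z u (patsP P) x}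
      = {Z | Z ∈ {Z | AccL P x (RZ l Z) n} ∧ ∀ s ∈ FS P l, Z s = semS P x l (RZ l Z) s} := by
    ext Z
    simp only [Set.mem_ofPred_eq, tableau hu hT hl Z]
    tauto
  constructor
  · intro Z Z' h
    have hlen : ∀ k a b c, k < KK P + 4 → Z (cell l k a b c) = Z' (cell l k a b c) := by
      intro k a b c hk
      apply h
      refine ⟨_, rfl, ?_⟩
      simp only [cell, List.length_cons, List.length_append, bin_length, List.length_replicate]
      omega
    have h4 : ∀ q ∈ (F : Set Str), Z q = Z' q := by
      intro q hq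
      simp only [hF, Finset.coe_image, Set.mem_image, Finset.coe_range, Set.mem_Iio] at hq
      obtain ⟨i, -, rfl⟩ := hq
      exact hlen _ _ _ _ (by unfold KK; omega)
    have h5 : ∀ s ∈ FS P l, Z s = Z' s := by
      intro s hs
      obtain ⟨k, a, b, c, hf, rfl⟩ := mem_FS.1 hs
      apply hlen
      have hk := hf.2.2.2
      unfold KK
      rcases hk with h | ⟨h | h, -⟩ | ⟨h, -, -⟩ | ⟨q, hq, h, -, -⟩ | ⟨s, hs, h | h, -⟩ <;> omega
    rw [hval]
    have e1 := hdepAcc Z Z' h4
    simp only [Set.mem_ofPred_eq] at e1 ⊢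
    rw [e1]
    apply and_congr_right'
    apply forall_congr'
    intro s
    apply forall_congr'
    intro hs
    rw [h5 s hs, hsem Z Z' h4 s hs]
  · rw [hval]
    refine many_lemma F.finite_toSet hdepAcc _ (FS P l) ?_ hsem
    intro s hs hsF
    obtain ⟨k, a, b, c, hf, rfl⟩ := mem_FS.1 hs
    simp only [hF, Finset.coe_image, Set.mem_image, Finset.coe_range, Set.mem_Iio] at hsF
    obtain ⟨i, hi, he⟩ := hsF
    obtain ⟨ha, hb, hc, hk⟩ := hf
    have := (cell_inj hi hp hp ha hb hc he).1
    rcases hk with h | ⟨h | h, -⟩ | ⟨h, -, -⟩ | ⟨q, hq, h, -, -⟩ | ⟨s, hs, h | h, -⟩ <;> omega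

/-- LNP is not contained in the closure of LP under many-one reductions. -/
theorem main : ∃ A ∈ LNP, ∀ D ∈ LP, ¬ ManyOne A D := by
  classical
  obtain ⟨P0, hP0, hspec⟩ := B0_machine
  refine ⟨Lm P0, ⟨P0, hP0, rfl⟩, ?_⟩
  rintro D ⟨Q, hQdet, hQT, rfl⟩ ⟨f, hf, hred⟩
  obtain ⟨P, c, k, hPG⟩ := PG_machine hf hQdet hQT
  set toks := tokPats (patsP P) with htoks
  -- the choice of the size parameter
  set d := toks.length + 3 with hd
  have hPB : PB (fun l => (10 * l + d) + c * (10 * l + d) ^ k + (KK P + 10)) := by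
    have h1 : PB (fun l => 10 * l + d) := ((PB.const 10).mul PB.id).add (PB.const d)
    have h2 : PB (fun m => c * m ^ k) :=
      ⟨fun a b hab => Nat.mul_le_mul_left _ (Nat.pow_le_pow_left hab k), c, k,
        fun n => Nat.mul_le_mul_left _ (Nat.pow_le_pow_left (by omega) k)⟩
    exact (h1.add (h2.comp h1)).add (PB.const _)
  obtain ⟨l, hlt⟩ := hPB.lt_pow
  set M := 2 ^ l with hM
  set r := 4 * l with hr
  set u : Str := List.replicate l true with hu
  have hul : u.length = l := by simp [hu]
  set Fc := (FS P l).card with hFc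
  set s : Str := bin r (Fc + 1) with hs
  have hsl : s.length = r := by simp [hs]
  set x : Str := pr u (pr s toks) with hx
  have hxl : x.length + 1 = 10 * l + d := by
    rw [hx, pr_length, pr_length, hul, hsl, hd, hr]; ring
  set T := c * (x.length + 1) ^ k with hTdef
  have hTM : x.length + T + 2 ≤ M := by
    rw [hTdef, hxl]; omega
  have hMK : KK P + 10 ≤ M := by omega
  have hMr : 2 ^ r = M * (M * (M * M)) := by
    rw [hr, hM]; ring
  have hFcard : Fc ≤ KK P * (M * (M * M)) := card_FS P l
  have hbig : Fc + M + 2 ≤ 2 ^ r := by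
    rw [hMr]
    have h1 : (KK P + 2) * (M * (M * M)) ≤ M * (M * (M * M)) := Nat.mul_le_mul_right _ (by omega)
    have h2 : M * 1 ≤ M * (M * M) := Nat.mul_le_mul_left _ (by nlinarith)
    have h3 : (KK P + 2) * (M * (M * M)) = KK P * (M * (M * M)) + M * (M * M) + M * (M * M) := by
      ring
    omega
  have hFr : Fc + 1 < 2 ^ r := by omega
  have hsv : val s = Fc + 1 := val_bin _ _ hFr
  have hMpos : 0 < M := pow_pos' l
  have hxM : x.length < 2 ^ u.length := by rw [hul, ← hM]; omega
  have hl1 : 1 ≤ l := by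
    by_contra h0
    have : l = 0 := by omega
    have : M = 1 := by rw [hM, this]; rfl
    omega
  -- the rejection event of the hard machine
  have hbad := fun Z => hspec Z u s (patsP P) hxM
  obtain ⟨H, hH⟩ := Lang_dep hP0 x
  set Bad : Set Oracle := {Z | x ∉ Lang P0 Z} with hBad
  have hBadDep : Dep (short H) Bad := by
    intro Z Z' h
    have := hH Z Z' h
    simp only [hBad, Set.mem_ofPred_eq] at this ⊢
    exact not_congr this
  have hhalt : ∀ Z : Oracle, (run Z (fun _ => false) (start P x) T).1 = [] :=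
    fun Z => (hPG Z (fun _ => false) x).1
  obtain ⟨hVdep, hVpm⟩ := Valid_pm (P := P) (x := x) (u := u) (l := l) (T := T) hul hhalt hTM
  set p := pm {Z | AccL P x (RZ l Z) (M - 1)} with hp
  -- probability of rejection
  have hsum := pm_sum (short_finite (H + r + 2))
    (hBadDep.mono (fun q hq => by
      simp only [short, Set.mem_ofPred_eq] at hq ⊢; omega)) (2 ^ r)
    (fun Z => val (coins Z [false, false] r)) (fun Z Z' h => by
      rw [coins_congr r fun w hw => h _ (by
        simp only [short, Set.mem_ofPred_eq, List.cons_append, List.nil_append,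
          List.length_cons]; omega)]) (fun Z => by
      have := val_lt (coins Z [false, false] r)
      rwa [coins_length] at this)
  have hterm : ∀ i ∈ Finset.range (2 ^ r),
      pm {Z | Z ∈ Bad ∧ val (coins Z [false, false] r) = i}
        = ((1 / 2) ^ i + (if i = Fc + 1 then p / 2 ^ Fc - (1 / 2) ^ (Fc + 1) else 0)) / 2 ^ r := by
    intro i hi
    rw [Finset.mem_range] at hi
    have hwl : (bin r i).length = r := by simp
    have hwv : val (bin r i) = i := val_bin r i hi
    have hset : ∀ E : Set Oracle, (∀ Z, coins Z [false, false] r = bin r i →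
        (Z ∈ Bad ↔ Z ∈ E)) → {Z | Z ∈ Bad ∧ val (coins Z [false, false] r) = i}
          = {Z | Z ∈ E ∧ coins Z [false, false] r = bin r i} := by
      intro E hE
      ext Z
      simp only [Set.mem_ofPred_eq]
      constructor
      · rintro ⟨h1, h2⟩
        have : coins Z [false, false] r = bin r i := val_inj (by simp) (by rw [h2, hwv])
        exact ⟨(hE Z this).1 h1, this⟩
      · rintro ⟨h1, h2⟩
        exact ⟨(hE Z h2).2 h1, by rw [h2, hwv]⟩
    by_cases hi' : i = Fc + 1
    · rw [if_pos hi']
      have hsi : bin r i = s := by rw [hs, hi']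
      rw [hset {Z | Valid Z u (patsP P) x} (fun Z hZ => by
        have := hbad Z
        rw [hsl, if_pos (by rw [hZ, hsi])] at this
        exact this)]
      have hfin : ({q | ∃ w, q = true :: w ∧ q.length ≤ 1 + 3 * l + KK P + 4} : Set Str).Finite := by
        refine (short_finite (1 + 3 * l + KK P + 4)).subset ?_
        rintro q ⟨w, -, hq⟩
        exact hq
      rw [coins_half hfin hVdep [false, false] (by
        rintro w ⟨w', h1, -⟩
        simp at h1) r (bin r i) hwl, hVpm]
      rw [hi']
      congr 1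
      ring
    · rw [if_neg hi', add_zero]
      rw [hset (GeoS r i) (fun Z hZ => by
        have := hbad Z
        rw [hsl, if_neg (by
          rw [hZ]
          intro h
          apply hi'
          rw [← hwv, h, hsv])] at this
        rw [hZ, hwv] at this
        exact this)]
      rw [coins_half (Geo_finite r i) (GeoS_dep r i) [false, false] (by
        rintro w ⟨j, -, -, h1⟩
        simp at h1) r (bin r i) hwl, Geo_pm r i hi.le]
  rw [Finset.sum_congr rfl hterm, ← Finset.sum_div, Finset.sum_add_distrib, geo_sum,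
    Finset.sum_ite_eq', if_pos (Finset.mem_range.2 hFr)] at hsum
  -- membership of the instance
  have hLpm : pm {Z | x ∈ Lang P0 Z} = 1 - pm Bad := by
    have hm : MeasurableSet {Z | x ∈ Lang P0 Z} := Dep.meas (short_finite H) hH
    have e : Bad = {Z | x ∈ Lang P0 Z}ᶜ := rfl
    have := probReal_compl_eq_one_sub (μ := mu) hm
    rw [e]
    unfold pm
    rw [this]
    ring
  have hpR : (0 : ℝ) < 2 ^ r := by positivity
  have hr2 : 4 ≤ r := by omega
  have hnumc : num (List.replicate s.tail.length false ++ []) = 2 ^ (r - 1) := by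
    rw [List.append_nil, num_eq, List.reverse_replicate, List.length_replicate,
      List.length_tail, hsl, ← bin_zero, val_bin _ _ (by positivity)]
    simp
  have hnumb : num (List.replicate s.tail.tail.length false ++ [true]) = 2 ^ (r - 1) + 1 := by
    rw [num_eq, List.reverse_append, List.reverse_replicate, List.length_append,
      List.length_replicate, List.length_tail, List.length_tail, hsl, ← bin_zero]
    simp only [List.reverse_cons, List.reverse_nil, List.nil_append, List.cons_append, val,
      List.length_cons, List.length_nil]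
    rw [val_bin _ _ (by positivity)]
    have : r - 1 - 1 + (0 + 1) = r - 1 := by omega
    rw [this]
    simp
    ring
  have hinst : inst x ∈ Lm P0 ↔ p ≤ 1 / 2 := by
    rw [mem_Lm]
    have e2 : pfst (psnd x) = s := by simp [hx]
    have hne : (List.replicate s.tail.tail.length false ++ [true]) ≠ [] := by simp
    simp only [inst, triple, isP_pr, psnd_pr, pfst_pr, true_and, e2, hnumc, hnumb]
    rw [and_iff_right hne, hLpm, hsum]
    have h2r : (2 : ℝ) ^ r = 2 * 2 ^ (r - 1) := by
      have : r = (r - 1) + 1 := by omega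
      conv_lhs => rw [this, pow_succ]
      ring
    have hP : (0 : ℝ) < 2 ^ (r - 1) := by positivity
    set B := (2 : ℝ) ^ (r - 1) with hB
    set ε := ((1 : ℝ) / 2) ^ (2 ^ r) with hε
    set q := ((1 : ℝ) / 2) ^ Fc with hq
    have hqpos : 0 < q := by positivity
    have e1 : (1 / 2 : ℝ) ^ (Fc + 1) = q / 2 := by rw [pow_succ]; ring
    have e3 : p / 2 ^ Fc = p * q := by rw [hq, one_div, inv_pow]; rfl
    rw [e1, e3, h2r]
    have hcond : ((((2 ^ (r - 1) : ℕ) : ℝ) - 1) < (((2 ^ (r - 1) + 1 : ℕ) : ℝ) - 1) *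
        (1 - (2 - 2 * ε + (p * q - q / 2)) / (2 * B))) ↔ p * q < 2 * ε + q / 2 := by
      push_cast
      rw [← hB]
      have : (B + 1 - 1) * (1 - (2 - 2 * ε + (p * q - q / 2)) / (2 * B))
          = B - (2 - 2 * ε + (p * q - q / 2)) / 2 := by field_simp; ring
      rw [this]
      constructor
      · intro h; linarith
      · intro h; linarith
    rw [hcond]
    have hεpos : 0 < ε := by positivity
    constructor
    · intro h
      by_contra hgt
      rw [not_le] at hgt
      obtain ⟨cc, hcc⟩ := dyadic _ (lazy_dep P x l (M - 1))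
      set j := ((Finset.range (M - 1)).image (fun i => cell l 4 i 0 0)).card with hj
      have hjM : j ≤ M := by
        rw [hj]
        refine Finset.card_image_le.trans ?_
        rw [Finset.card_range]; omega
      have hpc : p = cc / 2 ^ j := hcc
      have hjpos : (0 : ℝ) < 2 ^ j := by positivity
      have h1 : 2 ^ j < 2 * cc := by
        rw [hpc, lt_div_iff₀ hjpos] at hgt
        have : ((2 ^ j : ℕ) : ℝ) < ((2 * cc : ℕ) : ℝ) := by push_cast; linarith
        exact_mod_cast this
      have h2 : (1 : ℝ) / 2 + (1 / 2) ^ (j + 1) ≤ p := by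
        have h3 : ((2 ^ j + 1 : ℕ) : ℝ) ≤ ((2 * cc : ℕ) : ℝ) := by exact_mod_cast h1
        push_cast at h3
        have h4 : ((1 : ℝ) / 2) ^ (j + 1) = 1 / (2 * 2 ^ j) := by
          rw [pow_succ, one_div_pow]; field_simp
        rw [h4, hpc, div_add_div _ _ (by norm_num) (by positivity),
          div_le_div_iff₀ (by positivity) hjpos]
        nlinarith
      -- comparison of the exponents
      have h5 : 2 * ε ≤ (1 / 2) ^ (j + 1) * q := by
        rw [hq, ← pow_add, hε]
        have h6 : ((1 : ℝ) / 2) ^ (2 ^ r) ≤ (1 / 2) ^ (j + 1 + Fc + 1) :=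
          pow_le_pow_of_le_one (by norm_num) (by norm_num) (by omega)
        have h7 : ((1 : ℝ) / 2) ^ (j + 1 + Fc + 1) = (1 / 2) ^ (j + 1 + Fc) * (1 / 2) := pow_succ _ _
        rw [h7] at h6
        linarith
      have h8 : (1 / 2 + (1 / 2) ^ (j + 1)) * q ≤ p * q := mul_le_mul_of_nonneg_right h2 hqpos.le
      have h9 : (1 / 2 + ((1 : ℝ) / 2) ^ (j + 1)) * q = q / 2 + (1 / 2) ^ (j + 1) * q := by ring
      linarith
    · intro h
      have : p * q ≤ 1 / 2 * q := mul_le_mul_of_nonneg_right h hqpos.le
      linarith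
  -- acceptance of the diagonal machine
  have hpG : p ≤ 1 / 2 ↔ f (inst x) ∉ Lm Q := by
    rw [hp, lazy_eager P x l (M - 1) (by omega), ← prob_G hQT (f (inst x))]
    have : {Z : Oracle | AccC (run Z (fun _ => false) (start P x) (M - 1))}
        = {Z | bcP (dec Z (f (inst x))) (pfst (f (inst x)) ∈ Lang Q (fun q => Z (true :: q)))
          False True} := by
      ext Z
      simp only [Set.mem_ofPred_eq, AccC]
      rw [run_halt_of_le Z _ _ (show T ≤ M - 1 by omega) (hhalt Z)]
      exact (hPG Z (fun _ => false) x).2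
    rw [this]
  have hfinal := hred (inst x)
  rw [hinst, hpG] at hfinal
  tauto

end Pool.Agent.H93.RO
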