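import Pool.Agent.H93.RO.Acc

namespace Pool.Agent.H93.RO

/-! ### More closure properties -/

theorem PT.weak {n : ℕ} {f : Oracle → List Str → Str} (hf : PT n f) :
    PT (n + 1) (fun Z v => f Z v.tail) := by
  obtain ⟨p, code, hp, hs, hc⟩ := hf
  have hsz : ∀ v : List Str, sz v.tail ≤ sz v := by
    intro v
    cases v with
    | nil => simp
    | cons w v => simp
  refine ⟨p, fun ρ o => code ρ.tail o, hp,
    fun Z v hv => (hs Z v.tail (by simp [hv])).trans (hp.mono (hsz v)), ?_⟩
  intro ρ o hρ hlt Z σ hσ
  have := hc ρ.tail o (by simp [hρ]) (fun i hi => hlt i (List.mem_of_mem_tail hi)) Z σ hσ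
  rw [List.map_tail] at this
  exact this.mono (hp.mono (hsz _))

theorem PT.fold' {n : ℕ} {l i st : Oracle → List Str → Str}
    (F : Oracle → List Str → Str → Bool → Str)
    (hl : PT n l) (hi : PT n i) (hst : PT (n + 2) st)
    (hF : ∀ Z v acc b, v.length = n → st Z ([b] :: acc :: v) = F Z v acc b)
    (c : ℕ → ℕ) (hc : PB c)
    (hb : ∀ Z v acc b, v.length = n → (F Z v acc b).length ≤ acc.length + c (sz v)) :
    PT n (fun Z v => (l Z v).foldl (F Z v) (i Z v)) := by
  obtain ⟨pl, cl, hpl, hsl, hcl⟩ := id hl
  obtain ⟨pi, ci, hpi, hsi, hci⟩ := id hi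
  have hlen : ∀ Z v, v.length = n → ∀ (w : Str) (acc : Str),
      (w.foldl (F Z v) acc).length ≤ acc.length + w.length * c (sz v) := by
    intro Z v hv w
    induction w with
    | nil => intro acc; simp
    | cons b w ih =>
      intro acc
      rw [List.foldl_cons, List.length_cons, Nat.add_mul]
      have := ih (F Z v acc b)
      have := hb Z v acc b hv
      omega
  have heq : ∀ Z v, v.length = n → ∀ (w : Str) (acc : Str),
      w.foldl (fun acc b => st Z ([b] :: acc :: v)) acc = w.foldl (F Z v) acc := by
    intro Z v hv w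
    induction w with
    | nil => intro acc; rfl
    | cons b w ih => intro acc; rw [List.foldl_cons, List.foldl_cons, hF Z v acc b hv, ih]
  refine (PT.fold hl hi hst ⟨fun m => pi m + pl m * c m, hpi.add (hpl.mul hc), ?_⟩).congr
    (fun Z v hv => heq Z v hv _ _)
  intro Z v hv w hw
  rw [heq Z v hv]
  have h1 := hlen Z v hv w (i Z v)
  have h2 := hsi Z v hv
  have h3 : w.length ≤ pl (sz v) := hw.length_le.trans (hsl Z v hv)
  have h4 := Nat.mul_le_mul_right (c (sz v)) h3
  beta_reduce
  omega

/-- `v.getD 0 []` etc. -/
theorem PT.v0 {n : ℕ} : PT (n + 1) (fun _ v => v.getD 0 []) := PT.var 0 (by omega)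
theorem PT.v1 {n : ℕ} : PT (n + 2) (fun _ v => v.getD 1 []) := PT.var 1 (by omega)

theorem foldl_push (a b : Str) : a.foldl (fun acc c => c :: acc) b = a.reverse ++ b := by
  induction a generalizing b with
  | nil => rfl
  | cons x a ih => simp [ih]

theorem PT.revApp {n : ℕ} {a b : Oracle → List Str → Str} (ha : PT n a) (hb : PT n b) :
    PT n (fun Z v => (a Z v).reverse ++ b Z v) := by
  have h := PT.fold' (st := fun _ v => bc (v.getD 0 []) [] (false :: v.getD 1 [])
      (true :: v.getD 1 []))
    (fun _ _ acc c => c :: acc) ha hb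
    (PT.case PT.v0 PT.nil (PT.cons false PT.v1) (PT.cons true PT.v1))
    (fun Z v acc b _ => by cases b <;> rfl) (fun _ => 1) (PB.const 1)
    (fun Z v acc b _ => by simp)
  exact h.congr fun Z v _ => foldl_push _ _

theorem PT.rev {n : ℕ} {a : Oracle → List Str → Str} (ha : PT n a) :
    PT n (fun Z v => (a Z v).reverse) :=
  (ha.revApp PT.nil).congr fun _ _ _ => List.append_nil _

theorem PT.app {n : ℕ} {a b : Oracle → List Str → Str} (ha : PT n a) (hb : PT n b) :
    PT n (fun Z v => a Z v ++ b Z v) :=
  (ha.rev.revApp hb).congr fun _ _ _ => by rw [List.reverse_reverse]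

theorem foldl_rep (c : Bool) (a b : Str) :
    a.foldl (fun acc _ => c :: acc) b = List.replicate a.length c ++ b := by
  induction a generalizing b with
  | nil => rfl
  | cons x a ih =>
    rw [List.foldl_cons, ih, List.length_cons, List.replicate_succ', List.append_assoc]
    rfl

theorem PT.rep {n : ℕ} (c : Bool) {a b : Oracle → List Str → Str} (ha : PT n a) (hb : PT n b) :
    PT n (fun Z v => List.replicate (a Z v).length c ++ b Z v) := by
  have h := PT.fold' (st := fun _ v => c :: v.getD 1 [])
    (fun _ _ acc _ => c :: acc) ha hb (PT.cons c PT.v1)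
    (fun Z v acc b _ => rfl) (fun _ => 1) (PB.const 1)
    (fun Z v acc b _ => by simp)
  exact h.congr fun Z v _ => foldl_rep _ _ _

theorem PT.const {n : ℕ} (w : Str) : PT n (fun _ _ => w) := by
  induction w with
  | nil => exact PT.nil
  | cons b w ih => exact PT.cons b ih

theorem PT.constApp {n : ℕ} (w : Str) {a : Oracle → List Str → Str} (ha : PT n a) :
    PT n (fun Z v => w ++ a Z v) := (PT.const w).app ha

/-! ### Pairing -/

/-- first component -/
def pfst : Str → Str
  | true :: x :: w => x :: pfst w
  | _ => []

/-- second component -/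
def psnd : Str → Str
  | true :: _ :: w => psnd w
  | false :: w => w
  | _ => []

/-- is a pair -/
def isP : Str → Bool
  | true :: _ :: w => isP w
  | false :: _ => true
  | _ => false

@[simp] theorem pr_nil (b : Str) : pr [] b = false :: b := rfl
@[simp] theorem pr_cons (c : Bool) (a b : Str) : pr (c :: a) b = true :: c :: pr a b := rfl

theorem pr_length (a b : Str) : (pr a b).length = 2 * a.length + 1 + b.length := by
  induction a with
  | nil => simp; omega
  | cons c a ih => simp only [pr_cons, List.length_cons, ih]; omega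

@[simp] theorem pfst_pr (a b : Str) : pfst (pr a b) = a := by
  induction a with
  | nil => rfl
  | cons c a ih => simp [pfst, ih]

@[simp] theorem psnd_pr (a b : Str) : psnd (pr a b) = b := by
  induction a with
  | nil => rfl
  | cons c a ih => simp [psnd, ih]

@[simp] theorem isP_pr (a b : Str) : isP (pr a b) = true := by
  induction a with
  | nil => rfl
  | cons c a ih => simp [isP, ih]

theorem pr_of_isP (w : Str) (h : isP w = true) : w = pr (pfst w) (psnd w) := by
  fun_induction isP w with
  | case1 c w ih => simp [pfst, psnd, ← ih h]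
  | case2 w => simp [pfst, psnd]
  | case3 w h1 h2 => simp at h

theorem pr_inj {a b a' b' : Str} (h : pr a b = pr a' b') : a = a' ∧ b = b' := by
  have h1 := congrArg pfst h
  have h2 := congrArg psnd h
  simp only [pfst_pr, psnd_pr] at h1 h2
  exact ⟨h1, h2⟩

theorem len_pfst_psnd (w : Str) : 2 * (pfst w).length + (psnd w).length ≤ w.length := by
  fun_induction isP w with
  | case1 c w ih => simp only [pfst, psnd, List.length_cons]; omega
  | case2 w => simp [pfst, psnd]
  | case3 w h1 h2 =>
    rcases w with _ | ⟨_ | _, _ | ⟨c, w⟩⟩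
    · simp [pfst, psnd]
    · exact absurd rfl (h2 _)
    · exact absurd rfl (h2 _)
    · simp [pfst, psnd]
    · exact absurd rfl (h1 _ _)

/-- step functions of the parser; the first two bits of the accumulator are the mode -/
def stF (acc : Str) (b : Bool) : Str :=
  bc acc [] (bc acc.tail [] (bc [b] [] (false :: true :: acc.tail.tail)
      (true :: false :: acc.tail.tail)) acc)
    (false :: false :: b :: acc.tail.tail)

def stS (acc : Str) (b : Bool) : Str :=
  bc acc [] (bc acc.tail [] (bc [b] [] (false :: true :: acc.tail.tail)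
      (true :: false :: acc.tail.tail)) (false :: true :: b :: acc.tail.tail))
    (false :: false :: acc.tail.tail)

theorem stF_done (w res : Str) : w.foldl stF (false :: true :: res) = false :: true :: res := by
  induction w with
  | nil => rfl
  | cons b w ih => rw [List.foldl_cons]; exact ih

theorem stS_done (w res : Str) :
    w.foldl stS (false :: true :: res) = false :: true :: (w.reverse ++ res) := by
  induction w generalizing res with
  | nil => rfl
  | cons b w ih =>
    rw [List.foldl_cons]
    have : stS (false :: true :: res) b = false :: true :: b :: res := rfl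
    rw [this, ih]
    simp

theorem stF_fold (w : Str) : ∀ res : Str,
    ((w.foldl stF (false :: false :: res)).tail.tail) = (pfst w).reverse ++ res := by
  fun_induction pfst w with
  | case1 x w ih =>
    intro res
    rw [List.foldl_cons, List.foldl_cons]
    have : stF (stF (false :: false :: res) true) x = false :: false :: x :: res := rfl
    rw [this, ih]
    simp
  | case2 w h =>
    intro res
    rcases w with _ | ⟨_ | _, w⟩
    · rfl
    · rw [List.foldl_cons]
      have : stF (false :: false :: res) false = false :: true :: res := rfl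
      rw [this, stF_done]
      rfl
    · rcases w with _ | ⟨c, w⟩
      · rfl
      · exact absurd rfl (h _ _)

theorem stS_fold (w : Str) : ∀ res : Str,
    ((w.foldl stS (false :: false :: res)).tail.tail) = (psnd w).reverse ++ res := by
  fun_induction psnd w with
  | case1 x w ih =>
    intro res
    rw [List.foldl_cons, List.foldl_cons]
    have : stS (stS (false :: false :: res) true) x = false :: false :: res := rfl
    rw [this, ih]
  | case2 w =>
    intro res
    rw [List.foldl_cons]
    have : stS (false :: false :: res) false = false :: true :: res := rfl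
    rw [this, stS_done]
    rfl
  | case3 w h1 h2 =>
    intro res
    rcases w with _ | ⟨_ | _, w⟩
    · rfl
    · exact absurd rfl (h2 _)
    · rcases w with _ | ⟨c, w⟩
      · rfl
      · exact absurd rfl (h1 _ _)

theorem stF_isP (w : Str) : ∀ res : Str,
    (∃ r, w.foldl stF (false :: false :: res) = false :: true :: r) ↔ isP w = true := by
  fun_induction isP w with
  | case1 x w ih =>
    intro res
    rw [List.foldl_cons, List.foldl_cons]
    have : stF (stF (false :: false :: res) true) x = false :: false :: x :: res := rfl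
    rw [this, ih]
  | case2 w =>
    intro res
    rw [List.foldl_cons]
    have : stF (false :: false :: res) false = false :: true :: res := rfl
    rw [this, stF_done]
    simp
  | case3 w h1 h2 =>
    intro res
    rcases w with _ | ⟨_ | _, w⟩
    · simp
    · exact absurd rfl (h2 _)
    · rcases w with _ | ⟨c, w⟩
      · have : List.foldl stF (false :: false :: res) [true] = true :: false :: res := rfl
        rw [this]; simp
      · exact absurd rfl (h1 _ _)

theorem PT.stF {n : ℕ} {a : Oracle → List Str → Str} (ha : PT n a) :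
    PT n (fun Z v => (a Z v).foldl stF [false, false]) := by
  refine PT.fold' (st := fun _ v => bc (v.getD 1 []) [] (bc (v.getD 1 []).tail []
      (bc (v.getD 0 []) [] (false :: true :: (v.getD 1 []).tail.tail)
        (true :: false :: (v.getD 1 []).tail.tail)) (v.getD 1 []))
      (bc (v.getD 0 []) [] (false :: false :: false :: (v.getD 1 []).tail.tail)
        (false :: false :: true :: (v.getD 1 []).tail.tail)))
    (fun _ _ acc b => RO.stF acc b) ha (PT.const _) ?_ ?_ (fun _ => 3) (PB.const 3) ?_
  · have t : PT (n + 2) (fun _ v => (v.getD 1 []).tail.tail) := PT.v1.tail.tail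
    exact PT.case PT.v1 PT.nil (PT.case PT.v1.tail PT.nil (PT.case PT.v0 PT.nil
      (PT.cons _ (PT.cons _ t)) (PT.cons _ (PT.cons _ t))) PT.v1)
      (PT.case PT.v0 PT.nil (PT.cons _ (PT.cons _ (PT.cons _ t)))
        (PT.cons _ (PT.cons _ (PT.cons _ t))))
  · intro Z v acc b _
    rcases acc with _ | ⟨_ | _, _ | ⟨_ | _, acc⟩⟩ <;> cases b <;> rfl
  · intro Z v acc b _
    rcases acc with _ | ⟨_ | _, _ | ⟨_ | _, acc⟩⟩ <;> cases b <;> simp [RO.stF]

theorem PT.stS {n : ℕ} {a : Oracle → List Str → Str} (ha : PT n a) :
    PT n (fun Z v => (a Z v).foldl stS [false, false]) := by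
  refine PT.fold' (st := fun _ v => bc (v.getD 1 []) [] (bc (v.getD 1 []).tail []
      (bc (v.getD 0 []) [] (false :: true :: (v.getD 1 []).tail.tail)
        (true :: false :: (v.getD 1 []).tail.tail))
        (bc (v.getD 0 []) [] (false :: true :: false :: (v.getD 1 []).tail.tail)
        (false :: true :: true :: (v.getD 1 []).tail.tail)))
      (false :: false :: (v.getD 1 []).tail.tail))
    (fun _ _ acc b => RO.stS acc b) ha (PT.const _) ?_ ?_ (fun _ => 3) (PB.const 3) ?_
  · have t : PT (n + 2) (fun _ v => (v.getD 1 []).tail.tail) := PT.v1.tail.tail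
    exact PT.case PT.v1 PT.nil (PT.case PT.v1.tail PT.nil (PT.case PT.v0 PT.nil
      (PT.cons _ (PT.cons _ t)) (PT.cons _ (PT.cons _ t)))
      (PT.case PT.v0 PT.nil (PT.cons _ (PT.cons _ (PT.cons _ t)))
        (PT.cons _ (PT.cons _ (PT.cons _ t))))) (PT.cons _ (PT.cons _ t))
  · intro Z v acc b _
    rcases acc with _ | ⟨_ | _, _ | ⟨_ | _, acc⟩⟩ <;> cases b <;> rfl
  · intro Z v acc b _
    rcases acc with _ | ⟨_ | _, _ | ⟨_ | _, acc⟩⟩ <;> cases b <;> simp [RO.stS]

theorem PT.fst {n : ℕ} {a : Oracle → List Str → Str} (ha : PT n a) :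
    PT n (fun Z v => pfst (a Z v)) :=
  (PT.rev ha.stF.tail.tail).congr fun Z v _ => by rw [stF_fold]; simp

theorem PT.snd {n : ℕ} {a : Oracle → List Str → Str} (ha : PT n a) :
    PT n (fun Z v => psnd (a Z v)) :=
  (PT.rev ha.stS.tail.tail).congr fun Z v _ => by rw [stS_fold]; simp

/-- `[true]` or `[false]` -/
theorem PT.isPr {n : ℕ} {a : Oracle → List Str → Str} (ha : PT n a) :
    PT n (fun Z v => [isP (a Z v)]) := by
  refine (PT.case ha.stF (PT.const [false]) (PT.case ha.stF.tail (PT.const [false])
    (PT.const [false]) (PT.const [true])) (PT.const [false])).congr fun Z v _ => ?_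
  have h := stF_isP (a Z v) []
  rcases hw : (a Z v).foldl RO.stF [false, false] with _ | ⟨_ | _, _ | ⟨_ | _, acc⟩⟩ <;>
    rw [hw] at h <;> simp at h <;> simp [h]

theorem PT.pair {n : ℕ} {a b : Oracle → List Str → Str} (ha : PT n a) (hb : PT n b) :
    PT n (fun Z v => pr (a Z v) (b Z v)) := by
  have h := PT.fold' (st := fun _ v => bc (v.getD 0 []) [] (true :: false :: v.getD 1 [])
      (true :: true :: v.getD 1 []))
    (fun _ _ acc c => true :: c :: acc) ha.rev (PT.cons false hb)
    (PT.case PT.v0 PT.nil (PT.cons _ (PT.cons _ PT.v1)) (PT.cons _ (PT.cons _ PT.v1)))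
    (fun Z v acc b _ => by cases b <;> rfl) (fun _ => 2) (PB.const 2)
    (fun Z v acc b _ => by simp)
  refine h.congr fun Z v _ => ?_
  have key : ∀ (u w : Str), u.reverse.foldl (fun acc c => true :: c :: acc) (false :: w)
      = pr u w := by
    intro u w
    induction u with
    | nil => rfl
    | cons c u ih => simp [List.foldl_append, ih]
  exact key _ _

end Pool.Agent.H93.RO
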