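import Pool.Agent.H93.RO.Num
import Mathlib.Data.Set.Finite.List

namespace Pool.Agent.H93.RO

open MeasureTheory

/-! ### Sets of oracles determined by few coordinates -/

/-- membership in `E` depends only on the values of the oracle on `F` -/
def Dep (F : Set Str) (E : Set Oracle) : Prop :=
  ∀ Z Z' : Oracle, (∀ q ∈ F, Z q = Z' q) → (Z ∈ E ↔ Z' ∈ E)

theorem Dep.mono {F F' : Set Str} {E : Set Oracle} (h : Dep F E) (hF : F ⊆ F') : Dep F' E :=
  fun Z Z' hZ => h Z Z' fun q hq => hZ q (hF hq)

theorem Dep.meas {F : Set Str} {E : Set Oracle} (hF : F.Finite) (h : Dep F E) :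
    MeasurableSet E := by
  classical
  set G := hF.toFinset with hG
  have hE : E = (G.restrict : Oracle → _) ⁻¹'
      {f : (i : G) → Bool | (fun q => if hq : q ∈ G then f ⟨q, hq⟩ else false) ∈ E} := by
    ext Z
    simp only [Set.mem_preimage, Set.mem_ofPred_eq]
    apply h
    intro q hq
    have : q ∈ G := by simpa [hG] using hq
    simp [this]
  rw [hE]
  exact (Finset.measurable_restrict G) (Set.toFinite _).measurableSet

instance : IsProbabilityMeasure mu := by unfold mu; infer_instance

/-- real valued measure -/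
noncomputable def pm (E : Set Oracle) : ℝ := mu.real E

theorem pm_univ : pm Set.univ = 1 := by unfold pm; simp

theorem pm_empty : pm ∅ = 0 := by unfold pm; simp

theorem pm_nonneg (E : Set Oracle) : 0 ≤ pm E := measureReal_nonneg

/-- flip one bit of the oracle -/
def flipO (a : Str) (Z : Oracle) : Oracle := fun q => if q = a then !Z q else Z q

theorem flipO_pres (a : Str) : MeasurePreserving (flipO a) mu mu := by
  classical
  have hf : ∀ q : Str, Measurable (fun b : Bool => if q = a then !b else b) :=
    fun q => measurable_of_finite _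
  refine ⟨measurable_pi_lambda _ fun q => (hf q).comp (measurable_pi_apply q), ?_⟩
  have h := Measure.infinitePi_map_pi (fun _ : Str => (PMF.uniformOfFintype Bool).toMeasure) hf
  unfold mu
  have e : (flipO a) = fun (x : Oracle) i => (fun b : Bool => if i = a then !b else b) (x i) := rfl
  rw [e, h]
  congr 1
  funext q
  by_cases hq : q = a
  · simp only [hq, if_true]
    have hm : Measurable (fun b : Bool => !b) := measurable_of_finite _
    ext s hs
    rw [Measure.map_apply hm hs, PMF.toMeasure_uniformOfFintype_apply _ hs,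
      PMF.toMeasure_uniformOfFintype_apply _ (hm hs)]
    congr 2
    have : Fintype.card ((fun b : Bool => !b) ⁻¹' s) = Fintype.card s := by
      apply Fintype.card_congr
      refine ⟨fun x => ⟨!x.1, x.2⟩, fun x => ⟨!x.1, by simp [x.2]⟩, fun x => ?_, fun x => ?_⟩
      · ext; simp
      · ext; simp
    exact this
  · simp only [hq, if_false]
    exact Measure.map_id

theorem half_lemma {F : Set Str} (hF : F.Finite) {E : Set Oracle} (hE : Dep F E) {a : Str}
    (ha : a ∉ F) (b : Oracle → Bool) (hb : ∀ Z Z' : Oracle, (∀ q ∈ F, Z q = Z' q) → b Z = b Z') :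
    pm {Z | Z ∈ E ∧ Z a = b Z} = pm E / 2 := by
  have hflip : ∀ Z : Oracle, ∀ q ∈ F, flipO a Z q = Z q := by
    intro Z q hq
    have : q ≠ a := fun h => ha (h ▸ hq)
    simp [flipO, this]
  have hEf : ∀ Z, flipO a Z ∈ E ↔ Z ∈ E := fun Z => hE _ _ (hflip Z)
  have hbf : ∀ Z, b (flipO a Z) = b Z := fun Z => hb _ _ (hflip Z)
  set E1 : Set Oracle := {Z | Z ∈ E ∧ Z a = b Z} with hE1
  set E2 : Set Oracle := {Z | Z ∈ E ∧ Z a = !b Z} with hE2
  have hFa : (insert a F).Finite := hF.insert a
  have hm1 : MeasurableSet E1 := by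
    apply Dep.meas hFa
    intro Z Z' h
    have h1 := hE Z Z' fun q hq => h q (Set.mem_insert_of_mem a hq)
    have h2 := hb Z Z' fun q hq => h q (Set.mem_insert_of_mem a hq)
    have h3 := h a (Set.mem_insert a F)
    simp only [hE1, Set.mem_ofPred_eq, h1, h2, h3]
  have hm2 : MeasurableSet E2 := by
    apply Dep.meas hFa
    intro Z Z' h
    have h1 := hE Z Z' fun q hq => h q (Set.mem_insert_of_mem a hq)
    have h2 := hb Z Z' fun q hq => h q (Set.mem_insert_of_mem a hq)
    have h3 := h a (Set.mem_insert a F)
    simp only [hE2, Set.mem_ofPred_eq, h1, h2, h3]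
  have hpre : flipO a ⁻¹' E1 = E2 := by
    ext Z
    simp only [hE1, hE2, Set.mem_preimage, Set.mem_ofPred_eq, hEf, hbf]
    have : flipO a Z a = !Z a := by simp [flipO]
    rw [this]
    cases Z a <;> cases b Z <;> simp
  have heq : mu.real E2 = mu.real E1 := by
    rw [← hpre]
    exact (flipO_pres a).measureReal_preimage hm1.nullMeasurableSet
  have hunion : E = E1 ∪ E2 := by
    ext Z
    simp only [hE1, hE2, Set.mem_union, Set.mem_ofPred_eq]
    cases Z a <;> cases b Z <;> simp
  have hdisj : Disjoint E1 E2 := by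
    rw [Set.disjoint_left]
    rintro Z ⟨-, h1⟩ ⟨-, h2⟩
    rw [h1] at h2
    cases h : b Z <;> rw [h] at h2 <;> simp at h2
  have hsum : mu.real E = mu.real E1 + mu.real E2 := by
    conv_lhs => rw [hunion]
    exact measureReal_union hdisj hm2
  unfold pm
  rw [hsum, heq]
  ring

/-- conditioning on many bits -/
theorem many_lemma {F : Set Str} (hF : F.Finite) {E : Set Oracle} (hE : Dep F E)
    (I : Oracle → Str → Bool) (S : Finset Str) (hS : ∀ a ∈ S, a ∉ F)
    (hI : ∀ Z Z' : Oracle, (∀ q ∈ F, Z q = Z' q) → ∀ a ∈ S, I Z a = I Z' a) :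
    pm {Z | Z ∈ E ∧ ∀ a ∈ S, Z a = I Z a} = pm E / 2 ^ S.card := by
  classical
  induction S using Finset.induction_on with
  | empty => simp
  | insert a S haS ih =>
    have ih' := ih (fun a ha => hS a (Finset.mem_insert_of_mem ha))
      (fun Z Z' h a ha => hI Z Z' h a (Finset.mem_insert_of_mem ha))
    have hE' : Dep (F ∪ ↑S) {Z | Z ∈ E ∧ ∀ a ∈ S, Z a = I Z a} := by
      intro Z Z' h
      have h1 := hE Z Z' fun q hq => h q (Or.inl hq)
      simp only [Set.mem_ofPred_eq, h1]
      apply and_congr_right'
      apply forall_congr'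
      intro q
      apply forall_congr'
      intro hq
      rw [h q (Or.inr (by simpa using hq)), hI Z Z' (fun q hq => h q (Or.inl hq)) q
        (Finset.mem_insert_of_mem hq)]
    have ha : a ∉ F ∪ ↑S := by
      rintro (h | h)
      · exact hS a (Finset.mem_insert_self a S) h
      · exact haS (by simpa using h)
    have := half_lemma (hF.union S.finite_toSet) hE' ha (fun Z => I Z a) (fun Z Z' h =>
      hI Z Z' (fun q hq => h q (Or.inl hq)) a (Finset.mem_insert_self a S))
    rw [ih'] at this
    rw [Finset.card_insert_of_notMem haS, pow_succ, ← div_div, ← this]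
    congr 1
    ext Z
    simp only [Set.mem_ofPred_eq, Finset.mem_insert, forall_eq_or_imp]
    tauto

theorem dyadic {E : Set Oracle} (F : Finset Str) (hE : Dep ↑F E) :
    ∃ c : ℕ, pm E = c / 2 ^ F.card := by
  classical
  induction F using Finset.induction_on generalizing E with
  | empty =>
    have h : ∀ Z Z' : Oracle, (Z ∈ E ↔ Z' ∈ E) := fun Z Z' => hE Z Z' (by simp)
    by_cases h0 : (fun _ => false) ∈ E
    · have : E = Set.univ := by
        ext Z; simp only [Set.mem_univ, iff_true]; exact (h _ Z).1 h0
      exact ⟨1, by rw [this, pm_univ]; simp⟩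
    · have : E = ∅ := by
        ext Z; simp only [Set.mem_empty_iff_false, iff_false]; exact fun hZ => h0 ((h _ Z).2 hZ)
      exact ⟨0, by rw [this, pm_empty]; simp⟩
  | insert a F haF ih =>
    have hdep : ∀ b, Dep ↑F {Z : Oracle | Function.update Z a b ∈ E} := by
      intro b Z Z' h
      apply hE
      intro q hq
      rcases eq_or_ne q a with rfl | hqa
      · simp
      · rw [Function.update_of_ne hqa, Function.update_of_ne hqa]
        apply h
        have : q ∈ insert a F := by simpa using hq
        rcases Finset.mem_insert.1 this with h | h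
        · exact absurd h hqa
        · simpa using h
    obtain ⟨c0, h0⟩ := ih (hdep false)
    obtain ⟨c1, h1⟩ := ih (hdep true)
    have haF' : a ∉ (↑F : Set Str) := by simpa using haF
    have e0 := half_lemma F.finite_toSet (hdep false) haF' (fun _ => false) (fun _ _ _ => rfl)
    have e1 := half_lemma F.finite_toSet (hdep true) haF' (fun _ => true) (fun _ _ _ => rfl)
    have hset : ∀ b, {Z : Oracle | Z ∈ {Z : Oracle | Function.update Z a b ∈ E} ∧ Z a = b}
        = {Z | Z ∈ E ∧ Z a = b} := by
      intro b
      ext Z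
      simp only [Set.mem_ofPred_eq]
      apply and_congr_left
      intro hb
      rw [← hb, Function.update_eq_self]
    rw [hset] at e0 e1
    have hm : ∀ b, MeasurableSet {Z : Oracle | Z ∈ E ∧ Z a = b} := by
      intro b
      apply Dep.meas (insert a F).finite_toSet
      intro Z Z' h
      have h1 := hE Z Z' h
      have h2 := h a (by simp)
      simp only [Set.mem_ofPred_eq, h1, h2]
    have hsum : pm E = pm {Z | Z ∈ E ∧ Z a = false} + pm {Z | Z ∈ E ∧ Z a = true} := by
      unfold pm
      rw [← measureReal_union _ (hm true)]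
      · congr 1
        ext Z
        simp only [Set.mem_union, Set.mem_ofPred_eq]
        cases Z a <;> simp
      · rw [Set.disjoint_left]
        rintro Z ⟨-, h1⟩ ⟨-, h2⟩
        rw [h1] at h2
        simp at h2
    refine ⟨c0 + c1, ?_⟩
    rw [hsum, e0, e1, h0, h1, Finset.card_insert_of_notMem haF, pow_succ]
    push_cast
    field_simp

/-- sum over a finite partition -/
theorem pm_sum {F : Set Str} (hF : F.Finite) {E : Set Oracle} (hE : Dep F E) (N : ℕ)
    (f : Oracle → ℕ) (hf : ∀ Z Z' : Oracle, (∀ q ∈ F, Z q = Z' q) → f Z = f Z')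
    (hN : ∀ Z, f Z < N) :
    pm E = ∑ i ∈ Finset.range N, pm {Z | Z ∈ E ∧ f Z = i} := by
  have hm : ∀ i, MeasurableSet {Z | Z ∈ E ∧ f Z = i} := by
    intro i
    apply Dep.meas hF
    intro Z Z' h
    simp only [Set.mem_ofPred_eq, hE Z Z' h, hf Z Z' h]
  have hU : E = ⋃ i ∈ Finset.range N, {Z | Z ∈ E ∧ f Z = i} := by
    ext Z
    simp only [Finset.mem_range, Set.mem_iUnion, Set.mem_ofPred_eq, exists_prop]
    constructor
    · intro h; exact ⟨f Z, hN Z, h, rfl⟩
    · rintro ⟨i, -, h, -⟩; exact h
  unfold pm
  conv_lhs => rw [hU]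
  rw [measureReal_biUnion_finset _ (fun i _ => hm i)]
  intro i _ j _ hij
  rw [Function.onFun, Set.disjoint_left]
  rintro Z ⟨-, h1⟩ ⟨-, h2⟩
  exact hij (h1.symm.trans h2)

/-! ### Coins -/

theorem coins_congr {Z Z' : Oracle} {pre : Str} (n : ℕ)
    (h : ∀ u : Str, u.length < n → Z (pre ++ u) = Z' (pre ++ u)) :
    coins Z pre n = coins Z' pre n := by
  induction n with
  | zero => rfl
  | succ n ih =>
    have h1 := ih fun u hu => h u (by omega)
    rw [coins, coins, h1, h _ (by simp)]

theorem coins_half {F : Set Str} (hF : F.Finite) {E : Set Oracle} (hE : Dep F E) (pre : Str)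
    (hpre : ∀ u : Str, pre ++ u ∉ F) (n : ℕ) (w : Str) (hw : w.length = n) :
    pm {Z | Z ∈ E ∧ coins Z pre n = w} = pm E / 2 ^ n := by
  induction n generalizing w with
  | zero =>
    have : w = [] := List.eq_nil_of_length_eq_zero hw
    subst this
    simp [coins]
  | succ n ih =>
    rcases w with _ | ⟨b, w⟩
    · simp at hw
    have hw' : w.length = n := by simpa using hw
    have ih' := ih w hw'
    set G : Set Str := {q | ∃ u : Str, u.length < n ∧ q = pre ++ u} with hG
    have hGf : G.Finite := by
      have : ({u : Str | u.length < n} : Set Str).Finite := List.finite_length_lt Bool n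
      refine (this.image (fun u => pre ++ u)).subset ?_
      rintro q ⟨u, hu, rfl⟩
      exact ⟨u, hu, rfl⟩
    have hE' : Dep (F ∪ G) {Z | Z ∈ E ∧ coins Z pre n = w} := by
      intro Z Z' h
      have h1 := hE Z Z' fun q hq => h q (Or.inl hq)
      have h2 : coins Z pre n = coins Z' pre n :=
        coins_congr n fun u hu => h _ (Or.inr ⟨u, hu, rfl⟩)
      simp only [Set.mem_ofPred_eq, h1, h2]
    have ha : pre ++ w ∉ F ∪ G := by
      rintro (h | ⟨u, hu, h⟩)
      · exact hpre w h
      · have := List.append_cancel_left h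
        subst this
        omega
    have := half_lemma (hF.union hGf) hE' ha (fun _ => b) (fun _ _ _ => rfl)
    rw [ih'] at this
    rw [pow_succ, ← div_div, ← this]
    congr 1
    ext Z
    simp only [Set.mem_ofPred_eq, coins, List.cons.injEq]
    constructor
    · rintro ⟨h1, h2, h3⟩
      exact ⟨⟨h1, h3⟩, by rw [← h3]; exact h2⟩
    · rintro ⟨⟨h1, h3⟩, h2⟩
      exact ⟨h1, by rw [h3]; exact h2, h3⟩

/-! ### Reading a part of the oracle -/

theorem sub_pres (b : Bool) :
    MeasurePreserving (fun (Z : Oracle) (q : Str) => Z (b :: q)) mu mu := by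
  classical
  have hmeas : Measurable (fun (Z : Oracle) (q : Str) => Z (b :: q)) :=
    measurable_pi_lambda _ fun q => measurable_pi_apply _
  refine ⟨hmeas, ?_⟩
  unfold mu
  refine Measure.eq_infinitePi _ fun s t ht => ?_
  rw [Measure.map_apply hmeas (.pi s.countable_toSet fun _ _ => ht _)]
  have hinj : Function.Injective (fun q : Str => b :: q) := fun x y h => by simpa using h
  have : (fun (Z : Oracle) (q : Str) => Z (b :: q)) ⁻¹' ((s : Set Str).pi t)
      = ((s.map ⟨_, hinj⟩ : Finset Str) : Set Str).pi (fun q => t q.tail) := by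
    ext Z
    simp
  rw [this, Measure.infinitePi_pi _ (fun q _ => ht _), Finset.prod_map]
  rfl

theorem pm_sub (b : Bool) {E : Set Oracle} (hE : MeasurableSet E) :
    pm {Z : Oracle | (fun q => Z (b :: q)) ∈ E} = pm E :=
  (sub_pres b).measureReal_preimage hE.nullMeasurableSet

end Pool.Agent.H93.RO
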