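import Pool.Agent.H93.RO.TabC
import Pool.Agent.H93.RO.Meas

namespace Pool.Agent.H93.RO

open MeasureTheory

/-- a configuration with the bit 1 on top of stack 1 -/
def AccC (c : Cfg) : Prop := ∃ w, c.2 1 = true :: w

open Classical in
/-- probability of acceptance after `n` more steps, given the history -/
noncomputable def vf : ℕ → Cfg → List (Str × Bool) → ℝ
  | 0, c, _ => if AccC c then 1 else 0
  | n + 1, c, h => match h.lookup (asked c) with
    | some a => vf n (stepA a false c) ((asked c, a) :: h)
    | none => (vf n (stepA false false c) ((asked c, false) :: h) +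
        vf n (stepA true false c) ((asked c, true) :: h)) / 2

/-- oracles consistent with a history -/
def Cons (h : List (Str × Bool)) : Set Oracle := {Z | ∀ q a, h.lookup q = some a → Z q = a}

theorem split_pm (E : Set Oracle) (a : Str) :
    pm E = pm {Z | Z ∈ E ∧ Z a = false} + pm {Z | Z ∈ E ∧ Z a = true} := by
  have hm : MeasurableSet {Z : Oracle | Z a = false} := by
    apply Dep.meas (Set.finite_singleton a)
    intro Z Z' h
    simp only [Set.mem_ofPred_eq, h a rfl]
  unfold pm
  rw [← measureReal_inter_add_sdiff (s := E) hm]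
  congr 2
  ext Z
  simp only [Set.mem_sdiff, Set.mem_ofPred_eq]
  cases Z a <;> simp

theorem Cons_dep (h : List (Str × Bool)) : Dep {q | h.lookup q ≠ none} (Cons h) := by
  intro Z Z' hZ
  have key : ∀ Z Z' : Oracle, (∀ q ∈ {q | h.lookup q ≠ none}, Z q = Z' q) → Z ∈ Cons h →
      Z' ∈ Cons h := by
    intro Z Z' hZ hc q a hq
    rw [← hZ q (by rw [Set.mem_ofPred_eq, hq]; exact Option.some_ne_none a)]
    exact hc q a hq
  exact ⟨key Z Z' hZ, key Z' Z fun q hq => (hZ q hq).symm⟩

theorem lookup_finite (h : List (Str × Bool)) : ({q | h.lookup q ≠ none} : Set Str).Finite := by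
  induction h with
  | nil => simp
  | cons p h ih =>
    obtain ⟨q0, a⟩ := p
    refine (ih.insert q0).subset ?_
    intro q hq
    simp only [Set.mem_ofPred_eq, List.lookup_cons] at hq
    by_cases he : (q == q0) = true
    · left; simpa using he
    · right
      rw [Bool.not_eq_true] at he
      rw [he] at hq
      exact hq

theorem Cons_some {h : List (Str × Bool)} {q : Str} {a : Bool} (hq : h.lookup q = some a) :
    Cons ((q, a) :: h) = Cons h := by
  ext Z
  simp only [Cons, Set.mem_ofPred_eq, List.lookup_cons]
  constructor
  · intro H q' a' h'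
    apply H q' a'
    by_cases he : (q' == q) = true
    · rw [he]
      have : q' = q := by simpa using he
      subst this
      rw [hq] at h'
      exact h'
    · rw [Bool.not_eq_true] at he; rw [he]; exact h'
  · intro H q' a' h'
    by_cases he : (q' == q) = true
    · rw [he] at h'
      have : q' = q := by simpa using he
      subst this
      have : a = a' := by simpa using h'
      subst this
      exact H _ _ hq
    · rw [Bool.not_eq_true] at he; rw [he] at h'; exact H _ _ h'

theorem Cons_none {h : List (Str × Bool)} {q : Str} (hq : h.lookup q = none) (a : Bool) :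
    Cons ((q, a) :: h) = {Z | Z ∈ Cons h ∧ Z q = a} := by
  ext Z
  simp only [Cons, Set.mem_ofPred_eq, List.lookup_cons]
  constructor
  · intro H
    constructor
    · intro q' a' h'
      apply H q' a'
      by_cases he : (q' == q) = true
      · have : q' = q := by simpa using he
        subst this
        rw [hq] at h'
        simp at h'
      · rw [Bool.not_eq_true] at he; rw [he]; exact h'
    · exact H q a (by simp)
  · rintro ⟨H, hqa⟩ q' a' h'
    by_cases he : (q' == q) = true
    · rw [he] at h'
      have : q' = q := by simpa using he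
      subst this
      have : a = a' := by simpa using h'
      subst this
      exact hqa
    · rw [Bool.not_eq_true] at he; rw [he] at h'; exact H _ _ h'

theorem Cons_half {h : List (Str × Bool)} {q : Str} (hq : h.lookup q = none) (a : Bool) :
    pm (Cons ((q, a) :: h)) = pm (Cons h) / 2 := by
  rw [Cons_none hq]
  exact half_lemma (lookup_finite h) (Cons_dep h)
    (by rw [Set.mem_ofPred_eq, hq]; exact fun h => h rfl) (fun _ => a) (fun _ _ _ => rfl)

/-- the eager run -/
theorem eager (n : ℕ) : ∀ (c : Cfg) (h : List (Str × Bool)),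
    pm {Z | Z ∈ Cons h ∧ AccC (run Z (fun _ => false) c n)} = pm (Cons h) * vf n c h := by
  induction n with
  | zero =>
    intro c h
    simp only [run_zero, vf]
    by_cases hc : AccC c
    · rw [if_pos hc, mul_one]
      congr 1
      ext Z
      simp [hc]
    · rw [if_neg hc, mul_zero]
      have : {Z | Z ∈ Cons h ∧ AccC c} = (∅ : Set Oracle) := by ext Z; simp [hc]
      rw [this, pm_empty]
  | succ n ih =>
    intro c h
    have hrun : ∀ Z : Oracle, run Z (fun _ => false) c (n + 1)
        = run Z (fun _ => false) (stepA (Z (asked c)) false c) n := by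
      intro Z
      rw [run_succ', step_eq]
    rcases hq : h.lookup (asked c) with _ | a
    · have e : vf (n + 1) c h = (vf n (stepA false false c) ((asked c, false) :: h) +
        vf n (stepA true false c) ((asked c, true) :: h)) / 2 := by
        simp only [vf, hq]
      rw [e, split_pm _ (asked c)]
      have key : ∀ b : Bool, {Z | Z ∈ {Z | Z ∈ Cons h ∧ AccC (run Z (fun _ => false) c (n + 1))} ∧
          Z (asked c) = b} = {Z | Z ∈ Cons ((asked c, b) :: h) ∧
            AccC (run Z (fun _ => false) (stepA b false c) n)} := by
        intro b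
        ext Z
        rw [Cons_none hq]
        simp only [Set.mem_ofPred_eq, hrun]
        constructor
        · rintro ⟨⟨h1, h2⟩, h3⟩
          rw [h3] at h2
          exact ⟨⟨h1, h3⟩, h2⟩
        · rintro ⟨⟨h1, h3⟩, h2⟩
          rw [h3]
          exact ⟨⟨h1, h2⟩, rfl⟩
      rw [key, key, ih, ih, Cons_half hq, Cons_half hq]
      ring
    · have e : vf (n + 1) c h = vf n (stepA a false c) ((asked c, a) :: h) := by
        simp only [vf, hq]
      rw [e, ← Cons_some hq, ← ih]
      congr 1
      ext Z
      simp only [Set.mem_ofPred_eq, hrun]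
      constructor
      · rintro ⟨h1, h2⟩
        have : Z (asked c) = a := h1 _ _ (by simp)
        rw [this] at h2
        exact ⟨h1, h2⟩
      · rintro ⟨h1, h2⟩
        have : Z (asked c) = a := h1 _ _ (by simp)
        rw [this]
        exact ⟨h1, h2⟩

/-- the lazy run, from an arbitrary configuration -/
def lzr (R : ℕ → Bool) : ℕ → Cfg → List (Str × Bool) → ℕ → Cfg
  | _, c, _, 0 => c
  | t, c, h, n + 1 => lzr R (t + 1) (stepA (ansOf c h (R t)) false c)
      ((asked c, ansOf c h (R t)) :: h) n

theorem lzr_congr {R R' : ℕ → Bool} (n : ℕ) : ∀ (t : ℕ) (c : Cfg) (h : List (Str × Bool)),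
    (∀ i, t ≤ i → i < t + n → R i = R' i) → lzr R t c h n = lzr R' t c h n := by
  induction n with
  | zero => intros; rfl
  | succ n ih =>
    intro t c h hR
    rw [lzr, lzr, hR t le_rfl (by omega)]
    exact ih _ _ _ fun i h1 h2 => hR i (by omega) (by omega)

theorem lzr_lz (P : Prog) (x : Str) (R : ℕ → Bool) (n t : ℕ) :
    lzr R t (lz P x R t).1 (lz P x R t).2 n = (lz P x R (t + n)).1 := by
  induction n generalizing t with
  | zero => rfl
  | succ n ih =>
    have := ih (t + 1)
    rw [show t + 1 + n = t + (n + 1) by ring] at this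
    rw [← this]
    rfl

theorem lazy_vf (l n : ℕ) : ∀ (t : ℕ) (c : Cfg) (h : List (Str × Bool)), t + n ≤ 2 ^ l →
    pm {Z | AccC (lzr (RZ l Z) t c h n)} = vf n c h := by
  induction n with
  | zero =>
    intro t c h _
    simp only [lzr, vf]
    by_cases hc : AccC c
    · rw [if_pos hc]
      have : {Z : Oracle | AccC c} = Set.univ := by ext Z; simp [hc]
      rw [this, pm_univ]
    · rw [if_neg hc]
      have : {Z : Oracle | AccC c} = ∅ := by ext Z; simp [hc]
      rw [this, pm_empty]
  | succ n ih =>
    intro t c h ht
    rcases hq : h.lookup (asked c) with _ | a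
    · have e : vf (n + 1) c h = (vf n (stepA false false c) ((asked c, false) :: h) +
        vf n (stepA true false c) ((asked c, true) :: h)) / 2 := by
        simp only [vf, hq]
      rw [e, split_pm _ (cell l 4 t 0 0)]
      have hp := pow_pos' l
      have key : ∀ b : Bool,
          pm {Z | Z ∈ {Z | AccC (lzr (RZ l Z) t c h (n + 1))} ∧ Z (cell l 4 t 0 0) = b}
            = vf n (stepA b false c) ((asked c, b) :: h) / 2 := by
        intro b
        rw [← ih (t + 1) (stepA b false c) ((asked c, b) :: h) (by omega)]
        set F : Set Str := {s | ∃ i, t + 1 ≤ i ∧ i < t + 1 + n ∧ s = cell l 4 i 0 0} with hF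
        have hFf : F.Finite := by
          refine ((Finset.range (t + 1 + n)).finite_toSet.image (fun i => cell l 4 i 0 0)).subset ?_
          rintro s ⟨i, _, h2, rfl⟩
          exact ⟨i, by simpa using h2, rfl⟩
        have hdep : Dep F {Z | AccC (lzr (RZ l Z) (t + 1) (stepA b false c)
            ((asked c, b) :: h) n)} := by
          intro Z Z' hZ
          have := lzr_congr (R := RZ l Z) (R' := RZ l Z') n (t + 1) (stepA b false c)
            ((asked c, b) :: h) (fun i h1 h2 => hZ _ ⟨i, h1, h2, rfl⟩)
          simp only [Set.mem_ofPred_eq, this]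
        have hnot : cell l 4 t 0 0 ∉ F := by
          rintro ⟨i, h1, h2, h3⟩
          have := (cell_inj (l := l) (by omega) hp hp (by omega) hp hp h3).2.1
          omega
        rw [← half_lemma hFf hdep hnot (fun _ => b) (fun _ _ _ => rfl)]
        congr 1
        ext Z
        simp only [Set.mem_ofPred_eq]
        have ha : ansOf c h (RZ l Z t) = Z (cell l 4 t 0 0) := by
          unfold ansOf RZ
          rw [hq]; rfl
        constructor
        · rintro ⟨h1, h2⟩
          rw [lzr, ha, h2] at h1
          exact ⟨h1, h2⟩
        · rintro ⟨h1, h2⟩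
          rw [lzr, ha, h2]
          exact ⟨h1, rfl⟩
      rw [key, key]
      ring
    · have e : vf (n + 1) c h = vf n (stepA a false c) ((asked c, a) :: h) := by
        simp only [vf, hq]
      rw [e, ← ih (t + 1) _ _ (by omega)]
      have ha : ∀ r, ansOf c h r = a := by
        intro r; unfold ansOf; rw [hq]; rfl
      simp only [lzr, ha]

/-- the eager and the lazy run accept with the same probability -/
theorem lazy_eager (P : Prog) (x : Str) (l n : ℕ) (hn : n ≤ 2 ^ l) :
    pm {Z | AccL P x (RZ l Z) n} = pm {Z | AccC (run Z (fun _ => false) (start P x) n)} := by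
  have h1 := eager n (start P x) []
  have h2 := lazy_vf l n 0 (start P x) [] (by omega)
  have hc : Cons [] = Set.univ := by ext Z; simp [Cons]
  rw [hc, pm_univ, one_mul] at h1
  simp only [Set.mem_univ, true_and] at h1
  rw [h1, ← h2]
  congr 1
  ext Z
  have := lzr_lz P x (RZ l Z) n 0
  rw [Nat.zero_add] at this
  have e : lzr (RZ l Z) 0 (start P x) [] n = (lz P x (RZ l Z) n).1 := this
  simp only [Set.mem_ofPred_eq, e]
  rfl

/-- the lazy acceptance probability is a multiple of a small power of two -/
theorem lazy_dep (P : Prog) (x : Str) (l n : ℕ) :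
    Dep ((Finset.range n).image (fun i => cell l 4 i 0 0) : Finset Str)
      {Z | AccL P x (RZ l Z) n} := by
  intro Z Z' hZ
  have h := lzr_congr (R := RZ l Z) (R' := RZ l Z') n 0 (start P x) [] (fun i _ h2 =>
    hZ _ (by
      simp only [Finset.coe_image, Set.mem_image, Finset.coe_range, Set.mem_Iio]
      exact ⟨i, by omega, rfl⟩))
  have e1 := lzr_lz P x (RZ l Z) n 0
  have e2 := lzr_lz P x (RZ l Z') n 0
  rw [Nat.zero_add] at e1 e2
  have : (lz P x (RZ l Z) n).1 = (lz P x (RZ l Z') n).1 := by
    rw [← e1, ← e2]; exact h
  simp only [AccL, Set.mem_ofPred_eq, this]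

end Pool.Agent.H93.RO
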