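import Pool.Agent.H93.RO.Fun

namespace Pool.Agent.H93.RO

/-! ### Binary numbers, least significant bit first -/

/-- value of a string -/
def val : Str → ℕ
  | [] => 0
  | b :: w => b.toNat + 2 * val w

/-- string of length `l` with value `n` (modulo `2 ^ l`) -/
def bin : ℕ → ℕ → Str
  | 0, _ => []
  | l + 1, n => decide (n % 2 = 1) :: bin l (n / 2)

@[simp] theorem bin_length (l n : ℕ) : (bin l n).length = l := by
  induction l generalizing n with
  | zero => rfl
  | succ l ih => simp [bin, ih]

theorem val_lt (w : Str) : val w < 2 ^ w.length := by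
  induction w with
  | nil => simp [val]
  | cons b w ih =>
    simp only [val, List.length_cons, pow_succ]
    have : b.toNat ≤ 1 := Bool.toNat_le b
    omega

theorem val_bin (l : ℕ) : ∀ n, n < 2 ^ l → val (bin l n) = n := by
  induction l with
  | zero => intro n hn; simp only [pow_zero] at hn; simp [bin, val]; omega
  | succ l ih =>
    intro n hn
    rw [pow_succ] at hn
    simp only [bin, val]
    rw [ih (n / 2) (by omega)]
    by_cases h : n % 2 = 1
    · simp only [h, decide_true, Bool.toNat_true]; omega
    · simp only [h, decide_false, Bool.toNat_false]; omega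

theorem bin_val (w : Str) : bin w.length (val w) = w := by
  induction w with
  | nil => rfl
  | cons b w ih =>
    simp only [List.length_cons, bin, val]
    cases b
    · have h1 : (false.toNat + 2 * val w) % 2 = 0 := by simp
      have h2 : (false.toNat + 2 * val w) / 2 = val w := by simp
      rw [h1, h2, ih]; simp
    · have h1 : (true.toNat + 2 * val w) % 2 = 1 := by simp [Nat.add_mod]
      have h2 : (true.toNat + 2 * val w) / 2 = val w := by simp; omega
      rw [h1, h2, ih]; simp

theorem val_inj {w w' : Str} (hl : w.length = w'.length) (h : val w = val w') : w = w' := by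
  rw [← bin_val w, ← bin_val w', hl, h]

theorem bin_inj {l n m : ℕ} (hn : n < 2 ^ l) (hm : m < 2 ^ l) (h : bin l n = bin l m) :
    n = m := by
  rw [← val_bin l n hn, ← val_bin l m hm, h]

theorem bin_zero (l : ℕ) : bin l 0 = List.replicate l false := by
  induction l with
  | zero => rfl
  | succ l ih => simp [bin, ih, List.replicate_succ]

theorem val_append (u w : Str) : val (u ++ w) = val u + 2 ^ u.length * val w := by
  induction u with
  | nil => simp [val]
  | cons b u ih => simp only [List.cons_append, val, ih, List.length_cons, pow_succ]; ring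

theorem val_replicate_true (l : ℕ) : val (List.replicate l true) = 2 ^ l - 1 := by
  induction l with
  | zero => rfl
  | succ l ih =>
    simp only [List.replicate_succ, val, ih, Bool.toNat_true, pow_succ]
    have : 1 ≤ 2 ^ l := Nat.one_le_two_pow
    omega

theorem bin_max (l : ℕ) : bin l (2 ^ l - 1) = List.replicate l true := by
  apply val_inj (by simp)
  rw [val_bin _ _ (by have : 1 ≤ 2 ^ l := Nat.one_le_two_pow; omega), val_replicate_true]

/-! ### Increment -/

/-- the first bit of the accumulator is the carry -/
def stI (acc : Str) (b : Bool) : Str :=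
  bc acc [] (bc [b] [] (false :: false :: acc.tail) (false :: true :: acc.tail))
    (bc [b] [] (false :: true :: acc.tail) (true :: false :: acc.tail))

theorem stI_fold (w : Str) : ∀ (c : Bool) (r : Str), ∃ (c' : Bool) (r' : Str),
    w.foldl stI (c :: r) = c' :: (r' ++ r) ∧ r'.length = w.length ∧
    val r'.reverse + 2 ^ w.length * c'.toNat = val w + c.toNat := by
  induction w with
  | nil => intro c r; exact ⟨c, [], rfl, rfl, by simp [val]⟩
  | cons b w ih =>
    intro c r
    have h : stI (c :: r) b = (b && c) :: (xor b c) :: r := by cases b <;> cases c <;> rfl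
    obtain ⟨c', r', h1, h2, h3⟩ := ih (b && c) (xor b c :: r)
    refine ⟨c', r' ++ [xor b c], ?_, by simp [h2], ?_⟩
    · rw [List.foldl_cons, h, h1]; simp
    · rw [List.reverse_append, List.length_cons, pow_succ]
      simp only [List.reverse_cons, List.reverse_nil, List.nil_append, List.cons_append, val]
      have e : b.toNat + c.toNat = (xor b c).toNat + 2 * (b && c).toNat := by
        cases b <;> cases c <;> rfl
      rw [mul_comm (2 ^ w.length) 2, mul_assoc]
      omega

/-- increment with carry: the first bit is the carry, then the result in reverse order -/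
def incR (w : Str) : Str := w.foldl stI [true]

theorem incR_lt {l n : ℕ} (h : n + 1 < 2 ^ l) : incR (bin l n) = false :: (bin l (n + 1)).reverse := by
  obtain ⟨c', r', h1, h2, h3⟩ := stI_fold (bin l n) true []
  rw [bin_length, val_bin l n (by omega)] at h3
  rw [bin_length] at h2
  have h4 := val_lt r'.reverse
  rw [List.length_reverse, h2] at h4
  have hc : c' = false := by
    cases c'
    · rfl
    · simp only [Bool.toNat_true] at h3; omega
  subst hc
  have h5 : r'.reverse = bin l (n + 1) := by
    apply val_inj (by simp [h2])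
    rw [val_bin l _ h]
    simpa using h3
  rw [incR, h1, List.append_nil, ← h5, List.reverse_reverse]

theorem incR_max (l : ℕ) : ∃ r, incR (bin l (2 ^ l - 1)) = true :: r := by
  have hp : 1 ≤ 2 ^ l := Nat.one_le_two_pow
  obtain ⟨c', r', h1, h2, h3⟩ := stI_fold (bin l (2 ^ l - 1)) true []
  rw [bin_length, val_bin l _ (by omega)] at h3
  rw [bin_length] at h2
  have h4 := val_lt r'.reverse
  rw [List.length_reverse, h2] at h4
  have hc : c' = true := by
    cases c'
    · simp only [Bool.toNat_true, Bool.toNat_false] at h3; omega
    · rfl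
  subst hc
  exact ⟨r' ++ [], h1⟩

theorem PT.incR {n : ℕ} {a : Oracle → List Str → Str} (ha : PT n a) :
    PT n (fun Z v => incR (a Z v)) := by
  refine PT.fold' (st := fun _ v => bc (v.getD 1 []) []
      (bc (v.getD 0 []) [] (false :: false :: (v.getD 1 []).tail)
        (false :: true :: (v.getD 1 []).tail))
      (bc (v.getD 0 []) [] (false :: true :: (v.getD 1 []).tail)
        (true :: false :: (v.getD 1 []).tail)))
    (fun _ _ acc b => stI acc b) ha (PT.const _) ?_ ?_ (fun _ => 2) (PB.const 2) ?_
  · have t : PT (n + 2) (fun _ v => (v.getD 1 []).tail) := PT.v1.tail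
    exact PT.case PT.v1 PT.nil
      (PT.case PT.v0 PT.nil (PT.cons _ (PT.cons _ t)) (PT.cons _ (PT.cons _ t)))
      (PT.case PT.v0 PT.nil (PT.cons _ (PT.cons _ t)) (PT.cons _ (PT.cons _ t)))
  · intro Z v acc b _
    rcases acc with _ | ⟨_ | _, acc⟩ <;> cases b <;> rfl
  · intro Z v acc b _
    rcases acc with _ | ⟨_ | _, acc⟩ <;> cases b <;> simp [stI]

/-! ### Comparison -/

/-- the accumulator is the current answer followed by the rest of the second number -/
def stL (acc : Str) (x : Bool) : Str :=
  bc acc [] (bc acc.tail [false] (bc [x] [] (false :: acc.tail.tail) (false :: acc.tail.tail))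
      (bc [x] [] (true :: acc.tail.tail) (false :: acc.tail.tail)))
    (bc acc.tail (bc [x] [] [true] [false])
      (bc [x] [] (true :: acc.tail.tail) (false :: acc.tail.tail))
      (bc [x] [] (true :: acc.tail.tail) (true :: acc.tail.tail)))

theorem stL_fold (a : Str) : ∀ (c : Bool) (b : Str), b.length ≤ a.length → ∃ r,
    a.foldl stL (c :: b) = decide (val a < val b + c.toNat) :: r := by
  induction a with
  | nil =>
    intro c b hb
    have : b = [] := List.eq_nil_of_length_eq_zero (by simpa using hb)
    subst this
    refine ⟨[], ?_⟩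
    cases c <;> simp [val]
  | cons x a ih =>
    intro c b hb
    rw [List.foldl_cons]
    rcases b with _ | ⟨y, b⟩
    · have h : stL (c :: []) x = [!x && c] := by cases c <;> cases x <;> rfl
      obtain ⟨r, hr⟩ := ih (!x && c) [] (by simp)
      refine ⟨r, ?_⟩
      rw [h, hr]
      congr 1
      rw [decide_eq_decide]
      cases c <;> cases x <;> simp [val] <;> omega
    · have h : stL (c :: y :: b) x = (if x = y then c else y) :: b := by
        cases c <;> cases x <;> cases y <;> rfl
      obtain ⟨r, hr⟩ := ih (if x = y then c else y) b (by simpa using hb)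
      refine ⟨r, ?_⟩
      rw [h, hr]
      congr 1
      rw [decide_eq_decide]
      cases c <;> cases x <;> cases y <;> simp [val] <;> omega

/-- comparison `a < b` (for `|b| ≤ |a|`), the answer is the first bit -/
def ltS (a b : Str) : Str := a.foldl stL (false :: b)

theorem ltS_spec {a b : Str} (h : b.length ≤ a.length) :
    (∃ r, ltS a b = true :: r) ↔ val a < val b := by
  obtain ⟨r, hr⟩ := stL_fold a false b h
  rw [ltS, hr]
  simp

theorem ltS_cases {a b : Str} (h : b.length ≤ a.length) :
    (val a < val b ∧ ∃ r, ltS a b = true :: r) ∨ (¬ val a < val b ∧ ∃ r, ltS a b = false :: r) := by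
  obtain ⟨r, hr⟩ := stL_fold a false b h
  rw [ltS, hr]
  by_cases hv : val a < val b
  · left; exact ⟨hv, r, by simp [hv]⟩
  · right; exact ⟨hv, r, by simp [hv]⟩

theorem PT.ltS {n : ℕ} {a b : Oracle → List Str → Str} (ha : PT n a) (hb : PT n b) :
    PT n (fun Z v => ltS (a Z v) (b Z v)) := by
  refine PT.fold' (st := fun _ v => bc (v.getD 1 []) []
      (bc (v.getD 1 []).tail [false] (bc (v.getD 0 []) [] (false :: (v.getD 1 []).tail.tail)
        (false :: (v.getD 1 []).tail.tail))
        (bc (v.getD 0 []) [] (true :: (v.getD 1 []).tail.tail)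
          (false :: (v.getD 1 []).tail.tail)))
      (bc (v.getD 1 []).tail (bc (v.getD 0 []) [] [true] [false])
        (bc (v.getD 0 []) [] (true :: (v.getD 1 []).tail.tail)
          (false :: (v.getD 1 []).tail.tail))
        (bc (v.getD 0 []) [] (true :: (v.getD 1 []).tail.tail)
          (true :: (v.getD 1 []).tail.tail))))
    (fun _ _ acc b => stL acc b) ha (PT.cons false hb) ?_ ?_ (fun _ => 1) (PB.const 1) ?_
  · have t : PT (n + 2) (fun _ v => (v.getD 1 []).tail.tail) := PT.v1.tail.tail
    exact PT.case PT.v1 PT.nil
      (PT.case PT.v1.tail (PT.const _) (PT.case PT.v0 PT.nil (PT.cons _ t) (PT.cons _ t))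
        (PT.case PT.v0 PT.nil (PT.cons _ t) (PT.cons _ t)))
      (PT.case PT.v1.tail (PT.case PT.v0 PT.nil (PT.const _) (PT.const _))
        (PT.case PT.v0 PT.nil (PT.cons _ t) (PT.cons _ t))
        (PT.case PT.v0 PT.nil (PT.cons _ t) (PT.cons _ t)))
  · intro Z v acc b _
    rcases acc with _ | ⟨_ | _, _ | ⟨_ | _, acc⟩⟩ <;> cases b <;> rfl
  · intro Z v acc b _
    rcases acc with _ | ⟨_ | _, _ | ⟨_ | _, acc⟩⟩ <;> cases b <;> simp [stL]

/-- equality test via two comparisons is avoided: a separate fold -/
def stE (acc : Str) (x : Bool) : Str :=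
  bc acc [] (false :: acc.tail.tail)
    (bc acc.tail [false] (bc [x] [] (true :: acc.tail.tail) (false :: acc.tail.tail))
      (bc [x] [] (false :: acc.tail.tail) (true :: acc.tail.tail)))

theorem stE_fold (a : Str) : ∀ (c : Bool) (b : Str), b.length = a.length →
    a.foldl stE (c :: b) = [c && decide (a = b)] := by
  induction a with
  | nil =>
    intro c b hb
    have : b = [] := List.eq_nil_of_length_eq_zero (by simpa using hb)
    subst this
    simp
  | cons x a ih =>
    intro c b hb
    rw [List.foldl_cons]
    rcases b with _ | ⟨y, b⟩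
    · simp at hb
    · have h : stE (c :: y :: b) x = (c && decide (x = y)) :: b := by
        cases c <;> cases x <;> cases y <;> rfl
      rw [h, ih _ b (by simpa using hb)]
      congr 1
      cases c <;> cases x <;> cases y <;> simp

def eqS (a b : Str) : Str := a.foldl stE (true :: b)

theorem eqS_spec {a b : Str} (h : b.length = a.length) : eqS a b = [decide (a = b)] := by
  rw [eqS, stE_fold a true b h]; simp

theorem PT.eqS {n : ℕ} {a b : Oracle → List Str → Str} (ha : PT n a) (hb : PT n b) :
    PT n (fun Z v => eqS (a Z v) (b Z v)) := by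
  refine PT.fold' (st := fun _ v => bc (v.getD 1 []) []
      (false :: (v.getD 1 []).tail.tail)
      (bc (v.getD 1 []).tail [false]
        (bc (v.getD 0 []) [] (true :: (v.getD 1 []).tail.tail)
          (false :: (v.getD 1 []).tail.tail))
        (bc (v.getD 0 []) [] (false :: (v.getD 1 []).tail.tail)
          (true :: (v.getD 1 []).tail.tail))))
    (fun _ _ acc b => stE acc b) ha (PT.cons true hb) ?_ ?_ (fun _ => 1) (PB.const 1) ?_
  · have t : PT (n + 2) (fun _ v => (v.getD 1 []).tail.tail) := PT.v1.tail.tail
    exact PT.case PT.v1 PT.nil (PT.cons _ t)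
      (PT.case PT.v1.tail (PT.const _) (PT.case PT.v0 PT.nil (PT.cons _ t) (PT.cons _ t))
        (PT.case PT.v0 PT.nil (PT.cons _ t) (PT.cons _ t)))
  · intro Z v acc b _
    rcases acc with _ | ⟨_ | _, _ | ⟨_ | _, acc⟩⟩ <;> cases b <;> rfl
  · intro Z v acc b _
    rcases acc with _ | ⟨_ | _, _ | ⟨_ | _, acc⟩⟩ <;> cases b <;> simp [stE]

/-! ### Random strings read from the oracle -/

/-- `n` oracle bits at the strings `pre ++ (previous bits)` -/
def coins (Z : Oracle) (pre : Str) : ℕ → Str
  | 0 => []
  | n + 1 => Z (pre ++ coins Z pre n) :: coins Z pre n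

@[simp] theorem coins_length (Z : Oracle) (pre : Str) (n : ℕ) : (coins Z pre n).length = n := by
  induction n with
  | zero => rfl
  | succ n ih => simp [coins, ih]

theorem coins_fold (Z : Oracle) (pre u : Str) (m : ℕ) :
    u.foldl (fun acc _ => Z (pre ++ acc) :: acc) (coins Z pre m) = coins Z pre (m + u.length) := by
  induction u generalizing m with
  | nil => rfl
  | cons b u ih =>
    rw [List.foldl_cons]
    have := ih (m + 1)
    rw [coins] at this
    rw [this, List.length_cons]
    congr 1; omega

theorem PT.coins {n : ℕ} (pre : Str) {a : Oracle → List Str → Str} (ha : PT n a) :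
    PT n (fun Z v => coins Z pre (a Z v).length) := by
  have h := PT.fold' (st := fun Z v => bc [Z (pre ++ v.getD 1 [])] [] (false :: v.getD 1 [])
      (true :: v.getD 1 []))
    (fun Z _ acc _ => Z (pre ++ acc) :: acc) ha PT.nil
    (PT.case (PT.ask (PT.constApp pre PT.v1)) PT.nil (PT.cons false PT.v1) (PT.cons true PT.v1))
    (fun Z v acc b _ => by
      have : (([b] :: acc :: v).getD 1 [] : Str) = acc := rfl
      simp only [this]
      cases Z (pre ++ acc) <;> rfl) (fun _ => 1) (PB.const 1)
    (fun Z v acc b _ => by simp)
  refine h.congr fun Z v _ => ?_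
  have := coins_fold Z pre (a Z v) 0
  rw [Nat.zero_add] at this
  exact this

end Pool.Agent.H93.RO
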