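import Pool.Agent.H93.RO.Basic

namespace Pool.Agent.H93.RO

/-! ### Polynomial bounds -/

/-- monotone polynomially bounded functions -/
structure PB (p : ℕ → ℕ) : Prop where
  mono : Monotone p
  bd : ∃ c k : ℕ, ∀ n, p n ≤ c * (n + 1) ^ k

theorem PB.const (c : ℕ) : PB (fun _ => c) :=
  ⟨fun _ _ _ => le_rfl, c, 0, fun n => by simp⟩

theorem PB.id : PB (fun n => n) :=
  ⟨fun _ _ h => h, 1, 1, fun n => by simp⟩

theorem PB.add {p q : ℕ → ℕ} (hp : PB p) (hq : PB q) : PB (fun n => p n + q n) := by
  obtain ⟨c, k, h⟩ := hp.bd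
  obtain ⟨d, l, h'⟩ := hq.bd
  refine ⟨fun a b hab => Nat.add_le_add (hp.mono hab) (hq.mono hab), c + d, k + l, fun n => ?_⟩
  have h1 : (n + 1) ^ k ≤ (n + 1) ^ (k + l) := Nat.pow_le_pow_right (by omega) (by omega)
  have h2 : (n + 1) ^ l ≤ (n + 1) ^ (k + l) := Nat.pow_le_pow_right (by omega) (by omega)
  calc p n + q n ≤ c * (n + 1) ^ k + d * (n + 1) ^ l := Nat.add_le_add (h n) (h' n)
    _ ≤ c * (n + 1) ^ (k + l) + d * (n + 1) ^ (k + l) :=
        Nat.add_le_add (Nat.mul_le_mul_left _ h1) (Nat.mul_le_mul_left _ h2)
    _ = (c + d) * (n + 1) ^ (k + l) := by ring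

theorem PB.mul {p q : ℕ → ℕ} (hp : PB p) (hq : PB q) : PB (fun n => p n * q n) := by
  obtain ⟨c, k, h⟩ := hp.bd
  obtain ⟨d, l, h'⟩ := hq.bd
  refine ⟨fun a b hab => Nat.mul_le_mul (hp.mono hab) (hq.mono hab), c * d, k + l, fun n => ?_⟩
  calc p n * q n ≤ (c * (n + 1) ^ k) * (d * (n + 1) ^ l) := Nat.mul_le_mul (h n) (h' n)
    _ = (c * d) * (n + 1) ^ (k + l) := by ring

theorem PB.comp {p q : ℕ → ℕ} (hp : PB p) (hq : PB q) : PB (fun n => p (q n)) := by
  obtain ⟨c, k, h⟩ := hp.bd
  obtain ⟨d, l, h'⟩ := hq.bd
  refine ⟨fun a b hab => hp.mono (hq.mono hab), c * (d + 1) ^ k, l * k, fun n => ?_⟩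
  have h1 : q n + 1 ≤ (d + 1) * (n + 1) ^ l := by
    have := h' n
    have h2 : 1 ≤ (n + 1) ^ l := Nat.one_le_pow _ _ (by omega)
    calc q n + 1 ≤ d * (n + 1) ^ l + (n + 1) ^ l := Nat.add_le_add this h2
      _ = (d + 1) * (n + 1) ^ l := by ring
  calc p (q n) ≤ c * (q n + 1) ^ k := h _
    _ ≤ c * ((d + 1) * (n + 1) ^ l) ^ k := Nat.mul_le_mul_left _ (Nat.pow_le_pow_left h1 k)
    _ = c * (d + 1) ^ k * (n + 1) ^ (l * k) := by rw [mul_pow, ← pow_mul]; ring

/-! ### Polynomial time functions with oracle, semantically -/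

/-- total length -/
def sz (v : List Str) : ℕ := (v.map List.length).sum

@[simp] theorem sz_nil : sz [] = 0 := rfl
@[simp] theorem sz_cons (w : Str) (v : List Str) : sz (w :: v) = w.length + sz v := rfl

theorem length_getD_le_sz (v : List Str) (i : ℕ) : (v.getD i []).length ≤ sz v := by
  induction v generalizing i with
  | nil => simp
  | cons w v ih =>
    cases i with
    | zero => simp
    | succ i => simp only [List.getD_cons_succ, sz_cons]; exact (ih i).trans (by omega)

/-- `f` (with `n` string arguments and an oracle) can be computed in polynomial time by a program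
fragment using only stacks from number `o` on, with the result on stack `o`. -/
def PT (n : ℕ) (f : Oracle → List Str → Str) : Prop :=
  ∃ (p : ℕ → ℕ) (code : List ℕ → ℕ → Prog), PB p ∧
    (∀ Z v, v.length = n → (f Z v).length ≤ p (sz v)) ∧
    ∀ (ρ : List ℕ) (o : ℕ), ρ.length = n → (∀ i ∈ ρ, i < o) → ∀ (Z : Oracle) (σ : Store),
      (∀ s, o ≤ s → σ s = []) →
      DB Z (code ρ o) σ (p (sz (ρ.map σ))) (Function.update σ o (f Z (ρ.map σ)))

theorem map_update {ρ : List ℕ} {o s : ℕ} (h : ∀ i ∈ ρ, i < o) (hs : o ≤ s) (σ : Store) (w : Str) :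
    ρ.map (Function.update σ s w) = ρ.map σ := by
  apply List.map_congr_left
  intro i hi
  exact Function.update_of_ne (by have := h i hi; omega) _ _

theorem PT.congr {n : ℕ} {f g : Oracle → List Str → Str} (hf : PT n f)
    (h : ∀ Z v, v.length = n → f Z v = g Z v) : PT n g := by
  obtain ⟨p, code, hp, hs, hc⟩ := hf
  refine ⟨p, code, hp, fun Z v hv => by rw [← h Z v hv]; exact hs Z v hv, ?_⟩
  intro ρ o hρ hlt Z σ hσ
  have := hc ρ o hρ hlt Z σ hσ
  rwa [h Z _ (by simpa using hρ)] at this

theorem PT.var {n : ℕ} (i : ℕ) (hi : i < n) : PT n (fun _ v => v.getD i []) := by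
  refine ⟨fun m => 8 * m + 3, fun ρ o => cp (ρ.getD i 0) (o + 1) o,
    ((PB.const 8).mul PB.id).add (PB.const 3),
    fun Z v _ => (length_getD_le_sz v i).trans (by beta_reduce; omega), ?_⟩
  intro ρ o hρ hlt Z σ hσ
  beta_reduce
  have hir : i < ρ.length := by omega
  have e1 : (ρ.map σ).getD i [] = σ (ρ.getD i 0) := by
    simp [List.getD_eq_getElem?_getD, List.getElem?_map, List.getElem?_eq_getElem hir]
  have hlt' : ρ.getD i 0 < o := by
    have : ρ.getD i 0 = ρ[i] := by
      simp [List.getD_eq_getElem?_getD, List.getElem?_eq_getElem hir]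
    rw [this]
    exact hlt _ (List.getElem_mem hir)
  have hl := length_getD_le_sz (ρ.map σ) i
  rw [e1] at hl
  have h := cp_spec Z (a := ρ.getD i 0) (t := o + 1) (b := o) (by omega) (by omega) (by omega) σ
    (hσ _ (by omega))
  refine (h.of_eq ?_).mono (by omega)
  rw [hσ o le_rfl, List.append_nil, e1]

theorem PT.nil {n : ℕ} : PT n (fun _ _ => []) := by
  refine ⟨fun _ => 1, fun _ _ => Prog.skip, PB.const 1, fun _ _ _ => by simp, ?_⟩
  intro ρ o _ _ Z σ hσ
  refine DB.skip.of_eq ?_
  rw [← hσ o le_rfl]; simp

theorem PT.cons {n : ℕ} {f : Oracle → List Str → Str} (b : Bool) (hf : PT n f) :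
    PT n (fun Z v => b :: f Z v) := by
  obtain ⟨p, code, hp, hs, hc⟩ := hf
  refine ⟨fun m => p m + 2, fun ρ o => Prog.seq (code ρ o) (Prog.push o b),
    hp.add (PB.const 2), fun Z v hv => by simpa using (hs Z v hv).trans (by omega), ?_⟩
  intro ρ o hρ hlt Z σ hσ
  refine ((hc ρ o hρ hlt Z σ hσ).seq DB.push).of_eq (by simp)

theorem PT.tail {n : ℕ} {f : Oracle → List Str → Str} (hf : PT n f) :
    PT n (fun Z v => (f Z v).tail) := by
  obtain ⟨p, code, hp, hs, hc⟩ := hf
  refine ⟨fun m => p m + 3,
    fun ρ o => Prog.seq (code ρ o) (Prog.pop o Prog.skip Prog.skip Prog.skip),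
    hp.add (PB.const 3), fun Z v hv => ?_, ?_⟩
  · have := hs Z v hv
    simp only [List.length_tail]; omega
  intro ρ o hρ hlt Z σ hσ
  have h1 : DB Z (Prog.pop o Prog.skip Prog.skip Prog.skip)
      (Function.update σ o (f Z (ρ.map σ))) 2 (Function.update σ o (f Z (ρ.map σ)).tail) := by
    rcases hw : f Z (ρ.map σ) with _ | ⟨b, w⟩
    · exact DB.pop_nil (by simp) DB.skip
    · refine DB.pop_cons (b := b) (w := w) (by simp) ?_
      have : (if b then Prog.skip else Prog.skip) = Prog.skip := by split_ifs <;> rfl
      rw [this]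
      exact DB.skip.of_eq (by simp)
  exact (hc ρ o hρ hlt Z σ hσ).seq h1

/-- case distinction on a string: empty, top bit 0, top bit 1 -/
def bc (w e z o : Str) : Str :=
  match w with
  | [] => e
  | false :: _ => z
  | true :: _ => o

@[simp] theorem bc_nil (e z o : Str) : bc [] e z o = e := rfl
@[simp] theorem bc_false (w e z o : Str) : bc (false :: w) e z o = z := rfl
@[simp] theorem bc_true (w e z o : Str) : bc (true :: w) e z o = o := rfl

theorem PT.case {n : ℕ} {f fe fz fo : Oracle → List Str → Str} (hf : PT n f)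
    (he : PT n fe) (hz : PT n fz) (ho : PT n fo) :
    PT n (fun Z v => bc (f Z v) (fe Z v) (fz Z v) (fo Z v)) := by
  obtain ⟨p, cf, hp, hs, hc⟩ := hf
  obtain ⟨pe, ce, hpe, hse, hce⟩ := he
  obtain ⟨pz, cz, hpz, hsz, hcz⟩ := hz
  obtain ⟨po, co, hpo, hso, hco⟩ := ho
  refine ⟨fun m => (4 * p m + 5) + (pe m + pz m + po m), fun ρ o =>
      Prog.seq (cf ρ o) (Prog.pop o (ce ρ o) (Prog.seq (clr o) (cz ρ o))
        (Prog.seq (clr o) (co ρ o))),
    (((PB.const 4).mul hp).add (PB.const 5)).add ((hpe.add hpz).add hpo), fun Z v hv => ?_, ?_⟩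
  · have h1 := hse Z v hv
    have h2 := hsz Z v hv
    have h3 := hso Z v hv
    beta_reduce
    rcases f Z v with _ | ⟨_ | _, w⟩ <;> simp only [bc_nil, bc_false, bc_true] <;> omega
  intro ρ o hρ hlt Z σ hσ
  have hlen := hs Z (ρ.map σ) (by simpa using hρ)
  have hmap : ∀ w, ρ.map (Function.update σ o w) = ρ.map σ := fun w => map_update hlt le_rfl σ w
  have hself : Function.update σ o [] = σ := by rw [← hσ o le_rfl]; simp
  have h0 := hc ρ o hρ hlt Z σ hσ
  beta_reduce
  rcases hw : f Z (ρ.map σ) with _ | ⟨b, w⟩
  · rw [hw, hself] at h0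
    have h1 := hce ρ o hρ hlt Z σ hσ
    refine (h0.seq (DB.pop_nil (hσ o le_rfl) h1)).mono ?_
    omega
  · rw [hw] at h0 hlen
    simp only [List.length_cons] at hlen
    have hcl := clr_spec Z o w (Function.update σ o w) (by simp)
    rw [Function.update_idem, hself] at hcl
    cases b
    · have h1 := hcz ρ o hρ hlt Z σ hσ
      refine (h0.seq (DB.pop_cons (n := 3 * w.length + 1 + pz (sz (ρ.map σ)) + 1)
        (b := false) (w := w) (by simp) ?_)).mono ?_
      · rw [Function.update_idem]
        exact hcl.seq h1
      · omega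
    · have h1 := hco ρ o hρ hlt Z σ hσ
      refine (h0.seq (DB.pop_cons (n := 3 * w.length + 1 + po (sz (ρ.map σ)) + 1)
        (b := true) (w := w) (by simp) ?_)).mono ?_
      · rw [Function.update_idem]
        exact hcl.seq h1
      · omega

theorem PT.ask {n : ℕ} {f : Oracle → List Str → Str} (hf : PT n f) :
    PT n (fun Z v => [Z (f Z v)]) := by
  obtain ⟨p, cf, hp, hs, hc⟩ := hf
  refine ⟨fun m => 4 * p m + 6, fun ρ o =>
      Prog.seq (cf ρ o) (Prog.query o (Prog.seq (clr o) (Prog.push o false))
        (Prog.seq (clr o) (Prog.push o true))),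
    ((PB.const 4).mul hp).add (PB.const 6), fun Z v hv => by simp, ?_⟩
  intro ρ o hρ hlt Z σ hσ
  have hlen := hs Z (ρ.map σ) (by simpa using hρ)
  have hself : Function.update σ o [] = σ := by rw [← hσ o le_rfl]; simp
  have h0 := hc ρ o hρ hlt Z σ hσ
  have hcl := clr_spec Z o _ (Function.update σ o (f Z (ρ.map σ))) rfl
  rw [Function.update_idem, hself] at hcl
  have h1 : ∀ b : Bool, DB Z (Prog.seq (clr o) (Prog.push o b))
      (Function.update σ o (f Z (ρ.map σ))) (3 * (f Z (ρ.map σ)).length + 3)
      (Function.update σ o [b]) := by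
    intro b
    refine ((hcl.seq DB.push).of_eq (by rw [hσ o le_rfl])).mono ?_
    simp
  refine (h0.seq (DB.query (k := 3 * (f Z (ρ.map σ)).length + 3) ?_)).mono ?_
  · have : (if Z (Function.update σ o (f Z (ρ.map σ)) o) then
        (Prog.seq (clr o) (Prog.push o true)) else (Prog.seq (clr o) (Prog.push o false)))
        = Prog.seq (clr o) (Prog.push o (Z (f Z (ρ.map σ)))) := by
      simp only [Function.update_self]
      cases Z (f Z (ρ.map σ)) <;> rfl
    rw [this]
    exact h1 _
  · beta_reduce; omega

/-- clear stack `o` and move the content of stack `o + 1` to it -/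
def shiftDown (o : ℕ) : Prog := Prog.seq (clr o) (Prog.seq (mv (o + 1) (o + 2)) (mv (o + 2) o))

theorem shiftDown_spec (Z : Oracle) (o : ℕ) (σ : Store) (h2 : σ (o + 2) = []) :
    DB Z (shiftDown o) σ (3 * (σ o).length + 6 * (σ (o + 1)).length + 5)
      (Function.update (Function.update σ o (σ (o + 1))) (o + 1) []) := by
  have a1 := clr_spec Z o _ σ rfl
  have a2 := mv_spec Z (a := o + 1) (b := o + 2) (by omega) (σ (o + 1)) (Function.update σ o [])
    (by rw [Function.update_of_ne (by omega)])
  have a3 := mv_spec Z (a := o + 2) (b := o) (by omega) (σ (o + 1)).reverse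
    (Function.update (Function.update (Function.update σ o []) (o + 2)
      ((σ (o + 1)).reverse ++ (Function.update σ o []) (o + 2))) (o + 1) [])
    (by simp [h2])
  refine ((a1.seq (a2.seq a3)).of_eq ?_).mono ?_
  · funext s
    by_cases e1 : s = o
    · subst e1; simp
    · by_cases e2 : s = o + 1
      · subst e2; simp
      · by_cases e3 : s = o + 2
        · subst e3; simp [h2]
        · simp [e1, e2, e3]
  · simp only [List.length_reverse]; omega

theorem PT.bind {n : ℕ} {f g : Oracle → List Str → Str} (hf : PT n f) (hg : PT (n + 1) g) :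
    PT n (fun Z v => g Z (f Z v :: v)) := by
  obtain ⟨p, cf, hp, hs, hc⟩ := hf
  obtain ⟨q, cg, hq, hs', hc'⟩ := hg
  refine ⟨fun m => 4 * p m + 7 * q (p m + m) + 7, fun ρ o =>
      Prog.seq (cf ρ o) (Prog.seq (cg (o :: ρ) (o + 1)) (shiftDown o)),
    (((PB.const 4).mul hp).add ((PB.const 7).mul (hq.comp (hp.add PB.id)))).add (PB.const 7),
    fun Z v hv => ?_, ?_⟩
  · have h1 := hs Z v hv
    have h2 := hs' Z (f Z v :: v) (by simp [hv])
    have h3 : q (sz (f Z v :: v)) ≤ q (p (sz v) + sz v) := hq.mono (by simp; omega)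
    beta_reduce; omega
  intro ρ o hρ hlt Z σ hσ
  have hlen := hs Z (ρ.map σ) (by simpa using hρ)
  have hlen' := hs' Z (f Z (ρ.map σ) :: ρ.map σ) (by simpa using hρ)
  have h3 : q (sz (f Z (ρ.map σ) :: ρ.map σ)) ≤ q (p (sz (ρ.map σ)) + sz (ρ.map σ)) :=
    hq.mono (by simp; omega)
  have h0 := hc ρ o hρ hlt Z σ hσ
  have h1 := hc' (o :: ρ) (o + 1) (by simpa using hρ) (by
      intro i hi
      rcases List.mem_cons.1 hi with rfl | hi
      · omega
      · have := hlt i hi; omega) Z (Function.update σ o (f Z (ρ.map σ))) (by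
      intro s hs
      rw [Function.update_of_ne (by omega)]
      exact hσ s (by omega))
  rw [List.map_cons, map_update hlt le_rfl, Function.update_self] at h1
  have h2 := shiftDown_spec Z o (Function.update (Function.update σ o (f Z (ρ.map σ))) (o + 1)
    (g Z (f Z (ρ.map σ) :: ρ.map σ))) (by
      rw [Function.update_of_ne (by omega), Function.update_of_ne (by omega)]
      exact hσ _ (by omega))
  refine ((h0.seq (h1.seq h2)).of_eq ?_).mono ?_
  · have e1 := hσ (o + 1) (by omega)
    funext s
    simp only [Function.update_apply]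
    split_ifs <;> simp_all
  · simp only [Function.update_apply]
    simp only [if_neg (show ¬ o = o + 1 by omega), if_true]
    omega

/-- the body of the loop used for folds -/
def foldBody (cst : List ℕ → ℕ → Prog) (ρ : List ℕ) (o : ℕ) (b : Bool) : Prog :=
  Prog.seq (Prog.push (o + 2) b) (Prog.seq (cst ((o + 2) :: (o + 1) :: ρ) (o + 3))
    (Prog.seq (shiftDown (o + 2)) (shiftDown (o + 1))))

theorem PT.fold {n : ℕ} {l i st : Oracle → List Str → Str}
    (hl : PT n l) (hi : PT n i) (hst : PT (n + 2) st)
    (hb : ∃ q, PB q ∧ ∀ Z v, v.length = n → ∀ w, w <+: l Z v →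
      (w.foldl (fun acc b => st Z ([b] :: acc :: v)) (i Z v)).length ≤ q (sz v)) :
    PT n (fun Z v => (l Z v).foldl (fun acc b => st Z ([b] :: acc :: v)) (i Z v)) := by
  obtain ⟨pl, cl, hpl, hsl, hcl⟩ := hl
  obtain ⟨pi, ci, hpi, hsi, hci⟩ := hi
  obtain ⟨ps, cs, hps, hss, hcs⟩ := hst
  obtain ⟨Q, hQ, hb⟩ := hb
  refine ⟨fun m => (pl m + pi m + pl m * (ps (1 + Q m + m) + 15 * Q m + 30)) + (6 * Q m + 30),
    fun ρ o => Prog.seq (cl ρ o) (Prog.seq (ci ρ (o + 1))
      (Prog.seq (Prog.loop o (Prog.pop o Prog.skip (foldBody cs ρ o false) (foldBody cs ρ o true)))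
        (shiftDown o))),
    ((hpl.add hpi).add (hpl.mul (((hps.comp (((PB.const 1).add hQ).add PB.id)).add
      ((PB.const 15).mul hQ)).add (PB.const 30)))).add (((PB.const 6).mul hQ).add (PB.const 30)),
    fun Z v hv => ?_, ?_⟩
  · have := hb Z v hv (l Z v) (List.prefix_refl _)
    beta_reduce; omega
  intro ρ o hρ hlt Z σ hσ
  have hv : (ρ.map σ).length = n := by simpa using hρ
  set v := ρ.map σ with hvdef
  set B := ps (1 + Q (sz v) + sz v) + 15 * Q (sz v) + 19 with hB
  -- one iteration
  have hbody : ∀ (τ : Store) (b : Bool) (acc : Str), ρ.map τ = v → τ (o + 1) = acc →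
      (∀ s, o + 2 ≤ s → τ s = []) → acc.length ≤ Q (sz v) →
      (st Z ([b] :: acc :: v)).length ≤ Q (sz v) →
      DB Z (foldBody cs ρ o b) τ (B - 2) (Function.update τ (o + 1) (st Z ([b] :: acc :: v))) := by
    intro τ b acc hτv hτa hτ hacc hnew
    have h1 : DB Z (Prog.push (o + 2) b) τ 1 (Function.update τ (o + 2) [b]) :=
      DB.push.of_eq (by rw [hτ (o + 2) le_rfl])
    have hmapτ : List.map (Function.update τ (o + 2) [b]) ρ = v := by
      rw [map_update hlt (by omega), hτv]
    have h2 := hcs ((o + 2) :: (o + 1) :: ρ) (o + 3) (by simpa using hρ) (by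
      intro i hi
      simp only [List.mem_cons] at hi
      rcases hi with rfl | rfl | hi
      · omega
      · omega
      · have := hlt i hi; omega) Z (Function.update τ (o + 2) [b]) (by
      intro s hs
      rw [Function.update_of_ne (by omega)]
      exact hτ s (by omega))
    rw [List.map_cons, List.map_cons, hmapτ, Function.update_self,
      Function.update_of_ne (show o + 1 ≠ o + 2 by omega), hτa] at h2
    have h3 := shiftDown_spec Z (o + 2) (Function.update (Function.update τ (o + 2) [b]) (o + 3)
      (st Z ([b] :: acc :: v))) (by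
        rw [Function.update_of_ne (by omega), Function.update_of_ne (by omega)]
        exact hτ _ (by omega))
    have h4 := shiftDown_spec Z (o + 1) (Function.update (Function.update τ (o + 2)
      (st Z ([b] :: acc :: v))) (o + 3) []) (by
        rw [Function.update_self])
    have e34 : Function.update (Function.update (Function.update (Function.update τ (o + 2) [b])
        (o + 3) (st Z ([b] :: acc :: v))) (o + 2)
          (Function.update (Function.update τ (o + 2) [b]) (o + 3) (st Z ([b] :: acc :: v))
            (o + 2 + 1))) (o + 2 + 1) []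
        = Function.update (Function.update τ (o + 2) (st Z ([b] :: acc :: v))) (o + 3) [] := by
      funext s
      by_cases e1 : s = o + 3
      · subst e1; simp
      · by_cases e2 : s = o + 2
        · subst e2; simp
        · simp [e1, e2]
    rw [e34] at h3
    refine ((h1.seq (h2.seq (h3.seq h4))).of_eq ?_).mono ?_
    · funext s
      by_cases e1 : s = o + 1
      · subst e1; simp
      · by_cases e2 : s = o + 2
        · subst e2; simp [hτ (o + 2) le_rfl]
        · by_cases e3 : s = o + 3
          · subst e3; simp [hτ (o + 3) (by omega)]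
          · simp [e1, e2, e3]
    · have m1 : ps (sz ([b] :: acc :: v)) ≤ ps (1 + Q (sz v) + sz v) :=
        hps.mono (by simp only [sz_cons, List.length_singleton]; omega)
      have x1 : ((Function.update (Function.update τ (o + 2) [b]) (o + 3)
        (st Z ([b] :: acc :: v))) (o + 2)).length = 1 := by simp
      have x2 : ((Function.update (Function.update τ (o + 2) [b]) (o + 3)
        (st Z ([b] :: acc :: v))) (o + 2 + 1)).length = (st Z ([b] :: acc :: v)).length := by simp
      have x3 : ((Function.update (Function.update τ (o + 2)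
        (st Z ([b] :: acc :: v))) (o + 3) []) (o + 1)).length = acc.length := by simp [hτa]
      have x4 : ((Function.update (Function.update τ (o + 2)
        (st Z ([b] :: acc :: v))) (o + 3) []) (o + 1 + 1)).length
          = (st Z ([b] :: acc :: v)).length := by simp
      rw [x1, x2, x3, x4]
      omega
  -- the loop
  have hloop : ∀ (w : Str) (τ : Store) (acc : Str), τ o = w → ρ.map τ = v → τ (o + 1) = acc →
      (∀ s, o + 2 ≤ s → τ s = []) →
      (∀ u, u <+: w → (u.foldl (fun acc b => st Z ([b] :: acc :: v)) acc).length ≤ Q (sz v)) →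
      DB Z (Prog.loop o (Prog.pop o Prog.skip (foldBody cs ρ o false) (foldBody cs ρ o true))) τ
        (w.length * B + 1) (Function.update (Function.update τ o []) (o + 1)
          (w.foldl (fun acc b => st Z ([b] :: acc :: v)) acc)) := by
    intro w
    induction w with
    | nil =>
      intro τ acc h0 _ h1 _ _
      have : Function.update (Function.update τ o []) (o + 1)
          (List.foldl (fun acc b => st Z ([b] :: acc :: v)) acc []) = τ := by
        rw [List.foldl_nil, ← h1, ← h0]
        simp
      rw [this]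
      simpa using DB.loop_nil h0
    | cons b w ih =>
      intro τ acc h0 hm h1 hτ hpre
      have hacc := hpre [] (List.nil_prefix)
      have hnew := hpre [b] (by simp)
      simp only [List.foldl_nil, List.foldl_cons] at hacc hnew
      have b1 := hbody (Function.update τ o w) b acc (by rw [map_update hlt le_rfl, hm])
        (by rw [Function.update_of_ne (by omega), h1])
        (by intro s hs; rw [Function.update_of_ne (by omega)]; exact hτ s hs) hacc hnew
      have b2 : DB Z (Prog.pop o Prog.skip (foldBody cs ρ o false) (foldBody cs ρ o true)) τ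
          (B - 2 + 1) (Function.update (Function.update τ o w) (o + 1)
            (st Z ([b] :: acc :: v))) := by
        refine DB.pop_cons h0 ?_
        have : (if b then foldBody cs ρ o true else foldBody cs ρ o false)
            = foldBody cs ρ o b := by cases b <;> rfl
        rw [this]
        exact b1
      have b3 := ih (Function.update (Function.update τ o w) (o + 1) (st Z ([b] :: acc :: v)))
        (st Z ([b] :: acc :: v)) (by rw [Function.update_of_ne (by omega), Function.update_self])
        (by rw [map_update hlt (by omega), map_update hlt le_rfl, hm])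
        (by rw [Function.update_self])
        (by
          intro s hs
          rw [Function.update_of_ne (by omega), Function.update_of_ne (by omega)]
          exact hτ s hs)
        (by
          intro u hu
          have := hpre (b :: u) (by simpa using hu)
          simpa using this)
      refine ((DB.loop_cons h0 b2 b3).of_eq ?_).mono ?_
      · rw [List.foldl_cons]
        funext s
        by_cases e1 : s = o + 1
        · subst e1; simp
        · by_cases e2 : s = o
          · subst e2; simp [e1]
          · simp [e1, e2]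
      · rw [List.length_cons, Nat.add_mul]
        omega
  have hself : Function.update σ o [] = σ := by rw [← hσ o le_rfl]; simp
  have c1 := hcl ρ o hρ hlt Z σ hσ
  have c2 := hci ρ (o + 1) hρ (fun i hi => by have := hlt i hi; omega) Z
    (Function.update σ o (l Z v)) (by
      intro s hs
      rw [Function.update_of_ne (by omega)]
      exact hσ s (by omega))
  rw [map_update hlt le_rfl] at c2
  have c3 := hloop (l Z v) (Function.update (Function.update σ o (l Z v)) (o + 1) (i Z v))
    (i Z v) (by rw [Function.update_of_ne (by omega), Function.update_self])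
    (by rw [map_update hlt (by omega), map_update hlt le_rfl])
    (by rw [Function.update_self])
    (by
      intro s hs
      rw [Function.update_of_ne (by omega), Function.update_of_ne (by omega)]
      exact hσ s (by omega))
    (fun u hu => hb Z v hv u hu)
  set res := (l Z v).foldl (fun acc b => st Z ([b] :: acc :: v)) (i Z v) with hres
  have e3 : Function.update (Function.update (Function.update (Function.update σ o (l Z v))
      (o + 1) (i Z v)) o []) (o + 1) res = Function.update σ (o + 1) res := by
    funext s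
    by_cases e1 : s = o + 1
    · subst e1; simp
    · by_cases e2 : s = o
      · subst e2; simp [hσ]
      · simp [e1, e2]
  rw [e3] at c3
  have c4 := shiftDown_spec Z o (Function.update σ (o + 1) res) (by
    rw [Function.update_of_ne (by omega)]
    exact hσ _ (by omega))
  have hr : res.length ≤ Q (sz v) := hb Z v hv _ (List.prefix_refl _)
  have hll := hsl Z v hv
  refine ((c1.seq (c2.seq (c3.seq c4))).of_eq ?_).mono ?_
  · change _ = Function.update σ o res
    funext s
    by_cases e1 : s = o
    · subst e1; simp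
    · by_cases e2 : s = o + 1
      · subst e2; simp [hσ]
      · simp [e1, e2]
  · have y1 : (Function.update σ (o + 1) res o).length = 0 := by simp [hσ]
    have y2 : (Function.update σ (o + 1) res (o + 1)).length = res.length := by simp
    rw [y1, y2]
    have y3 : (l Z v).length * B ≤ pl (sz v) * (ps (1 + Q (sz v) + sz v) + 15 * Q (sz v) + 30) :=
      Nat.mul_le_mul hll (by omega)
    change pl (sz v) + (pi (sz v) + ((l Z v).length * B + 1 + (3 * 0 + 6 * res.length + 5) + 1)
      + 1) + 1 ≤ _
    beta_reduce
    omega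

end Pool.Agent.H93.RO
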