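import Pool.Agent.H93.RO.B0

namespace Pool.Agent.H93.RO

/-! ### Rules and their patterns -/

/-- a local rule: the cell `X` has the value `F` of the cells `Ys`, if `F` is defined -/
structure Rule where
  X : Adr
  Ys : List Adr
  F : (Adr → Bool) → Option Bool
  dep : ∀ φ ψ : Adr → Bool, (∀ A ∈ Ys, φ A = ψ A) → F φ = F ψ

/-- the forbidden patterns of a rule -/
def patsOf (r : Rule) : List (List Lit) :=
  r.Ys.sublists.flatMap (fun T => match r.F (fun A => decide (A ∈ T)) with
    | some b => [r.Ys.map (fun A => (A, decide (A ∈ T))) ++ [(r.X, !b)]]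
    | none => [])

theorem patsOf_ok (Z : Oracle) (u v0 v1 v2 : Str) (r : Rule) :
    (∀ p ∈ patsOf r, patB Z u v0 v1 v2 p = false) ↔
      ((∀ A ∈ r.Ys, adrOv u v0 v1 v2 A = false) → adrOv u v0 v1 v2 r.X = false →
        ∀ b, r.F (fun A => Z (true :: adrV u v0 v1 v2 A)) = some b →
          Z (true :: adrV u v0 v1 v2 r.X) = b) := by
  constructor
  · intro h hY hX b hF
    set T := r.Ys.filter (fun A => Z (true :: adrV u v0 v1 v2 A)) with hT
    have hmem : ∀ A ∈ r.Ys, decide (A ∈ T) = Z (true :: adrV u v0 v1 v2 A) := by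
      intro A hA
      rw [hT]
      cases hZ : Z (true :: adrV u v0 v1 v2 A) <;> simp [hA, hZ]
    have hFT : r.F (fun A => decide (A ∈ T)) = some b := by
      rw [← hF]; exact r.dep _ _ hmem
    have hp : r.Ys.map (fun A => (A, decide (A ∈ T))) ++ [(r.X, !b)] ∈ patsOf r := by
      unfold patsOf
      rw [List.mem_flatMap]
      refine ⟨T, ?_, ?_⟩
      · rw [List.mem_sublists]; exact List.filter_sublist
      · rw [hFT]; simp
    have := h _ hp
    by_contra hne
    have hall : patB Z u v0 v1 v2 (r.Ys.map (fun A => (A, decide (A ∈ T))) ++ [(r.X, !b)])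
        = true := by
      unfold patB
      rw [List.all_append, Bool.and_eq_true]
      constructor
      · rw [List.all_eq_true]
        intro L hL
        rw [List.mem_map] at hL
        obtain ⟨A, hA, rfl⟩ := hL
        simp only [litB, hY A hA, hmem A hA]
        simp
      · have hzb : Z (true :: adrV u v0 v1 v2 r.X) = !b := by
          revert hne
          generalize Z (true :: adrV u v0 v1 v2 r.X) = q
          cases q <;> cases b <;> simp
        simp only [List.all_cons, List.all_nil, litB, hX, hzb]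
        simp
    rw [hall] at this
    exact absurd this (by simp)
  · intro h p hp
    unfold patsOf at hp
    rw [List.mem_flatMap] at hp
    obtain ⟨T, hT, hp⟩ := hp
    rcases hF : r.F (fun A => decide (A ∈ T)) with _ | b
    · rw [hF] at hp; simp at hp
    · rw [hF] at hp
      simp only [List.mem_singleton] at hp
      subst hp
      by_contra hne
      rw [Bool.not_eq_false] at hne
      unfold patB at hne
      rw [List.all_append, Bool.and_eq_true, List.all_eq_true] at hne
      obtain ⟨h1, h2⟩ := hne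
      have hYs : ∀ A ∈ r.Ys, adrOv u v0 v1 v2 A = false ∧
          Z (true :: adrV u v0 v1 v2 A) = decide (A ∈ T) := by
        intro A hA
        have := h1 (A, decide (A ∈ T)) (List.mem_map_of_mem hA)
        simp only [litB, Bool.and_eq_true, Bool.not_eq_true', beq_iff_eq] at this
        exact this
      simp only [List.all_cons, List.all_nil, litB, Bool.and_true, Bool.and_eq_true,
        Bool.not_eq_true', beq_iff_eq] at h2
      have := h (fun A hA => (hYs A hA).1) h2.1 b (by
        rw [← hF]; exact r.dep _ _ fun A hA => (hYs A hA).2)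
      rw [this] at h2
      cases b <;> simp at h2

/-! ### Coordinates as numbers -/

/-- value of a coordinate -/
def cN (M n0 n1 n2 : ℕ) : Co → ℕ
  | (false, false, m) => n0 + m.toNat
  | (true, false, m) => n1 + m.toNat
  | (false, true, m) => n2 + m.toNat
  | (true, true, m) => if m then M - 1 else 0

theorem co_bin (l n0 n1 n2 : ℕ) (u : Str) (hu : u.length = l) (h0 : n0 < 2 ^ l) (h1 : n1 < 2 ^ l)
    (h2 : n2 < 2 ^ l) (c : Co) :
    (coOv u (bin l n0) (bin l n1) (bin l n2) c = decide (2 ^ l ≤ cN (2 ^ l) n0 n1 n2 c)) ∧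
    (cN (2 ^ l) n0 n1 n2 c < 2 ^ l →
      coV u (bin l n0) (bin l n1) (bin l n2) c = bin l (cN (2 ^ l) n0 n1 n2 c)) := by
  have hp : 1 ≤ 2 ^ l := Nat.one_le_two_pow
  have key : ∀ n, n < 2 ^ l →
      (decide ((incR (bin l n)).head? = some true) = decide (2 ^ l ≤ n + 1)) ∧
      (n + 1 < 2 ^ l → (incR (bin l n)).tail.reverse = bin l (n + 1)) := by
    intro n hn
    by_cases h : n + 1 < 2 ^ l
    · rw [incR_lt h]
      refine ⟨?_, fun _ => by simp⟩
      simp only [List.head?_cons, Option.some.injEq, Bool.false_eq_true, decide_false]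
      symm
      rw [decide_eq_false_iff_not]
      omega
    · have e : n = 2 ^ l - 1 := by omega
      obtain ⟨r, hr⟩ := incR_max l
      rw [e, hr]
      refine ⟨?_, fun h' => absurd h' (by omega)⟩
      simp only [List.head?_cons, decide_true]
      symm
      rw [decide_eq_true_iff]
      omega
  have same : ∀ n, n < 2 ^ l → (decide ((false :: (bin l n).reverse).head? = some true)
      = decide (2 ^ l ≤ n)) := by
    intro n hn
    simp only [List.head?_cons, Option.some.injEq, Bool.false_eq_true, decide_false]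
    symm
    rw [decide_eq_false_iff_not]
    omega
  rcases c with ⟨_ | _, _ | _, _ | _⟩ <;>
    simp only [coOv, coV, coR, cN, bc_false, bc_true, Bool.toNat_false, Bool.toNat_true,
      Nat.add_zero, if_true]
  · exact ⟨same n0 h0, fun _ => by simp⟩
  · exact key n0 h0
  · exact ⟨same n2 h2, fun _ => by simp⟩
  · exact key n2 h2
  · exact ⟨same n1 h1, fun _ => by simp⟩
  · exact key n1 h1
  · constructor
    · simp only [List.head?_cons, Option.some.injEq, Bool.false_eq_true, decide_false, if_false]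
      symm
      rw [decide_eq_false_iff_not]
      omega
    · intro _
      simp [bin_zero, hu]
  · constructor
    · simp only [List.head?_cons, Option.some.injEq, Bool.false_eq_true, decide_false]
      symm
      rw [decide_eq_false_iff_not]
      omega
    · intro _
      simp [bin_max, hu]

/-- the cell with tag `k` and coordinates `a, b, c` -/
def cell (l k a b c : ℕ) : Str := true :: (bin l c ++ (bin l b ++ (bin l a ++ List.replicate k true)))

theorem cell_inj {l k a b c k' a' b' c' : ℕ} (ha : a < 2 ^ l) (hb : b < 2 ^ l) (hc : c < 2 ^ l)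
    (ha' : a' < 2 ^ l) (hb' : b' < 2 ^ l) (hc' : c' < 2 ^ l)
    (h : cell l k a b c = cell l k' a' b' c') : k = k' ∧ a = a' ∧ b = b' ∧ c = c' := by
  unfold cell at h
  have h1 := (List.cons.inj h).2
  obtain ⟨e1, h2⟩ := List.append_inj h1 (by simp)
  obtain ⟨e2, h3⟩ := List.append_inj h2 (by simp)
  obtain ⟨e3, h4⟩ := List.append_inj h3 (by simp)
  have h5 := congrArg List.length h4
  simp only [List.length_replicate] at h5
  exact ⟨h5, bin_inj ha ha' e3, bin_inj hb hb' e2, bin_inj hc hc' e1⟩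

/-- the cell named by an address -/
def cellA (l n0 n1 n2 : ℕ) (A : Adr) : Str :=
  cell l A.1 (cN (2 ^ l) n0 n1 n2 A.2.1) (cN (2 ^ l) n0 n1 n2 A.2.2.1)
    (cN (2 ^ l) n0 n1 n2 A.2.2.2)

/-- all coordinates of the address are in range -/
def InR (l n0 n1 n2 : ℕ) (A : Adr) : Prop :=
  cN (2 ^ l) n0 n1 n2 A.2.1 < 2 ^ l ∧ cN (2 ^ l) n0 n1 n2 A.2.2.1 < 2 ^ l ∧
    cN (2 ^ l) n0 n1 n2 A.2.2.2 < 2 ^ l

theorem adr_bin {l n0 n1 n2 : ℕ} {u : Str} (hu : u.length = l) (h0 : n0 < 2 ^ l)
    (h1 : n1 < 2 ^ l) (h2 : n2 < 2 ^ l) (A : Adr) :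
    (adrOv u (bin l n0) (bin l n1) (bin l n2) A = false ↔ InR l n0 n1 n2 A) ∧
    (InR l n0 n1 n2 A →
      true :: adrV u (bin l n0) (bin l n1) (bin l n2) A = cellA l n0 n1 n2 A) := by
  obtain ⟨k, c1, c2, c3⟩ := A
  obtain ⟨a1, b1⟩ := co_bin l n0 n1 n2 u hu h0 h1 h2 c1
  obtain ⟨a2, b2⟩ := co_bin l n0 n1 n2 u hu h0 h1 h2 c2
  obtain ⟨a3, b3⟩ := co_bin l n0 n1 n2 u hu h0 h1 h2 c3
  constructor
  · simp only [adrOv, a1, a2, a3, InR, Bool.or_eq_false_iff, decide_eq_false_iff_not, not_le]
    tauto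
  · rintro ⟨g1, g2, g3⟩
    simp only at g1 g2 g3
    simp only [adrV, cellA, cell, b1 g1, b2 g2, b3 g3]

/-- the rule holds in the oracle -/
def RuleOK (l : ℕ) (Z : Oracle) (r : Rule) : Prop :=
  ∀ n0 n1 n2, n0 < 2 ^ l → n1 < 2 ^ l → n2 < 2 ^ l → (∀ A ∈ r.Ys, InR l n0 n1 n2 A) →
    InR l n0 n1 n2 r.X → ∀ b, r.F (fun A => Z (cellA l n0 n1 n2 A)) = some b →
      Z (cellA l n0 n1 n2 r.X) = b

theorem rules_ok (l : ℕ) (Z : Oracle) (u : Str) (hu : u.length = l) (rs : List Rule) :
    (∀ v0 v1 v2 : Str, v0.length = u.length → v1.length = u.length → v2.length = u.length →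
      ∀ p ∈ rs.flatMap patsOf, patB Z u v0 v1 v2 p = false) ↔ ∀ r ∈ rs, RuleOK l Z r := by
  constructor
  · intro h r hr n0 n1 n2 h0 h1 h2 hY hX b hF
    have hp : ∀ p ∈ patsOf r, patB Z u (bin l n0) (bin l n1) (bin l n2) p = false :=
      fun p hp => h _ _ _ (by simp [hu]) (by simp [hu]) (by simp [hu]) p
        (List.mem_flatMap.2 ⟨r, hr, hp⟩)
    have := (patsOf_ok Z u (bin l n0) (bin l n1) (bin l n2) r).1 hp
      (fun A hA => ((adr_bin hu h0 h1 h2 A).1).2 (hY A hA)) (((adr_bin hu h0 h1 h2 _).1).2 hX) b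
      (by
        rw [← hF]
        apply r.dep
        intro A hA
        rw [(adr_bin hu h0 h1 h2 A).2 (hY A hA)])
    rwa [(adr_bin hu h0 h1 h2 _).2 hX] at this
  · intro h v0 v1 v2 l0 l1 l2 p hp
    rw [List.mem_flatMap] at hp
    obtain ⟨r, hr, hp⟩ := hp
    have e0 : v0 = bin l (val v0) := by rw [← hu, ← l0]; exact (bin_val v0).symm
    have e1 : v1 = bin l (val v1) := by rw [← hu, ← l1]; exact (bin_val v1).symm
    have e2 : v2 = bin l (val v2) := by rw [← hu, ← l2]; exact (bin_val v2).symm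
    have h0 : val v0 < 2 ^ l := by rw [← hu, ← l0]; exact val_lt v0
    have h1 : val v1 < 2 ^ l := by rw [← hu, ← l1]; exact val_lt v1
    have h2 : val v2 < 2 ^ l := by rw [← hu, ← l2]; exact val_lt v2
    rw [e0, e1, e2]
    revert p
    rw [patsOf_ok]
    intro hY hX b hF
    have hY' : ∀ A ∈ r.Ys, InR l (val v0) (val v1) (val v2) A :=
      fun A hA => ((adr_bin hu h0 h1 h2 A).1).1 (hY A hA)
    have hX' := ((adr_bin hu h0 h1 h2 r.X).1).1 hX
    rw [(adr_bin hu h0 h1 h2 _).2 hX']
    apply h r hr _ _ _ h0 h1 h2 hY' hX'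
    rw [← hF]
    apply r.dep
    intro A hA
    rw [(adr_bin hu h0 h1 h2 A).2 (hY' A hA)]

end Pool.Agent.H93.RO
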