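import Pool.Agent.H93.RO.Rules

namespace Pool.Agent.H93.RO

/-! ### Labels -/

/-- the continuations that can occur when `p` is executed before `K` -/
def labels : Prog → List Prog → List (List Prog)
  | Prog.skip, K => [Prog.skip :: K]
  | Prog.push s b, K => [Prog.push s b :: K]
  | Prog.pop s e z o, K => (Prog.pop s e z o :: K) :: (labels e K ++ (labels z K ++ labels o K))
  | Prog.query s n y, K => (Prog.query s n y :: K) :: (labels n K ++ labels y K)
  | Prog.guess z o, K => (Prog.guess z o :: K) :: (labels z K ++ labels o K)
  | Prog.seq p q, K => (Prog.seq p q :: K) :: (labels p (q :: K) ++ labels q K)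
  | Prog.loop s p, K => (Prog.loop s p :: K) :: labels p (Prog.loop s p :: K)

/-- next continuation; `N s`: stack `s` is not empty, `V s`: its top bit, `a`: answer -/
def newLab (N V : ℕ → Bool) (a : Bool) : List Prog → List Prog
  | [] => []
  | Prog.skip :: K => K
  | Prog.push _ _ :: K => K
  | Prog.pop s e z o :: K => (if N s then (if V s then o else z) else e) :: K
  | Prog.query _ n y :: K => (if a then y else n) :: K
  | Prog.guess z _ :: K => z :: K
  | Prog.seq p q :: K => p :: q :: K
  | Prog.loop s p :: K => if N s then p :: Prog.loop s p :: K else K

/-- stack operation of a step -/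
inductive Act : Type
  | none : Act
  | push (s : ℕ) (b : Bool) : Act
  | pop (s : ℕ) : Act
  deriving DecidableEq

/-- the stack operation belonging to a continuation -/
def act : List Prog → Act
  | Prog.push s b :: _ => Act.push s b
  | Prog.pop s _ _ _ :: _ => Act.pop s
  | _ => Act.none

/-- new stacks -/
def newStk : Act → Store → Store
  | Act.none, σ => σ
  | Act.push s b, σ => Function.update σ s (b :: σ s)
  | Act.pop s, σ => Function.update σ s (σ s).tail

/-- the stack asked about -/
def askS : List Prog → Option ℕ
  | Prog.query s _ _ :: _ => some s
  | _ => none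

theorem stepA_eq (a : Bool) (L : List Prog) (σ : Store) :
    stepA a false (L, σ) = (newLab (fun s => decide (0 < (σ s).length))
      (fun s => (σ s).headD false) a L, newStk (act L) σ) := by
  rcases L with _ | ⟨p, K⟩
  · rfl
  · cases p with
    | skip => rfl
    | push s b => rfl
    | pop s e z o =>
      rcases hs : σ s with _ | ⟨_ | _, w⟩
      · have : Function.update σ s (σ s).tail = σ := by
          rw [Function.update_eq_self_iff, hs]; rfl
        simp only [stepA, newLab, act, newStk, this]
        simp [hs]
      · simp [stepA, newLab, act, newStk, hs]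
      · simp [stepA, newLab, act, newStk, hs]
    | query s n y => rfl
    | guess z o => rfl
    | seq p q => rfl
    | loop s p =>
      rcases hs : σ s with _ | ⟨b, w⟩ <;> simp [stepA, newLab, act, newStk, hs]

theorem asked_eq (L : List Prog) (σ : Store) :
    asked (L, σ) = match askS L with | some s => σ s | none => [] := by
  rcases L with _ | ⟨p, K⟩
  · rfl
  · cases p <;> rfl

theorem head_labels (p : Prog) (K : List Prog) : (p :: K) ∈ labels p K := by
  cases p <;> simp [labels]

theorem labels_closed (p : Prog) : ∀ (K L : List Prog), L ∈ labels p K →
    ∀ (N V : ℕ → Bool) (a : Bool), newLab N V a L ∈ labels p K ∨ newLab N V a L = K := by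
  induction p with
  | skip =>
    intro K L hL N V a
    simp only [labels, List.mem_singleton] at hL
    subst hL
    exact Or.inr rfl
  | push s b =>
    intro K L hL N V a
    simp only [labels, List.mem_singleton] at hL
    subst hL
    exact Or.inr rfl
  | pop s e z o ihe ihz iho =>
    intro K L hL N V a
    simp only [labels, List.mem_cons, List.mem_append] at hL ⊢
    rcases hL with rfl | hL | hL | hL
    · left
      simp only [newLab]
      split_ifs
      · exact Or.inr (Or.inr (Or.inr (head_labels o K)))
      · exact Or.inr (Or.inr (Or.inl (head_labels z K)))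
      · exact Or.inr (Or.inl (head_labels e K))
    · rcases ihe K L hL N V a with h | h
      · exact Or.inl (Or.inr (Or.inl h))
      · exact Or.inr h
    · rcases ihz K L hL N V a with h | h
      · exact Or.inl (Or.inr (Or.inr (Or.inl h)))
      · exact Or.inr h
    · rcases iho K L hL N V a with h | h
      · exact Or.inl (Or.inr (Or.inr (Or.inr h)))
      · exact Or.inr h
  | query s n y ihn ihy =>
    intro K L hL N V a
    simp only [labels, List.mem_cons, List.mem_append] at hL ⊢
    rcases hL with rfl | hL | hL
    · left
      simp only [newLab]
      split_ifs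
      · exact Or.inr (Or.inr (head_labels y K))
      · exact Or.inr (Or.inl (head_labels n K))
    · rcases ihn K L hL N V a with h | h
      · exact Or.inl (Or.inr (Or.inl h))
      · exact Or.inr h
    · rcases ihy K L hL N V a with h | h
      · exact Or.inl (Or.inr (Or.inr h))
      · exact Or.inr h
  | guess z o ihz iho =>
    intro K L hL N V a
    simp only [labels, List.mem_cons, List.mem_append] at hL ⊢
    rcases hL with rfl | hL | hL
    · exact Or.inl (Or.inr (Or.inl (head_labels z K)))
    · rcases ihz K L hL N V a with h | h
      · exact Or.inl (Or.inr (Or.inl h))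
      · exact Or.inr h
    · rcases iho K L hL N V a with h | h
      · exact Or.inl (Or.inr (Or.inr h))
      · exact Or.inr h
  | seq p q ihp ihq =>
    intro K L hL N V a
    simp only [labels, List.mem_cons, List.mem_append] at hL ⊢
    rcases hL with rfl | hL | hL
    · exact Or.inl (Or.inr (Or.inl (head_labels p (q :: K))))
    · rcases ihp (q :: K) L hL N V a with h | h
      · exact Or.inl (Or.inr (Or.inl h))
      · rw [h]; exact Or.inl (Or.inr (Or.inr (head_labels q K)))
    · rcases ihq K L hL N V a with h | h
      · exact Or.inl (Or.inr (Or.inr h))
      · exact Or.inr h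
  | loop s p ihp =>
    intro K L hL N V a
    simp only [labels, List.mem_cons] at hL ⊢
    rcases hL with rfl | hL
    · simp only [newLab]
      split_ifs
      · exact Or.inl (Or.inr (head_labels p _))
      · exact Or.inr rfl
    · rcases ihp _ L hL N V a with h | h
      · exact Or.inl (Or.inr h)
      · exact Or.inl (Or.inl h)

/-- all labels of a program -/
def Lam (P : Prog) : List (List Prog) := labels P [] ++ [[]]

theorem Lam_start (P : Prog) : [P] ∈ Lam P := by
  simp only [Lam, List.mem_append]; exact Or.inl (head_labels P [])

theorem Lam_closed (P : Prog) {L : List Prog} (hL : L ∈ Lam P) (N V : ℕ → Bool) (a : Bool) :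
    newLab N V a L ∈ Lam P := by
  simp only [Lam, List.mem_append, List.mem_singleton] at hL ⊢
  rcases hL with hL | rfl
  · exact labels_closed P [] L hL N V a
  · exact Or.inr rfl

/-! ### The lazy run -/

section
variable (P : Prog) (x : Str) (R : ℕ → Bool)

/-- answer to the query in a configuration, given the history -/
def ansOf (c : Cfg) (h : List (Str × Bool)) (r : Bool) : Bool := (h.lookup (asked c)).getD r

/-- configuration and history after `t` steps, where `R t` is the answer to the query of step `t`
if the query is new -/
def lz : ℕ → Cfg × List (Str × Bool)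
  | 0 => (start P x, [])
  | t + 1 => (stepA (ansOf (lz t).1 (lz t).2 (R t)) false (lz t).1,
      (asked (lz t).1, ansOf (lz t).1 (lz t).2 (R t)) :: (lz t).2)

/-- the answer in step `t` -/
def ans (t : ℕ) : Bool := ansOf (lz P x R t).1 (lz P x R t).2 (R t)

/-- the string asked in step `t` -/
def qry (t : ℕ) : Str := asked (lz P x R t).1

theorem lz_succ (t : ℕ) : lz P x R (t + 1)
    = (stepA (ans P x R t) false (lz P x R t).1, (qry P x R t, ans P x R t) :: (lz P x R t).2) :=
  rfl

theorem lz_cons {t t' : ℕ} (h : t' < t) :
    (lz P x R t).2.lookup (qry P x R t') = some (ans P x R t') := by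
  induction t with
  | zero => omega
  | succ t ih =>
    rw [lz_succ, List.lookup_cons]
    by_cases he : qry P x R t' = qry P x R t
    · rw [he, beq_self_eq_true]
      rcases Nat.lt_succ_iff_lt_or_eq.1 h with h1 | rfl
      · have := ih h1
        have e : ans P x R t = ans P x R t' := by
          unfold ans ansOf
          change Option.getD (List.lookup (qry P x R t) _) _ = _
          rw [← he, this]
          rfl
        rw [e]
      · rfl
    · have hb : (qry P x R t' == qry P x R t) = false := by simpa using he
      rw [hb]
      apply ih
      rcases Nat.lt_succ_iff_lt_or_eq.1 h with h1 | rfl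
      · exact h1
      · exact absurd rfl he

/-- an oracle giving the same run -/
def orc (t : ℕ) : Oracle := fun q => ((lz P x R t).2.lookup q).getD false

theorem lz_run (t : ℕ) : ∀ t' ≤ t,
    run (orc P x R t) (fun _ => false) (start P x) t' = (lz P x R t').1 := by
  intro t'
  induction t' with
  | zero => intro _; rfl
  | succ t' ih =>
    intro h
    rw [run_succ, ih (by omega), step_eq, lz_succ]
    have : orc P x R t (asked (lz P x R t').1) = ans P x R t' := by
      have := lz_cons P x R (t := t) (t' := t') (by omega)
      unfold orc
      change Option.getD (List.lookup (qry P x R t') _) _ = _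
      rw [this]; rfl
    rw [this]

theorem lz_label (t : ℕ) : (lz P x R t).1.1 ∈ Lam P := by
  induction t with
  | zero => exact Lam_start P
  | succ t ih =>
    rw [lz_succ]
    rcases hc : (lz P x R t).1 with ⟨L, σ⟩
    rw [hc] at ih
    simp only [stepA_eq]
    exact Lam_closed P ih _ _ _

theorem lz_bd (t : ℕ) : ∀ p ∈ (lz P x R t).1.1, p.bd ≤ P.bd := by
  have := (run_bd (orc P x R t) (fun _ => false) P.bd [P] (fun s => if s = 0 then x else [])
    (by simp) t).1
  have e := lz_run P x R t t le_rfl
  rw [← e]
  exact this

/-- the machine has halted for every oracle after `T` steps -/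
theorem lz_len {T : ℕ} (hT : ∀ Z : Oracle, (run Z (fun _ => false) (start P x) T).1 = [])
    (t s : ℕ) : ((lz P x R t).1.2 s).length ≤ x.length + T := by
  have e := lz_run P x R t t le_rfl
  have h0 : ((start P x).2 s).length ≤ x.length := by
    simp only [start]; split_ifs <;> simp
  rw [← e]
  rcases le_total t T with h | h
  · have := run_len (orc P x R t) (fun _ => false) (start P x) s t
    omega
  · rw [run_halt_of_le _ _ _ h (hT _)]
    have := run_len (orc P x R t) (fun _ => false) (start P x) s T
    omega

theorem lz_halt {T : ℕ} (hT : ∀ Z : Oracle, (run Z (fun _ => false) (start P x) T).1 = [])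
    {t : ℕ} (ht : T ≤ t) : (lz P x R t).1.1 = [] := by
  rw [← lz_run P x R t t le_rfl, run_halt_of_le _ _ _ ht (hT _)]
  exact hT _

/-! ### The look-up tables -/

/-- was `q` asked before step `b`? -/
def fnd (q : Str) : ℕ → Bool
  | 0 => false
  | b + 1 => fnd q b || decide (qry P x R b = q)

/-- the last answer to `q` before step `b` -/
def vl (q : Str) : ℕ → Bool
  | 0 => false
  | b + 1 => if qry P x R b = q then ans P x R b else vl q b

theorem lookup_eq (q : Str) (t : ℕ) : (lz P x R t).2.lookup q
    = if fnd P x R q t then some (vl P x R q t) else none := by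
  induction t with
  | zero => rfl
  | succ t ih =>
    rw [lz_succ, List.lookup_cons]
    by_cases he : qry P x R t = q
    · have hb : (q == qry P x R t) = true := by simp [he]
      rw [hb]
      simp [fnd, vl, he]
    · have hb : (q == qry P x R t) = false := by
        rw [beq_eq_false_iff_ne]; exact fun h => he h.symm
      rw [hb]
      simp [fnd, vl, he, ih]

theorem ans_eq (t : ℕ) : ans P x R t = if fnd P x R (qry P x R t) t then
    vl P x R (qry P x R t) t else R t := by
  unfold ans ansOf
  change Option.getD (List.lookup (qry P x R t) _) _ = _
  rw [lookup_eq]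
  split_ifs <;> rfl

end

end Pool.Agent.H93.RO
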