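import Pool.Agent.H93.RO.Sem

namespace Pool.Agent.H93.RO

/-! ### Coordinates -/

abbrev cT : Co := (false, false, false)
abbrev cTi : Co := (false, false, true)
abbrev cU : Co := (true, false, false)
abbrev cUi : Co := (true, false, true)
abbrev cD : Co := (false, true, false)
abbrev cDi : Co := (false, true, true)
abbrev cZ : Co := (true, true, false)
abbrev cM : Co := (true, true, true)

/-! ### Decoding labels and cells -/

/-- addresses of the label bits -/
def pcs (Λ : List (List Prog)) (c : Co) : List Adr :=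
  (List.range Λ.length).map (fun q => (5 + 3 * q, c, cZ, cZ))

/-- addresses of the stack cells at a depth -/
def cls (S : ℕ) (c d : Co) : List Adr :=
  (List.range S).flatMap (fun s => [(6 + 3 * s, c, cZ, d), (7 + 3 * s, c, cZ, d)])

theorem mem_pcs {Λ : List (List Prog)} {c : Co} {q : ℕ} (hq : q < Λ.length) :
    ((5 + 3 * q, c, cZ, cZ) : Adr) ∈ pcs Λ c :=
  List.mem_map.2 ⟨q, List.mem_range.2 hq, rfl⟩

theorem mem_clsN {S : ℕ} {c d : Co} {s : ℕ} (hs : s < S) :
    ((6 + 3 * s, c, cZ, d) : Adr) ∈ cls S c d :=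
  List.mem_flatMap.2 ⟨s, List.mem_range.2 hs, by simp⟩

theorem mem_clsV {S : ℕ} {c d : Co} {s : ℕ} (hs : s < S) :
    ((7 + 3 * s, c, cZ, d) : Adr) ∈ cls S c d :=
  List.mem_flatMap.2 ⟨s, List.mem_range.2 hs, by simp⟩

/-- decode the label -/
def labOf (Λ : List (List Prog)) (φ : Adr → Bool) (c : Co) : List Prog :=
  match (List.range Λ.length).find? (fun q => φ (5 + 3 * q, c, cZ, cZ)) with
  | some q => Λ.getD q []
  | none => []

theorem find_congr {α : Type} {l : List α} {p p' : α → Bool} (h : ∀ a ∈ l, p a = p' a) :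
    l.find? p = l.find? p' := by
  induction l with
  | nil => rfl
  | cons a l ih =>
    rw [List.find?_cons, List.find?_cons, h a (by simp), ih fun b hb => h b (by simp [hb])]

theorem labOf_congr {Λ : List (List Prog)} {φ ψ : Adr → Bool} {c : Co}
    (h : ∀ A ∈ pcs Λ c, φ A = ψ A) : labOf Λ φ c = labOf Λ ψ c := by
  unfold labOf
  rw [find_congr fun q hq => h _ (mem_pcs (List.mem_range.1 hq))]

theorem labOf_eq {Λ : List (List Prog)} {φ : Adr → Bool} {c : Co} {L : List Prog} (hL : L ∈ Λ)
    (h : ∀ q < Λ.length, φ (5 + 3 * q, c, cZ, cZ) = decide (Λ.getD q [] = L)) :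
    labOf Λ φ c = L := by
  unfold labOf
  rw [find_congr (p' := fun q => decide (Λ.getD q [] = L)) fun q hq => h q (List.mem_range.1 hq)]
  rcases hf : (List.range Λ.length).find? (fun q => decide (Λ.getD q [] = L)) with _ | q
  · rw [List.find?_eq_none] at hf
    obtain ⟨i, hi, rfl⟩ := List.getElem_of_mem hL
    have := hf i (List.mem_range.2 hi)
    simp [List.getD_eq_getElem?_getD, hi] at this
  · have := List.find?_some hf
    simpa using this

/-- decode the cell of the queried string -/
def cellOf (Λ : List (List Prog)) (S : ℕ) (φ : Adr → Bool) (c d : Co) : Option Bool :=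
  match askS (labOf Λ φ c) with
  | some s => if s < S then
      (if φ (6 + 3 * s, c, cZ, d) then some (φ (7 + 3 * s, c, cZ, d)) else none) else none
  | none => none

theorem cellOf_congr {Λ : List (List Prog)} {S : ℕ} {φ ψ : Adr → Bool} {c d : Co}
    (h : ∀ A ∈ pcs Λ c, φ A = ψ A) (h' : ∀ A ∈ cls S c d, φ A = ψ A) :
    cellOf Λ S φ c d = cellOf Λ S ψ c d := by
  unfold cellOf
  rw [labOf_congr h]
  rcases askS (labOf Λ ψ c) with _ | s
  · rfl
  · simp only
    by_cases hs : s < S
    · rw [if_pos hs, if_pos hs, h' _ (mem_clsN hs), h' _ (mem_clsV hs)]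
    · rw [if_neg hs, if_neg hs]

/-! ### The rules -/

/-- a constant cell -/
def rConst (X : Adr) (b : Bool) : Rule := ⟨X, [], fun _ => some b, fun _ _ _ => rfl⟩

section
variable (Λ : List (List Prog)) (S : ℕ)

def rPC (q : ℕ) : Rule where
  X := (5 + 3 * q, cTi, cZ, cZ)
  Ys := pcs Λ cT ++ (cls S cT cZ ++ [(3, cT, cZ, cZ)])
  F := fun φ => some (decide (Λ.getD q [] = newLab
    (fun s => decide (s < S) && φ (6 + 3 * s, cT, cZ, cZ))
    (fun s => decide (s < S) && φ (7 + 3 * s, cT, cZ, cZ))
    (φ (3, cT, cZ, cZ)) (labOf Λ φ cT)))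
  dep := by
    intro φ ψ h
    have h1 := labOf_congr (Λ := Λ) (c := cT) fun A hA => h A (by simp [hA])
    have h2 : (fun s => decide (s < S) && φ (6 + 3 * s, cT, cZ, cZ))
        = (fun s => decide (s < S) && ψ (6 + 3 * s, cT, cZ, cZ)) := by
      funext s
      by_cases hs : s < S
      · rw [h _ (List.mem_append_right _ (List.mem_append_left _ (mem_clsN hs)))]
      · simp [hs]
    have h3 : (fun s => decide (s < S) && φ (7 + 3 * s, cT, cZ, cZ))
        = (fun s => decide (s < S) && ψ (7 + 3 * s, cT, cZ, cZ)) := by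
      funext s
      by_cases hs : s < S
      · rw [h _ (List.mem_append_right _ (List.mem_append_left _ (mem_clsV hs)))]
      · simp [hs]
    have h4 : φ (3, cT, cZ, cZ) = ψ (3, cT, cZ, cZ) := h _ (by simp)
    rw [h1, h2, h3, h4]

def rPush0N (s : ℕ) : Rule where
  X := (6 + 3 * s, cTi, cZ, cZ)
  Ys := pcs Λ cT
  F := fun φ => match act (labOf Λ φ cT) with
    | Act.push s' _ => if s' = s then some true else none
    | _ => none
  dep := by intro φ ψ h; rw [labOf_congr h]

def rPush0V (s : ℕ) : Rule where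
  X := (7 + 3 * s, cTi, cZ, cZ)
  Ys := pcs Λ cT
  F := fun φ => match act (labOf Λ φ cT) with
    | Act.push s' b => if s' = s then some b else none
    | _ => none
  dep := by intro φ ψ h; rw [labOf_congr h]

def rPush (k s : ℕ) : Rule where
  X := (k, cTi, cZ, cDi)
  Ys := pcs Λ cT ++ [(k, cT, cZ, cD)]
  F := fun φ => match act (labOf Λ φ cT) with
    | Act.push s' _ => if s' = s then some (φ (k, cT, cZ, cD)) else none
    | _ => none
  dep := by
    intro φ ψ h
    rw [labOf_congr fun A hA => h A (by simp [hA]), h (k, cT, cZ, cD) (by simp)]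

def rPop (k s : ℕ) : Rule where
  X := (k, cTi, cZ, cD)
  Ys := pcs Λ cT ++ [(k, cT, cZ, cDi)]
  F := fun φ => match act (labOf Λ φ cT) with
    | Act.pop s' => if s' = s then some (φ (k, cT, cZ, cDi)) else none
    | _ => none
  dep := by
    intro φ ψ h
    rw [labOf_congr fun A hA => h A (by simp [hA]), h (k, cT, cZ, cDi) (by simp)]

def rOth (k s : ℕ) : Rule where
  X := (k, cTi, cZ, cD)
  Ys := pcs Λ cT ++ [(k, cT, cZ, cD)]
  F := fun φ => match act (labOf Λ φ cT) with
    | Act.push s' _ => if s' = s then none else some (φ (k, cT, cZ, cD))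
    | Act.pop s' => if s' = s then none else some (φ (k, cT, cZ, cD))
    | Act.none => some (φ (k, cT, cZ, cD))
  dep := by
    intro φ ψ h
    rw [labOf_congr fun A hA => h A (by simp [hA]), h (k, cT, cZ, cD) (by simp)]

def rIni0 (X : Adr) : Rule where
  X := X
  Ys := [(6, cZ, cZ, cD)]
  F := fun φ => if φ (6, cZ, cZ, cD) then none else some false
  dep := by intro φ ψ h; rw [h _ (by simp)]

def rEQ0 : Rule where
  X := (0, cT, cU, cZ)
  Ys := (pcs Λ cT ++ cls S cT cZ) ++ (pcs Λ cU ++ cls S cU cZ)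
  F := fun φ => some (decide (cellOf Λ S φ cT cZ = cellOf Λ S φ cU cZ))
  dep := by
    intro φ ψ h
    rw [cellOf_congr (c := cT) (fun A hA => h A (by simp [hA])) (fun A hA => h A (by simp [hA])),
      cellOf_congr (c := cU) (fun A hA => h A (by simp [hA])) (fun A hA => h A (by simp [hA]))]

def rEQ : Rule where
  X := (0, cT, cU, cDi)
  Ys := (0, cT, cU, cD) :: ((pcs Λ cT ++ cls S cT cDi) ++ (pcs Λ cU ++ cls S cU cDi))
  F := fun φ => some (φ (0, cT, cU, cD) && decide (cellOf Λ S φ cT cDi = cellOf Λ S φ cU cDi))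
  dep := by
    intro φ ψ h
    rw [cellOf_congr (c := cT) (fun A hA => h A (by simp [hA])) (fun A hA => h A (by simp [hA])),
      cellOf_congr (c := cU) (fun A hA => h A (by simp [hA])) (fun A hA => h A (by simp [hA])),
      h (0, cT, cU, cD) (by simp)]

def rFD : Rule where
  X := (1, cT, cUi, cZ)
  Ys := [(1, cT, cU, cZ), (0, cT, cU, cM)]
  F := fun φ => some (φ (1, cT, cU, cZ) || φ (0, cT, cU, cM))
  dep := by intro φ ψ h; rw [h (1, cT, cU, cZ) (by simp), h (0, cT, cU, cM) (by simp)]

def rVL : Rule where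
  X := (2, cT, cUi, cZ)
  Ys := [(2, cT, cU, cZ), (0, cT, cU, cM), (3, cU, cZ, cZ)]
  F := fun φ => some (if φ (0, cT, cU, cM) then φ (3, cU, cZ, cZ) else φ (2, cT, cU, cZ))
  dep := by
    intro φ ψ h
    rw [h (2, cT, cU, cZ) (by simp), h (0, cT, cU, cM) (by simp), h (3, cU, cZ, cZ) (by simp)]

def rAN : Rule where
  X := (3, cT, cZ, cZ)
  Ys := [(1, cT, cT, cZ), (2, cT, cT, cZ), (4, cT, cZ, cZ)]
  F := fun φ => some (if φ (1, cT, cT, cZ) then φ (2, cT, cT, cZ) else φ (4, cT, cZ, cZ))
  dep := by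
    intro φ ψ h
    rw [h (1, cT, cT, cZ) (by simp), h (2, cT, cT, cZ) (by simp), h (4, cT, cZ, cZ) (by simp)]

/-- rules for the stack `s` -/
def stackRules (s : ℕ) : List Rule :=
  [rPush0N Λ s, rPush0V Λ s, rPush Λ (6 + 3 * s) s, rPush Λ (7 + 3 * s) s,
    rPop Λ (6 + 3 * s) s, rPop Λ (7 + 3 * s) s, rOth Λ (6 + 3 * s) s, rOth Λ (7 + 3 * s) s,
    rConst (6 + 3 * s, cT, cZ, cM) false, rConst (7 + 3 * s, cT, cZ, cM) false]

/-- initial rules for the stack `s` -/
def iniRules (s : ℕ) : List Rule :=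
  [rConst (6 + 3 * (s + 1), cZ, cZ, cD) false, rConst (7 + 3 * (s + 1), cZ, cZ, cD) false]

end

/-- number of stacks -/
def SS (P : Prog) : ℕ := max P.bd 2

/-- all rules describing the computation of `P` -/
def rulesOf (P : Prog) : List Rule :=
  (List.range (Lam P).length).map
      (fun q => rConst (5 + 3 * q, cZ, cZ, cZ) (decide ((Lam P).getD q [] = [P]))) ++
  ((List.range (Lam P).length).map (rPC (Lam P) (SS P)) ++
  ((List.range (SS P)).flatMap (stackRules (Lam P)) ++
  ((List.range (SS P - 1)).flatMap iniRules ++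
  [rIni0 (6, cZ, cZ, cDi), rIni0 (7, cZ, cZ, cD), rEQ0 (Lam P) (SS P), rEQ (Lam P) (SS P),
    rConst (1, cT, cZ, cZ) false, rFD, rConst (2, cT, cZ, cZ) false, rVL, rAN])))

/-- the rules expressing acceptance -/
def finRules : List Rule := [rConst (9, cM, cZ, cZ) true, rConst (10, cM, cZ, cZ) true]

/-! ### Semantics -/

section
variable (P : Prog) (x : Str) (R : ℕ → Bool)

/-- intended value of the cell with tag `k` and coordinates `a, b, c` -/
def sem (k a b c : ℕ) : Bool :=
  if k = 0 then decide (∀ d ≤ c, (qry P x R a)[d]? = (qry P x R b)[d]?)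
  else if k = 1 then fnd P x R (qry P x R a) b
  else if k = 2 then vl P x R (qry P x R a) b
  else if k = 3 then ans P x R a
  else if k = 4 then R a
  else if k % 3 = 2 then decide ((Lam P).getD ((k - 5) / 3) [] = (lz P x R a).1.1)
  else if k % 3 = 0 then decide (c < ((lz P x R a).1.2 ((k - 6) / 3)).length)
  else ((lz P x R a).1.2 ((k - 7) / 3)).getD c false

theorem sem_pc (q a b c : ℕ) : sem P x R (5 + 3 * q) a b c
    = decide ((Lam P).getD q [] = (lz P x R a).1.1) := by
  have h1 : (5 + 3 * q) % 3 = 2 := by omega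
  have h2 : (5 + 3 * q - 5) / 3 = q := by omega
  unfold sem
  rw [if_neg (by omega), if_neg (by omega), if_neg (by omega), if_neg (by omega),
    if_neg (by omega), if_pos h1, h2]

theorem sem_n (s a b c : ℕ) : sem P x R (6 + 3 * s) a b c
    = decide (c < ((lz P x R a).1.2 s).length) := by
  have h1 : (6 + 3 * s) % 3 = 0 := by omega
  have h2 : (6 + 3 * s - 6) / 3 = s := by omega
  unfold sem
  rw [if_neg (by omega), if_neg (by omega), if_neg (by omega), if_neg (by omega),
    if_neg (by omega), if_neg (by omega), if_pos h1, h2]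

theorem sem_v (s a b c : ℕ) : sem P x R (7 + 3 * s) a b c
    = ((lz P x R a).1.2 s).getD c false := by
  have h2 : (7 + 3 * s - 7) / 3 = s := by omega
  unfold sem
  rw [if_neg (by omega), if_neg (by omega), if_neg (by omega), if_neg (by omega),
    if_neg (by omega), if_neg (by omega), if_neg (by omega), h2]

theorem sem_an (a b c : ℕ) : sem P x R 3 a b c = ans P x R a := rfl
theorem sem_r (a b c : ℕ) : sem P x R 4 a b c = R a := rfl
theorem sem_fd (a b c : ℕ) : sem P x R 1 a b c = fnd P x R (qry P x R a) b := rfl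
theorem sem_vl (a b c : ℕ) : sem P x R 2 a b c = vl P x R (qry P x R a) b := rfl
theorem sem_eq (a b c : ℕ) : sem P x R 0 a b c
    = decide (∀ d ≤ c, (qry P x R a)[d]? = (qry P x R b)[d]?) := rfl

/-- the intended assignment -/
def phi (M n0 n1 n2 : ℕ) (A : Adr) : Bool :=
  sem P x R A.1 (cN M n0 n1 n2 A.2.1) (cN M n0 n1 n2 A.2.2.1) (cN M n0 n1 n2 A.2.2.2)

theorem lab_phi (M n0 n1 n2 : ℕ) (c : Co) : labOf (Lam P) (phi P x R M n0 n1 n2) c
    = (lz P x R (cN M n0 n1 n2 c)).1.1 := by
  apply labOf_eq (lz_label P x R _)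
  intro q _
  exact sem_pc P x R q _ _ _

theorem ask_lt {L : List Prog} {S s : ℕ} (hL : ∀ p ∈ L, p.bd ≤ S) (h : askS L = some s) :
    s < S := by
  rcases L with _ | ⟨p, K⟩
  · simp [askS] at h
  · have hp := hL p (by simp)
    cases p <;> simp only [askS, Option.some.injEq, reduceCtorEq] at h
    subst h
    simp only [Prog.bd, max_le_iff] at hp
    omega

theorem cell_phi (M n0 n1 n2 : ℕ) (c d : Co) :
    cellOf (Lam P) (SS P) (phi P x R M n0 n1 n2) c d
      = (qry P x R (cN M n0 n1 n2 c))[cN M n0 n1 n2 d]? := by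
  unfold cellOf qry
  rw [lab_phi]
  set t := cN M n0 n1 n2 c with ht
  have e : asked (lz P x R t).1 = match askS (lz P x R t).1.1 with
    | some s => (lz P x R t).1.2 s | none => [] := asked_eq _ _
  rw [e]
  rcases hs : askS (lz P x R t).1.1 with _ | s
  · simp
  · simp only
    have hlt : s < SS P := lt_of_lt_of_le (ask_lt (lz_bd P x R t) hs) (le_max_left _ _)
    rw [if_pos hlt]
    have h1 : phi P x R M n0 n1 n2 (6 + 3 * s, c, cZ, d)
        = decide (cN M n0 n1 n2 d < ((lz P x R t).1.2 s).length) := sem_n P x R s _ _ _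
    have h2 : phi P x R M n0 n1 n2 (7 + 3 * s, c, cZ, d)
        = ((lz P x R t).1.2 s).getD (cN M n0 n1 n2 d) false := sem_v P x R s _ _ _
    rw [h1, h2]
    generalize (lz P x R t).1.2 s = w
    generalize cN M n0 n1 n2 d = i
    by_cases hi : i < w.length
    · simp [hi, List.getD_eq_getElem?_getD]
    · simp [hi]

theorem newLab_congr {L : List Prog} {S : ℕ} (hL : ∀ p ∈ L, p.bd ≤ S) {N N' V V' : ℕ → Bool}
    (hN : ∀ s < S, N s = N' s) (hV : ∀ s < S, V s = V' s) (a : Bool) :
    newLab N V a L = newLab N' V' a L := by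
  rcases L with _ | ⟨p, K⟩
  · rfl
  · have hp := hL p (by simp)
    cases p with
    | skip => rfl
    | push s b => rfl
    | pop s e z o =>
      simp only [Prog.bd, max_le_iff] at hp
      simp only [newLab]
      rw [hN s (by omega), hV s (by omega)]
    | query s n y => rfl
    | guess z o => rfl
    | seq p q => rfl
    | loop s p =>
      simp only [Prog.bd, max_le_iff] at hp
      simp only [newLab]
      rw [hN s (by omega)]

theorem lz_lab_succ (t : ℕ) : (lz P x R (t + 1)).1.1
    = newLab (fun s => decide (0 < ((lz P x R t).1.2 s).length))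
      (fun s => ((lz P x R t).1.2 s).headD false) (ans P x R t) (lz P x R t).1.1 := by
  rw [lz_succ]
  exact congrArg Prod.fst (stepA_eq (ans P x R t) (lz P x R t).1.1 (lz P x R t).1.2)

theorem lz_stk_succ (t : ℕ) : (lz P x R (t + 1)).1.2
    = newStk (act (lz P x R t).1.1) (lz P x R t).1.2 := by
  rw [lz_succ]
  exact congrArg Prod.snd (stepA_eq (ans P x R t) (lz P x R t).1.1 (lz P x R t).1.2)

end

end Pool.Agent.H93.RO
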