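import Pool.Agent.H93.RO.Tab

namespace Pool.Agent.H93.RO

section
variable (P : Prog) (x : Str) (R : ℕ → Bool) (l : ℕ)

/-- the intended assignment satisfies the rule -/
def SatI (r : Rule) : Prop :=
  ∀ n0 n1 n2, n0 < 2 ^ l → n1 < 2 ^ l → n2 < 2 ^ l →
    (∀ A ∈ r.Ys, InR l n0 n1 n2 A) → InR l n0 n1 n2 r.X →
    ∀ b, r.F (phi P x R (2 ^ l) n0 n1 n2) = some b → phi P x R (2 ^ l) n0 n1 n2 r.X = b

variable {P x R l}

theorem satI_pc0 (q : ℕ) :
    SatI P x R l (rConst (5 + 3 * q, cZ, cZ, cZ) (decide ((Lam P).getD q [] = [P]))) := by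
  intro n0 n1 n2 _ _ _ _ _ b hF
  simp only [rConst, Option.some.injEq] at hF
  rw [← hF]
  exact sem_pc P x R q _ _ _

theorem satI_pc (q : ℕ) : SatI P x R l (rPC (Lam P) (SS P) q) := by
  intro n0 n1 n2 _ _ _ _ _ b hF
  simp only [rPC, Option.some.injEq] at hF
  rw [← hF]
  have h1 : phi P x R (2 ^ l) n0 n1 n2 (5 + 3 * q, cTi, cZ, cZ)
      = decide ((Lam P).getD q [] = (lz P x R (n0 + 1)).1.1) := sem_pc P x R q _ _ _
  have h2 : labOf (Lam P) (phi P x R (2 ^ l) n0 n1 n2) cT = (lz P x R n0).1.1 :=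
    lab_phi P x R _ _ _ _ _
  have h3 : phi P x R (2 ^ l) n0 n1 n2 (3, cT, cZ, cZ) = ans P x R n0 := rfl
  change phi P x R (2 ^ l) n0 n1 n2 (5 + 3 * q, cTi, cZ, cZ) = _
  rw [h1, h2, h3, lz_lab_succ, newLab_congr (lz_bd P x R n0)]
  · intro s hs
    have hlt : s < SS P := lt_of_lt_of_le hs (le_max_left _ _)
    have : phi P x R (2 ^ l) n0 n1 n2 (6 + 3 * s, cT, cZ, cZ)
      = decide (0 < ((lz P x R n0).1.2 s).length) := sem_n P x R s _ _ _
    rw [this]
    simp [hlt]
  · intro s hs
    have hlt : s < SS P := lt_of_lt_of_le hs (le_max_left _ _)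
    have : phi P x R (2 ^ l) n0 n1 n2 (7 + 3 * s, cT, cZ, cZ)
      = ((lz P x R n0).1.2 s).getD 0 false := sem_v P x R s _ _ _
    rw [this]
    simp only [hlt, decide_true, Bool.true_and]
    cases (lz P x R n0).1.2 s <;> rfl

theorem satI_push0N (s : ℕ) : SatI P x R l (rPush0N (Lam P) s) := by
  intro n0 n1 n2 _ _ _ _ _ b hF
  simp only [rPush0N] at hF
  rw [show labOf (Lam P) (phi P x R (2 ^ l) n0 n1 n2) cT = (lz P x R n0).1.1 from
    lab_phi P x R _ _ _ _ _] at hF
  change sem P x R (6 + 3 * s) (n0 + 1) 0 0 = b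
  rw [sem_n, lz_stk_succ]
  rcases ha : act (lz P x R n0).1.1 with _ | ⟨s', b'⟩ | s'
  · rw [ha] at hF; simp at hF
  · rw [ha] at hF
    simp only at hF
    split_ifs at hF with h
    subst h
    simp only [Option.some.injEq] at hF
    rw [← hF]
    simp [newStk]
  · rw [ha] at hF; simp at hF

theorem satI_push0V (s : ℕ) : SatI P x R l (rPush0V (Lam P) s) := by
  intro n0 n1 n2 _ _ _ _ _ b hF
  simp only [rPush0V] at hF
  rw [show labOf (Lam P) (phi P x R (2 ^ l) n0 n1 n2) cT = (lz P x R n0).1.1 from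
    lab_phi P x R _ _ _ _ _] at hF
  change sem P x R (7 + 3 * s) (n0 + 1) 0 0 = b
  rw [sem_v, lz_stk_succ]
  rcases ha : act (lz P x R n0).1.1 with _ | ⟨s', b'⟩ | s'
  · rw [ha] at hF; simp at hF
  · rw [ha] at hF
    simp only at hF
    split_ifs at hF with h
    subst h
    simp only [Option.some.injEq] at hF
    rw [← hF]
    simp [newStk]
  · rw [ha] at hF; simp at hF

/-- the shape of the stack cells: `f w c` is the value at depth `c` of the stack content `w` -/
structure CellFn (f : Str → ℕ → Bool) : Prop where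
  cons : ∀ b w c, f (b :: w) (c + 1) = f w c
  tail : ∀ w c, f w.tail c = f w (c + 1)

theorem cellFn_n : CellFn (fun w c => decide (c < w.length)) := by
  constructor
  · intro b w c; simp
  · intro w c
    rw [decide_eq_decide, List.length_tail]
    omega

theorem cellFn_v : CellFn (fun w c => w.getD c false) := by
  constructor
  · intro b w c; simp
  · intro w c
    cases w <;> simp

theorem satI_push {k s : ℕ} {f : Str → ℕ → Bool} (hf : CellFn f)
    (hk : ∀ a b c, sem P x R k a b c = f ((lz P x R a).1.2 s) c) :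
    SatI P x R l (rPush (Lam P) k s) := by
  intro n0 n1 n2 _ _ _ _ _ b hF
  simp only [rPush] at hF
  rw [show labOf (Lam P) (phi P x R (2 ^ l) n0 n1 n2) cT = (lz P x R n0).1.1 from
    lab_phi P x R _ _ _ _ _] at hF
  change sem P x R k (n0 + 1) 0 (n2 + 1) = b
  rw [hk, lz_stk_succ]
  rcases ha : act (lz P x R n0).1.1 with _ | ⟨s', b'⟩ | s'
  · rw [ha] at hF; simp at hF
  · rw [ha] at hF
    simp only at hF
    split_ifs at hF with h
    subst h
    simp only [Option.some.injEq] at hF
    rw [← hF]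
    change _ = sem P x R k n0 0 n2
    rw [hk]
    simp only [newStk, Function.update_self]
    exact hf.cons _ _ _
  · rw [ha] at hF; simp at hF

theorem satI_pop {k s : ℕ} {f : Str → ℕ → Bool} (hf : CellFn f)
    (hk : ∀ a b c, sem P x R k a b c = f ((lz P x R a).1.2 s) c) :
    SatI P x R l (rPop (Lam P) k s) := by
  intro n0 n1 n2 _ _ _ _ _ b hF
  simp only [rPop] at hF
  rw [show labOf (Lam P) (phi P x R (2 ^ l) n0 n1 n2) cT = (lz P x R n0).1.1 from
    lab_phi P x R _ _ _ _ _] at hF
  change sem P x R k (n0 + 1) 0 n2 = b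
  rw [hk, lz_stk_succ]
  rcases ha : act (lz P x R n0).1.1 with _ | ⟨s', b'⟩ | s'
  · rw [ha] at hF; simp at hF
  · rw [ha] at hF; simp at hF
  · rw [ha] at hF
    simp only at hF
    split_ifs at hF with h
    subst h
    simp only [Option.some.injEq] at hF
    rw [← hF]
    change _ = sem P x R k n0 0 (n2 + 1)
    rw [hk]
    simp only [newStk, Function.update_self]
    exact hf.tail _ _

theorem satI_oth {k s : ℕ} {f : Str → ℕ → Bool}
    (hk : ∀ a b c, sem P x R k a b c = f ((lz P x R a).1.2 s) c) :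
    SatI P x R l (rOth (Lam P) k s) := by
  intro n0 n1 n2 _ _ _ _ _ b hF
  simp only [rOth] at hF
  rw [show labOf (Lam P) (phi P x R (2 ^ l) n0 n1 n2) cT = (lz P x R n0).1.1 from
    lab_phi P x R _ _ _ _ _] at hF
  change sem P x R k (n0 + 1) 0 n2 = b
  rw [hk, lz_stk_succ]
  have h0 : phi P x R (2 ^ l) n0 n1 n2 (k, cT, cZ, cD) = f ((lz P x R n0).1.2 s) n2 := hk _ _ _
  rw [h0] at hF
  rcases ha : act (lz P x R n0).1.1 with _ | ⟨s', b'⟩ | s'
  · rw [ha] at hF
    simp only [Option.some.injEq] at hF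
    rw [← hF]
    rfl
  · rw [ha] at hF
    simp only at hF
    split_ifs at hF with h
    simp only [Option.some.injEq] at hF
    rw [← hF]
    simp only [newStk]
    rw [Function.update_of_ne (fun e => h e.symm)]
  · rw [ha] at hF
    simp only at hF
    split_ifs at hF with h
    simp only [Option.some.injEq] at hF
    rw [← hF]
    simp only [newStk]
    rw [Function.update_of_ne (fun e => h e.symm)]

variable {T : ℕ} (hT : ∀ Z : Oracle, (run Z (fun _ => false) (start P x) T).1 = [])
  (hl : x.length + T + 2 ≤ 2 ^ l)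

include hT hl in
theorem satI_maxN (s : ℕ) : SatI P x R l (rConst (6 + 3 * s, cT, cZ, cM) false) := by
  intro n0 n1 n2 _ _ _ _ _ b hF
  simp only [rConst, Option.some.injEq] at hF
  rw [← hF]
  change sem P x R (6 + 3 * s) n0 0 (2 ^ l - 1) = false
  rw [sem_n, decide_eq_false_iff_not]
  have := lz_len P x R hT n0 s
  omega

include hT hl in
theorem satI_maxV (s : ℕ) : SatI P x R l (rConst (7 + 3 * s, cT, cZ, cM) false) := by
  intro n0 n1 n2 _ _ _ _ _ b hF
  simp only [rConst, Option.some.injEq] at hF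
  rw [← hF]
  change sem P x R (7 + 3 * s) n0 0 (2 ^ l - 1) = false
  rw [sem_v]
  have := lz_len P x R hT n0 s
  rw [List.getD_eq_getElem?_getD, List.getElem?_eq_none (by omega)]
  rfl

theorem lz_zero_stk (s : ℕ) : (lz P x R 0).1.2 s = if s = 0 then x else [] := rfl

theorem satI_iniN (s : ℕ) : SatI P x R l (rConst (6 + 3 * (s + 1), cZ, cZ, cD) false) := by
  intro n0 n1 n2 _ _ _ _ _ b hF
  simp only [rConst, Option.some.injEq] at hF
  rw [← hF]
  change sem P x R (6 + 3 * (s + 1)) 0 0 n2 = false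
  rw [sem_n, lz_zero_stk]
  simp

theorem satI_iniV (s : ℕ) : SatI P x R l (rConst (7 + 3 * (s + 1), cZ, cZ, cD) false) := by
  intro n0 n1 n2 _ _ _ _ _ b hF
  simp only [rConst, Option.some.injEq] at hF
  rw [← hF]
  change sem P x R (7 + 3 * (s + 1)) 0 0 n2 = false
  rw [sem_v, lz_zero_stk]
  simp

theorem satI_ini0N : SatI P x R l (rIni0 (6, cZ, cZ, cDi)) := by
  intro n0 n1 n2 _ _ _ _ _ b hF
  simp only [rIni0] at hF
  have h0 : phi P x R (2 ^ l) n0 n1 n2 (6, cZ, cZ, cD) = decide (n2 < x.length) :=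
    sem_n P x R 0 0 0 n2
  rw [h0] at hF
  change sem P x R (6 + 3 * 0) 0 0 (n2 + 1) = b
  rw [sem_n, lz_zero_stk]
  split_ifs at hF with h
  simp only [Option.some.injEq] at hF
  rw [← hF]
  simp only [if_true, decide_eq_false_iff_not]
  simp only [decide_eq_true_eq] at h
  omega

theorem satI_ini0V : SatI P x R l (rIni0 (7, cZ, cZ, cD)) := by
  intro n0 n1 n2 _ _ _ _ _ b hF
  simp only [rIni0] at hF
  have h0 : phi P x R (2 ^ l) n0 n1 n2 (6, cZ, cZ, cD) = decide (n2 < x.length) :=
    sem_n P x R 0 0 0 n2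
  rw [h0] at hF
  change sem P x R (7 + 3 * 0) 0 0 n2 = b
  rw [sem_v, lz_zero_stk]
  split_ifs at hF with h
  simp only [Option.some.injEq] at hF
  rw [← hF]
  simp only [if_true]
  simp only [decide_eq_true_eq] at h
  rw [List.getD_eq_getElem?_getD, List.getElem?_eq_none (by omega)]
  rfl

theorem satI_eq0 : SatI P x R l (rEQ0 (Lam P) (SS P)) := by
  intro n0 n1 n2 _ _ _ _ _ b hF
  simp only [rEQ0, Option.some.injEq] at hF
  rw [cell_phi, cell_phi] at hF
  rw [← hF]
  change sem P x R 0 n0 n1 0 = _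
  rw [sem_eq, decide_eq_decide]
  constructor
  · intro h; exact h 0 le_rfl
  · intro h d hd
    have : d = 0 := by omega
    subst this
    exact h

theorem satI_eq : SatI P x R l (rEQ (Lam P) (SS P)) := by
  intro n0 n1 n2 _ _ _ _ _ b hF
  simp only [rEQ, Option.some.injEq] at hF
  rw [cell_phi, cell_phi] at hF
  rw [← hF]
  change sem P x R 0 n0 n1 (n2 + 1) = (sem P x R 0 n0 n1 n2 && _)
  rw [sem_eq, sem_eq, ← Bool.decide_and, decide_eq_decide]
  constructor
  · intro h; exact ⟨fun d hd => h d (by omega), h (n2 + 1) le_rfl⟩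
  · rintro ⟨h1, h2⟩ d hd
    rcases Nat.lt_or_ge d (n2 + 1) with h | h
    · exact h1 d (by omega)
    · have : d = n2 + 1 := by omega
      subst this
      exact h2

theorem satI_fd0 : SatI P x R l (rConst (1, cT, cZ, cZ) false) := by
  intro n0 n1 n2 _ _ _ _ _ b hF
  simp only [rConst, Option.some.injEq] at hF
  rw [← hF]
  rfl

theorem satI_vl0 : SatI P x R l (rConst (2, cT, cZ, cZ) false) := by
  intro n0 n1 n2 _ _ _ _ _ b hF
  simp only [rConst, Option.some.injEq] at hF
  rw [← hF]
  rfl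

include hT hl in
theorem qry_len (t : ℕ) : (qry P x R t).length + 1 < 2 ^ l := by
  have e : qry P x R t = match askS (lz P x R t).1.1 with
    | some s => (lz P x R t).1.2 s | none => [] := asked_eq _ _
  rw [e]
  rcases askS (lz P x R t).1.1 with _ | s
  · simp only [List.length_nil]; omega
  · have := lz_len P x R hT t s
    simp only
    omega

include hT hl in
theorem eq_max (a b : ℕ) : sem P x R 0 a b (2 ^ l - 1) = decide (qry P x R b = qry P x R a) := by
  rw [sem_eq, decide_eq_decide]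
  have ha := qry_len hT hl (R := R) a
  have hb := qry_len hT hl (R := R) b
  constructor
  · intro h
    apply List.ext_getElem?
    intro i
    by_cases hi : i ≤ 2 ^ l - 1
    · exact (h i hi).symm
    · rw [List.getElem?_eq_none (by omega), List.getElem?_eq_none (by omega)]
  · intro h d _
    rw [h]

include hT hl in
theorem satI_fd : SatI P x R l rFD := by
  intro n0 n1 n2 _ _ _ _ _ b hF
  simp only [rFD, Option.some.injEq] at hF
  rw [← hF]
  change sem P x R 1 n0 (n1 + 1) 0 = (sem P x R 1 n0 n1 0 || sem P x R 0 n0 n1 (2 ^ l - 1))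
  rw [eq_max hT hl]
  rfl

include hT hl in
theorem satI_vl : SatI P x R l rVL := by
  intro n0 n1 n2 _ _ _ _ _ b hF
  simp only [rVL, Option.some.injEq] at hF
  rw [← hF]
  change sem P x R 2 n0 (n1 + 1) 0 = if sem P x R 0 n0 n1 (2 ^ l - 1) = true
    then sem P x R 3 n1 0 0 else sem P x R 2 n0 n1 0
  rw [eq_max hT hl, sem_vl, sem_vl, sem_an, vl]
  by_cases h : qry P x R n1 = qry P x R n0 <;> simp [h]

theorem satI_an : SatI P x R l rAN := by
  intro n0 n1 n2 _ _ _ _ _ b hF
  simp only [rAN, Option.some.injEq] at hF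
  rw [← hF]
  change sem P x R 3 n0 0 0 = if sem P x R 1 n0 n0 0 = true then sem P x R 2 n0 n0 0
    else sem P x R 4 n0 0 0
  rw [sem_an, sem_fd, sem_vl, sem_r]
  exact ans_eq P x R n0

include hT hl in
/-- all rules are satisfied by the intended assignment -/
theorem satI_all : ∀ r ∈ rulesOf P, SatI P x R l r := by
  intro r hr
  simp only [rulesOf, List.mem_append, List.mem_map, List.mem_flatMap, List.mem_range] at hr
  rcases hr with ⟨q, _, rfl⟩ | ⟨q, _, rfl⟩ | ⟨s, _, hr⟩ | ⟨s, _, hr⟩ | hr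
  · exact satI_pc0 q
  · exact satI_pc q
  · have hn : ∀ a b c, sem P x R (6 + 3 * s) a b c
        = (fun w c => decide (c < List.length w)) ((lz P x R a).1.2 s) c :=
      fun a b c => sem_n P x R s a b c
    have hv : ∀ a b c, sem P x R (7 + 3 * s) a b c
        = (fun (w : Str) c => w.getD c false) ((lz P x R a).1.2 s) c :=
      fun a b c => sem_v P x R s a b c
    simp only [stackRules, List.mem_cons, List.not_mem_nil, or_false] at hr
    rcases hr with rfl | rfl | rfl | rfl | rfl | rfl | rfl | rfl | rfl | rfl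
    · exact satI_push0N s
    · exact satI_push0V s
    · exact satI_push cellFn_n hn
    · exact satI_push cellFn_v hv
    · exact satI_pop cellFn_n hn
    · exact satI_pop cellFn_v hv
    · exact satI_oth (f := fun w c => decide (c < List.length w)) hn
    · exact satI_oth (f := fun w c => w.getD c false) hv
    · exact satI_maxN hT hl s
    · exact satI_maxV hT hl s
  · simp only [iniRules, List.mem_cons, List.not_mem_nil, or_false] at hr
    rcases hr with rfl | rfl
    · exact satI_iniN s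
    · exact satI_iniV s
  · simp only [List.mem_cons, List.not_mem_nil, or_false] at hr
    rcases hr with rfl | rfl | rfl | rfl | rfl | rfl | rfl | rfl | rfl
    · exact satI_ini0N
    · exact satI_ini0V
    · exact satI_eq0
    · exact satI_eq
    · exact satI_fd0
    · exact satI_fd hT hl
    · exact satI_vl0
    · exact satI_vl hT hl
    · exact satI_an

end

end Pool.Agent.H93.RO
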