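import Pool.Agent.H93.RO.TabA

namespace Pool.Agent.H93.RO

section
variable {P : Prog} {x : Str} {l : ℕ} {Z : Oracle} {R : ℕ → Bool}

/-- applying a rule -/
theorem ap {r : Rule} (hr : RuleOK l Z r) (hs : SatI P x R l r) {n0 n1 n2 : ℕ}
    (h0 : n0 < 2 ^ l) (h1 : n1 < 2 ^ l) (h2 : n2 < 2 ^ l)
    (hY : ∀ A ∈ r.Ys, InR l n0 n1 n2 A) (hX : InR l n0 n1 n2 r.X)
    (hag : ∀ A ∈ r.Ys, Z (cellA l n0 n1 n2 A) = phi P x R (2 ^ l) n0 n1 n2 A)
    (hact : r.F (phi P x R (2 ^ l) n0 n1 n2) ≠ none) :
    Z (cellA l n0 n1 n2 r.X) = phi P x R (2 ^ l) n0 n1 n2 r.X := by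
  obtain ⟨b, hb⟩ := Option.ne_none_iff_exists'.1 hact
  have e1 := hr n0 n1 n2 h0 h1 h2 hY hX b (by rw [← hb]; exact r.dep _ _ hag)
  have e2 := hs n0 n1 n2 h0 h1 h2 hY hX b hb
  rw [e1, e2]

/-- label and stack cells at time `t` are right -/
def StOK (P : Prog) (x : Str) (l : ℕ) (Z : Oracle) (R : ℕ → Bool) (t : ℕ) : Prop :=
  (∀ q < (Lam P).length, Z (cell l (5 + 3 * q) t 0 0) = sem P x R (5 + 3 * q) t 0 0) ∧
  ∀ s < SS P, ∀ d < 2 ^ l, Z (cell l (6 + 3 * s) t 0 d) = sem P x R (6 + 3 * s) t 0 d ∧
    Z (cell l (7 + 3 * s) t 0 d) = sem P x R (7 + 3 * s) t 0 d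

/-- the answer cell at time `t` is right -/
def AnOK (P : Prog) (x : Str) (l : ℕ) (Z : Oracle) (R : ℕ → Bool) (t : ℕ) : Prop :=
  Z (cell l 3 t 0 0) = sem P x R 3 t 0 0

variable {T : ℕ} (hT : ∀ Z : Oracle, (run Z (fun _ => false) (start P x) T).1 = [])
  (hl : x.length + T + 2 ≤ 2 ^ l) (hR : ∀ t, R t = Z (cell l 4 t 0 0))
  (hrules : ∀ r ∈ rulesOf P, RuleOK l Z r)

/-! membership of the rules -/

theorem mem_pc0 {q : ℕ} (hq : q < (Lam P).length) :
    rConst (5 + 3 * q, cZ, cZ, cZ) (decide ((Lam P).getD q [] = [P])) ∈ rulesOf P := by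
  simp only [rulesOf, List.mem_append, List.mem_map, List.mem_range]
  exact Or.inl ⟨q, hq, rfl⟩

theorem mem_pc {q : ℕ} (hq : q < (Lam P).length) : rPC (Lam P) (SS P) q ∈ rulesOf P := by
  simp only [rulesOf, List.mem_append, List.mem_map, List.mem_range]
  exact Or.inr (Or.inl ⟨q, hq, rfl⟩)

theorem mem_stack {s : ℕ} (hs : s < SS P) {r : Rule} (hr : r ∈ stackRules (Lam P) s) :
    r ∈ rulesOf P := by
  simp only [rulesOf, List.mem_append, List.mem_flatMap, List.mem_range]
  exact Or.inr (Or.inr (Or.inl ⟨s, hs, hr⟩))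

theorem mem_ini {s : ℕ} (hs : s + 1 < SS P) {r : Rule} (hr : r ∈ iniRules s) :
    r ∈ rulesOf P := by
  simp only [rulesOf, List.mem_append, List.mem_flatMap, List.mem_range]
  exact Or.inr (Or.inr (Or.inr (Or.inl ⟨s, by omega, hr⟩)))

theorem mem_last {r : Rule} (hr : r ∈ [rIni0 (6, cZ, cZ, cDi), rIni0 (7, cZ, cZ, cD),
    rEQ0 (Lam P) (SS P), rEQ (Lam P) (SS P), rConst (1, cT, cZ, cZ) false, rFD,
    rConst (2, cT, cZ, cZ) false, rVL, rAN]) : r ∈ rulesOf P := by
  simp only [rulesOf, List.mem_append]
  exact Or.inr (Or.inr (Or.inr (Or.inr hr)))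

theorem adr0_cell {u : Str} (hu : u.length = l) (k d : ℕ) :
    adr0 u k (bin u.length d) = cell l k 0 0 d := by
  unfold adr0 cell
  rw [hu, bin_zero]

theorem pow_pos' (l : ℕ) : 0 < 2 ^ l := Nat.two_pow_pos l

include hT hl hrules in
theorem st_zero {u : Str} (hu : u.length = l) (hini : IniOK Z u x) : StOK P x l Z R 0 := by
  have hp := pow_pos' l
  have hsat := satI_all (R := R) hT hl
  have hx : x.length < 2 ^ l := by omega
  -- the stack 0
  have hN : ∀ d < 2 ^ l, Z (cell l (6 + 3 * 0) 0 0 d) = sem P x R (6 + 3 * 0) 0 0 d := by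
    intro d hd
    have e : sem P x R (6 + 3 * 0) 0 0 d = decide (d < x.length) := sem_n P x R 0 0 0 d
    rw [e]
    rcases lt_trichotomy d x.length with h | h | h
    · have := (hini.1 d h).1
      rw [adr0_cell hu] at this
      simpa [h] using this
    · have := hini.2
      rw [adr0_cell hu] at this
      subst h
      simpa using this
    · -- induction beyond the end
      obtain ⟨j, rfl⟩ := Nat.exists_eq_add_of_lt h
      have : ∀ j, x.length + j < 2 ^ l → Z (cell l (6 + 3 * 0) 0 0 (x.length + j)) = false := by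
        intro j
        induction j with
        | zero =>
          intro _
          have := hini.2
          rw [adr0_cell hu] at this
          exact this
        | succ j ih =>
          intro hj
          have e0 : phi P x R (2 ^ l) 0 0 (x.length + j) (6, cZ, cZ, cD) = false := by
            have : phi P x R (2 ^ l) 0 0 (x.length + j) (6, cZ, cZ, cD)
              = decide (x.length + j < x.length) := sem_n P x R 0 0 0 _
            rw [this]; simp
          have hap := ap (n0 := 0) (n1 := 0) (n2 := x.length + j)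
            (hrules _ (mem_last (r := rIni0 (6, cZ, cZ, cDi)) (by simp)))
            (hsat _ (mem_last (r := rIni0 (6, cZ, cZ, cDi)) (by simp))) hp hp (by omega)
            (by
              intro A hA
              simp only [rIni0, List.mem_singleton] at hA
              subst hA
              exact ⟨hp, hp, by change x.length + j < 2 ^ l; omega⟩)
            ⟨hp, hp, by change x.length + j + 1 < 2 ^ l; omega⟩
            (by
              intro A hA
              simp only [rIni0, List.mem_singleton] at hA
              subst hA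
              rw [e0]
              exact ih (by omega))
            (by simp only [rIni0]; rw [e0]; simp)
          have e1 : phi P x R (2 ^ l) 0 0 (x.length + j) (6, cZ, cZ, cDi) = false := by
            have : phi P x R (2 ^ l) 0 0 (x.length + j) (6, cZ, cZ, cDi)
              = decide (x.length + j + 1 < x.length) := sem_n P x R 0 0 0 _
            rw [this, decide_eq_false_iff_not]; omega
          have e2 : (rIni0 (6, cZ, cZ, cDi)).X = (6, cZ, cZ, cDi) := rfl
          rw [e2, e1] at hap
          exact hap
      have h1 := this (j + 1) (by rw [← Nat.add_assoc]; exact hd)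
      rw [← Nat.add_assoc] at h1
      rw [h1]
      symm
      rw [decide_eq_false_iff_not]
      omega
  have hV : ∀ d < 2 ^ l, Z (cell l (7 + 3 * 0) 0 0 d) = sem P x R (7 + 3 * 0) 0 0 d := by
    intro d hd
    have e : sem P x R (7 + 3 * 0) 0 0 d = x.getD d false := sem_v P x R 0 0 0 d
    by_cases h : d < x.length
    · have := (hini.1 d h).2
      rw [adr0_cell hu] at this
      rw [e]
      have e2 : x.getD d false = x[d] := by simp [List.getD_eq_getElem?_getD, h]
      rw [e2]
      exact this
    · have e0 : phi P x R (2 ^ l) 0 0 d (6, cZ, cZ, cD) = false := by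
        have : phi P x R (2 ^ l) 0 0 d (6, cZ, cZ, cD)
          = decide (d < x.length) := sem_n P x R 0 0 0 _
        rw [this]; simpa using h
      have hap := ap (n0 := 0) (n1 := 0) (n2 := d)
        (hrules _ (mem_last (r := rIni0 (7, cZ, cZ, cD)) (by simp)))
        (hsat _ (mem_last (r := rIni0 (7, cZ, cZ, cD)) (by simp))) hp hp hd
        (by
          intro A hA
          simp only [rIni0, List.mem_singleton] at hA
          subst hA
          exact ⟨hp, hp, hd⟩)
        ⟨hp, hp, hd⟩
        (by
          intro A hA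
          simp only [rIni0, List.mem_singleton] at hA
          subst hA
          exact hN d hd)
        (by simp only [rIni0]; rw [e0]; simp)
      exact hap
  constructor
  · intro q hq
    exact ap (n0 := 0) (n1 := 0) (n2 := 0) (hrules _ (mem_pc0 hq)) (hsat _ (mem_pc0 hq)) hp hp hp
      (by intro A hA; simp [rConst] at hA) ⟨hp, hp, hp⟩ (by intro A hA; simp [rConst] at hA)
      (by simp [rConst])
  · intro s hs d hd
    rcases s with _ | s
    · exact ⟨hN d hd, hV d hd⟩
    · constructor
      · have hm : rConst (6 + 3 * (s + 1), cZ, cZ, cD) false ∈ rulesOf P :=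
          mem_ini hs (by simp [iniRules])
        exact ap (n0 := 0) (n1 := 0) (n2 := d) (hrules _ hm) (hsat _ hm) hp hp hd
          (by intro A hA; simp [rConst] at hA) ⟨hp, hp, hd⟩ (by intro A hA; simp [rConst] at hA)
          (by simp [rConst])
      · have hm : rConst (7 + 3 * (s + 1), cZ, cZ, cD) false ∈ rulesOf P :=
          mem_ini hs (by simp [iniRules])
        exact ap (n0 := 0) (n1 := 0) (n2 := d) (hrules _ hm) (hsat _ hm) hp hp hd
          (by intro A hA; simp [rConst] at hA) ⟨hp, hp, hd⟩ (by intro A hA; simp [rConst] at hA)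
          (by simp [rConst])

/-- agreement on label addresses -/
theorem ag_pcs {n0 n1 n2 : ℕ} {c : Co} (h : StOK P x l Z R (cN (2 ^ l) n0 n1 n2 c)) :
    ∀ A ∈ pcs (Lam P) c, Z (cellA l n0 n1 n2 A) = phi P x R (2 ^ l) n0 n1 n2 A := by
  intro A hA
  simp only [pcs, List.mem_map, List.mem_range] at hA
  obtain ⟨q, hq, rfl⟩ := hA
  exact h.1 q hq

theorem ag_cls {n0 n1 n2 : ℕ} {c d : Co} (h : StOK P x l Z R (cN (2 ^ l) n0 n1 n2 c))
    (hd : cN (2 ^ l) n0 n1 n2 d < 2 ^ l) :
    ∀ A ∈ cls (SS P) c d, Z (cellA l n0 n1 n2 A) = phi P x R (2 ^ l) n0 n1 n2 A := by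
  intro A hA
  simp only [cls, List.mem_flatMap, List.mem_range, List.mem_cons, List.not_mem_nil,
    or_false] at hA
  obtain ⟨s, hs, rfl | rfl⟩ := hA
  · exact (h.2 s hs _ hd).1
  · exact (h.2 s hs _ hd).2

theorem in_pcs {n0 n1 n2 : ℕ} {c : Co} (h : cN (2 ^ l) n0 n1 n2 c < 2 ^ l) :
    ∀ A ∈ pcs (Lam P) c, InR l n0 n1 n2 A := by
  intro A hA
  simp only [pcs, List.mem_map, List.mem_range] at hA
  obtain ⟨q, hq, rfl⟩ := hA
  exact ⟨h, pow_pos' l, pow_pos' l⟩

theorem in_cls {n0 n1 n2 : ℕ} {c d : Co} (h : cN (2 ^ l) n0 n1 n2 c < 2 ^ l)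
    (hd : cN (2 ^ l) n0 n1 n2 d < 2 ^ l) : ∀ A ∈ cls (SS P) c d, InR l n0 n1 n2 A := by
  intro A hA
  simp only [cls, List.mem_flatMap, List.mem_range, List.mem_cons, List.not_mem_nil,
    or_false] at hA
  obtain ⟨s, hs, rfl | rfl⟩ := hA
  · exact ⟨h, pow_pos' l, hd⟩
  · exact ⟨h, pow_pos' l, hd⟩

include hT hl hrules in
theorem st_succ {t : ℕ} (ht : t + 1 < 2 ^ l) (hst : StOK P x l Z R t) (han : AnOK P x l Z R t) :
    StOK P x l Z R (t + 1) := by
  have hp := pow_pos' l
  have hsat := satI_all (R := R) hT hl
  have ht' : t < 2 ^ l := by omega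
  constructor
  · intro q hq
    refine ap (n0 := t) (n1 := 0) (n2 := 0) (hrules _ (mem_pc hq)) (hsat _ (mem_pc hq)) ht' hp hp
      ?_ ⟨ht, hp, hp⟩ ?_ (by simp [rPC])
    · intro A hA
      simp only [rPC, List.mem_append, List.mem_singleton] at hA
      rcases hA with hA | hA | rfl
      · exact in_pcs (P := P) (c := cT) ht' A hA
      · exact in_cls (P := P) (c := cT) (d := cZ) ht' hp A hA
      · exact ⟨ht', hp, hp⟩
    · intro A hA
      simp only [rPC, List.mem_append, List.mem_singleton] at hA
      rcases hA with hA | hA | rfl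
      · exact ag_pcs (n0 := t) (n1 := 0) (n2 := 0) (c := cT) hst A hA
      · exact ag_cls (n0 := t) (n1 := 0) (n2 := 0) (c := cT) (d := cZ) hst hp A hA
      · exact han
  · intro s hs
    have hlab : ∀ n2, labOf (Lam P) (phi P x R (2 ^ l) t 0 n2) cT = (lz P x R t).1.1 :=
      fun n2 => lab_phi P x R _ _ _ _ _
    -- generic treatment of the two tags
    have main : ∀ k : ℕ, (k = 6 + 3 * s ∨ k = 7 + 3 * s) →
        (∀ d < 2 ^ l, Z (cell l k t 0 d) = sem P x R k t 0 d) →
        rPush (Lam P) k s ∈ rulesOf P → rPop (Lam P) k s ∈ rulesOf P →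
        rOth (Lam P) k s ∈ rulesOf P → rConst (k, cT, cZ, cM) false ∈ rulesOf P →
        (∀ b, act (lz P x R t).1.1 = Act.push s b →
          Z (cell l k (t + 1) 0 0) = sem P x R k (t + 1) 0 0) →
        ∀ d < 2 ^ l, Z (cell l k (t + 1) 0 d) = sem P x R k (t + 1) 0 d := by
      intro k _ hk m1 m2 m3 m4 h0 d hd
      have oth : (∀ b, act (lz P x R t).1.1 ≠ Act.push s b) → act (lz P x R t).1.1 ≠ Act.pop s →
          Z (cell l k (t + 1) 0 d) = sem P x R k (t + 1) 0 d := by
        intro g1 g2
        refine ap (n0 := t) (n1 := 0) (n2 := d) (hrules _ m3) (hsat _ m3) ht' hp hd ?_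
          ⟨ht, hp, hd⟩ ?_ ?_
        · intro A hA
          simp only [rOth, List.mem_append, List.mem_singleton] at hA
          rcases hA with hA | rfl
          · exact in_pcs (P := P) (c := cT) ht' A hA
          · exact ⟨ht', hp, hd⟩
        · intro A hA
          simp only [rOth, List.mem_append, List.mem_singleton] at hA
          rcases hA with hA | rfl
          · exact ag_pcs (n0 := t) (n1 := 0) (n2 := d) (c := cT) hst A hA
          · exact hk d hd
        · simp only [rOth]
          rw [hlab]
          rcases ha : act (lz P x R t).1.1 with _ | ⟨s', b'⟩ | s'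
          · simp
          · have : s' ≠ s := by rintro rfl; exact g1 b' ha
            simp [this]
          · have : s' ≠ s := by rintro rfl; exact g2 ha
            simp [this]
      rcases ha : act (lz P x R t).1.1 with _ | ⟨s', b'⟩ | s'
      · exact oth (by rw [ha]; simp) (by rw [ha]; simp)
      · by_cases hss : s' = s
        · subst hss
          rcases d with _ | d
          · exact h0 b' ha
          · refine ap (n0 := t) (n1 := 0) (n2 := d) (hrules _ m1) (hsat _ m1) ht' hp (by omega) ?_
              ⟨ht, hp, hd⟩ ?_ ?_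
            · intro A hA
              simp only [rPush, List.mem_append, List.mem_singleton] at hA
              rcases hA with hA | rfl
              · exact in_pcs (P := P) (c := cT) ht' A hA
              · exact ⟨ht', hp, by change d < 2 ^ l; omega⟩
            · intro A hA
              simp only [rPush, List.mem_append, List.mem_singleton] at hA
              rcases hA with hA | rfl
              · exact ag_pcs (n0 := t) (n1 := 0) (n2 := d) (c := cT) hst A hA
              · exact hk d (by omega)
            · simp only [rPush]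
              rw [hlab, ha]
              simp
        · exact oth (by rw [ha]; intro b h; injection h with h1 h2; exact hss h1)
            (by rw [ha]; simp)
      · by_cases hss : s' = s
        · subst hss
          by_cases hmax : d + 1 < 2 ^ l
          · refine ap (n0 := t) (n1 := 0) (n2 := d) (hrules _ m2) (hsat _ m2) ht' hp hd ?_
              ⟨ht, hp, hd⟩ ?_ ?_
            · intro A hA
              simp only [rPop, List.mem_append, List.mem_singleton] at hA
              rcases hA with hA | rfl
              · exact in_pcs (P := P) (c := cT) ht' A hA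
              · exact ⟨ht', hp, hmax⟩
            · intro A hA
              simp only [rPop, List.mem_append, List.mem_singleton] at hA
              rcases hA with hA | rfl
              · exact ag_pcs (n0 := t) (n1 := 0) (n2 := d) (c := cT) hst A hA
              · exact hk (d + 1) hmax
            · simp only [rPop]
              rw [hlab, ha]
              simp
          · have hdm : d = 2 ^ l - 1 := by omega
            subst hdm
            exact ap (n0 := t + 1) (n1 := 0) (n2 := 0) (hrules _ m4) (hsat _ m4) ht hp hp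
              (by intro A hA; simp [rConst] at hA) ⟨ht, hp, by change 2 ^ l - 1 < 2 ^ l; omega⟩
              (by intro A hA; simp [rConst] at hA) (by simp [rConst])
        · exact oth (by rw [ha]; simp)
            (by rw [ha]; intro h; injection h with h1; exact hss h1)
    have ms : ∀ r ∈ stackRules (Lam P) s, r ∈ rulesOf P := fun r hr => mem_stack hs hr
    have hN := main (6 + 3 * s) (Or.inl rfl) (fun d hd => (hst.2 s hs d hd).1)
      (ms _ (by simp [stackRules])) (ms _ (by simp [stackRules])) (ms _ (by simp [stackRules]))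
      (ms _ (by simp [stackRules])) (by
        intro b ha
        have m : rPush0N (Lam P) s ∈ rulesOf P := ms _ (by simp [stackRules])
        refine ap (n0 := t) (n1 := 0) (n2 := 0) (hrules _ m) (hsat _ m) ht' hp hp ?_
          ⟨ht, hp, hp⟩ ?_ ?_
        · intro A hA
          exact in_pcs (P := P) (c := cT) ht' A hA
        · intro A hA
          exact ag_pcs (n0 := t) (n1 := 0) (n2 := 0) (c := cT) hst A hA
        · simp only [rPush0N]
          rw [hlab, ha]
          simp)
    have hV := main (7 + 3 * s) (Or.inr rfl) (fun d hd => (hst.2 s hs d hd).2)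
      (ms _ (by simp [stackRules])) (ms _ (by simp [stackRules])) (ms _ (by simp [stackRules]))
      (ms _ (by simp [stackRules])) (by
        intro b ha
        have m : rPush0V (Lam P) s ∈ rulesOf P := ms _ (by simp [stackRules])
        refine ap (n0 := t) (n1 := 0) (n2 := 0) (hrules _ m) (hsat _ m) ht' hp hp ?_
          ⟨ht, hp, hp⟩ ?_ ?_
        · intro A hA
          exact in_pcs (P := P) (c := cT) ht' A hA
        · intro A hA
          exact ag_pcs (n0 := t) (n1 := 0) (n2 := 0) (c := cT) hst A hA
        · simp only [rPush0V]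
          rw [hlab, ha]
          simp)
    exact fun d hd => ⟨hN d hd, hV d hd⟩

include hT hl hrules in
theorem eq_ok {a b : ℕ} (ha : a < 2 ^ l) (hb : b < 2 ^ l) (hsa : StOK P x l Z R a)
    (hsb : StOK P x l Z R b) : ∀ d < 2 ^ l, Z (cell l 0 a b d) = sem P x R 0 a b d := by
  have hp := pow_pos' l
  have hsat := satI_all (R := R) hT hl
  intro d
  induction d with
  | zero =>
    intro _
    have m : rEQ0 (Lam P) (SS P) ∈ rulesOf P := mem_last (by simp)
    refine ap (n0 := a) (n1 := b) (n2 := 0) (hrules _ m) (hsat _ m) ha hb hp ?_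
      ⟨ha, hb, hp⟩ ?_ (by simp [rEQ0])
    · intro A hA
      simp only [rEQ0, List.mem_append] at hA
      rcases hA with (hA | hA) | (hA | hA)
      · exact in_pcs (P := P) (c := cT) ha A hA
      · exact in_cls (P := P) (c := cT) (d := cZ) ha hp A hA
      · exact in_pcs (P := P) (c := cU) hb A hA
      · exact in_cls (P := P) (c := cU) (d := cZ) hb hp A hA
    · intro A hA
      simp only [rEQ0, List.mem_append] at hA
      rcases hA with (hA | hA) | (hA | hA)
      · exact ag_pcs (n0 := a) (n1 := b) (n2 := 0) (c := cT) hsa A hA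
      · exact ag_cls (n0 := a) (n1 := b) (n2 := 0) (c := cT) (d := cZ) hsa hp A hA
      · exact ag_pcs (n0 := a) (n1 := b) (n2 := 0) (c := cU) hsb A hA
      · exact ag_cls (n0 := a) (n1 := b) (n2 := 0) (c := cU) (d := cZ) hsb hp A hA
  | succ d ih =>
    intro hd
    have hd' : d < 2 ^ l := by omega
    have m : rEQ (Lam P) (SS P) ∈ rulesOf P := mem_last (by simp)
    refine ap (n0 := a) (n1 := b) (n2 := d) (hrules _ m) (hsat _ m) ha hb hd' ?_
      ⟨ha, hb, hd⟩ ?_ (by simp [rEQ])
    · intro A hA
      simp only [rEQ, List.mem_cons, List.mem_append] at hA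
      rcases hA with rfl | (hA | hA) | (hA | hA)
      · exact ⟨ha, hb, hd'⟩
      · exact in_pcs (P := P) (c := cT) ha A hA
      · exact in_cls (P := P) (c := cT) (d := cDi) ha hd A hA
      · exact in_pcs (P := P) (c := cU) hb A hA
      · exact in_cls (P := P) (c := cU) (d := cDi) hb hd A hA
    · intro A hA
      simp only [rEQ, List.mem_cons, List.mem_append] at hA
      rcases hA with rfl | (hA | hA) | (hA | hA)
      · exact ih hd'
      · exact ag_pcs (n0 := a) (n1 := b) (n2 := d) (c := cT) hsa A hA
      · exact ag_cls (n0 := a) (n1 := b) (n2 := d) (c := cT) (d := cDi) hsa hd A hA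
      · exact ag_pcs (n0 := a) (n1 := b) (n2 := d) (c := cU) hsb A hA
      · exact ag_cls (n0 := a) (n1 := b) (n2 := d) (c := cU) (d := cDi) hsb hd A hA

include hT hl hrules in
theorem fv_ok {a : ℕ} (ha : a < 2 ^ l) (hsa : StOK P x l Z R a) : ∀ b < 2 ^ l,
    (∀ b' < b, StOK P x l Z R b' ∧ AnOK P x l Z R b') →
    Z (cell l 1 a b 0) = sem P x R 1 a b 0 ∧ Z (cell l 2 a b 0) = sem P x R 2 a b 0 := by
  have hp := pow_pos' l
  have hsat := satI_all (R := R) hT hl
  intro b
  induction b with
  | zero =>
    intro _ _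
    constructor
    · have m : rConst (1, cT, cZ, cZ) false ∈ rulesOf P := mem_last (by simp)
      exact ap (n0 := a) (n1 := 0) (n2 := 0) (hrules _ m) (hsat _ m) ha hp hp
        (by intro A hA; simp [rConst] at hA) ⟨ha, hp, hp⟩ (by intro A hA; simp [rConst] at hA)
        (by simp [rConst])
    · have m : rConst (2, cT, cZ, cZ) false ∈ rulesOf P := mem_last (by simp)
      exact ap (n0 := a) (n1 := 0) (n2 := 0) (hrules _ m) (hsat _ m) ha hp hp
        (by intro A hA; simp [rConst] at hA) ⟨ha, hp, hp⟩ (by intro A hA; simp [rConst] at hA)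
        (by simp [rConst])
  | succ b ih =>
    intro hb hall
    have hb' : b < 2 ^ l := by omega
    obtain ⟨i1, i2⟩ := ih hb' fun b' h => hall b' (by omega)
    obtain ⟨hsb, hab⟩ := hall b (by omega)
    have hm : 2 ^ l - 1 < 2 ^ l := by omega
    have he := eq_ok hT hl hrules ha hb' hsa hsb (2 ^ l - 1) hm
    constructor
    · have m : rFD ∈ rulesOf P := mem_last (by simp)
      refine ap (n0 := a) (n1 := b) (n2 := 0) (hrules _ m) (hsat _ m) ha hb' hp ?_
        ⟨ha, hb, hp⟩ ?_ (by simp [rFD])
      · intro A hA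
        simp only [rFD, List.mem_cons, List.not_mem_nil, or_false] at hA
        rcases hA with rfl | rfl
        · exact ⟨ha, hb', hp⟩
        · exact ⟨ha, hb', hm⟩
      · intro A hA
        simp only [rFD, List.mem_cons, List.not_mem_nil, or_false] at hA
        rcases hA with rfl | rfl
        · exact i1
        · exact he
    · have m : rVL ∈ rulesOf P := mem_last (by simp)
      refine ap (n0 := a) (n1 := b) (n2 := 0) (hrules _ m) (hsat _ m) ha hb' hp ?_
        ⟨ha, hb, hp⟩ ?_ (by simp [rVL])
      · intro A hA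
        simp only [rVL, List.mem_cons, List.not_mem_nil, or_false] at hA
        rcases hA with rfl | rfl | rfl
        · exact ⟨ha, hb', hp⟩
        · exact ⟨ha, hb', hm⟩
        · exact ⟨hb', hp, hp⟩
      · intro A hA
        simp only [rVL, List.mem_cons, List.not_mem_nil, or_false] at hA
        rcases hA with rfl | rfl | rfl
        · exact i2
        · exact he
        · exact hab

include hT hl hrules hR in
theorem an_ok {a : ℕ} (ha : a < 2 ^ l) (hsa : StOK P x l Z R a)
    (hall : ∀ b' < a, StOK P x l Z R b' ∧ AnOK P x l Z R b') : AnOK P x l Z R a := by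
  have hp := pow_pos' l
  have hsat := satI_all (R := R) hT hl
  obtain ⟨i1, i2⟩ := fv_ok hT hl hrules ha hsa a ha hall
  have m : rAN ∈ rulesOf P := mem_last (by simp)
  refine ap (n0 := a) (n1 := 0) (n2 := 0) (hrules _ m) (hsat _ m) ha hp hp ?_
    ⟨ha, hp, hp⟩ ?_ (by simp [rAN])
  · intro A hA
    simp only [rAN, List.mem_cons, List.not_mem_nil, or_false] at hA
    rcases hA with rfl | rfl | rfl
    · exact ⟨ha, ha, hp⟩
    · exact ⟨ha, ha, hp⟩
    · exact ⟨ha, hp, hp⟩
  · intro A hA
    simp only [rAN, List.mem_cons, List.not_mem_nil, or_false] at hA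
    rcases hA with rfl | rfl | rfl
    · exact i1
    · exact i2
    · exact (hR a).symm

include hT hl hrules hR in
theorem all_ok {u : Str} (hu : u.length = l) (hini : IniOK Z u x) :
    ∀ t < 2 ^ l, StOK P x l Z R t ∧ AnOK P x l Z R t := by
  intro t
  induction t using Nat.strong_induction_on with
  | _ t ih =>
    intro ht
    rcases t with _ | t
    · have h0 : StOK P x l Z R 0 := st_zero hT hl hrules hu hini
      exact ⟨h0, an_ok hT hl hR hrules ht h0 (by intro b' hb'; omega)⟩
    · obtain ⟨h1, h2⟩ := ih t (by omega) (by omega)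
      have h3 := st_succ hT hl hrules ht h1 h2
      exact ⟨h3, an_ok hT hl hR hrules ht h3 fun b' hb' => ih b' hb' (by omega)⟩

end

end Pool.Agent.H93.RO
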