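import Pool.Agent.H93.RO.TabB

namespace Pool.Agent.H93.RO

/-- the forced cells -/
def Forced (P : Prog) (l k a b c : ℕ) : Prop :=
  a < 2 ^ l ∧ b < 2 ^ l ∧ c < 2 ^ l ∧
    (k = 0 ∨ ((k = 1 ∨ k = 2) ∧ c = 0) ∨ (k = 3 ∧ b = 0 ∧ c = 0) ∨
      (∃ q < (Lam P).length, k = 5 + 3 * q ∧ b = 0 ∧ c = 0) ∨
      (∃ s < SS P, (k = 6 + 3 * s ∨ k = 7 + 3 * s) ∧ b = 0))

/-- bound on the tags -/
def KK (P : Prog) : ℕ := 8 + 3 * ((Lam P).length + SS P)

/-- the set of forced strings -/
noncomputable def FS (P : Prog) (l : ℕ) : Finset Str := by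
  classical
  exact ((Finset.range (KK P) ×ˢ (Finset.range (2 ^ l) ×ˢ (Finset.range (2 ^ l) ×ˢ
    Finset.range (2 ^ l)))).filter (fun p => Forced P l p.1 p.2.1 p.2.2.1 p.2.2.2)).image
    (fun p => cell l p.1 p.2.1 p.2.2.1 p.2.2.2)

theorem mem_FS {P : Prog} {l : ℕ} {s : Str} :
    s ∈ FS P l ↔ ∃ k a b c, Forced P l k a b c ∧ s = cell l k a b c := by
  classical
  unfold FS
  simp only [Finset.mem_image, Finset.mem_filter, Finset.mem_product, Finset.mem_range,
    Prod.exists]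
  constructor
  · rintro ⟨k, a, b, c, ⟨-, h⟩, rfl⟩
    exact ⟨k, a, b, c, h, rfl⟩
  · rintro ⟨k, a, b, c, h, rfl⟩
    refine ⟨k, a, b, c, ⟨⟨?_, h.1, h.2.1, h.2.2.1⟩, h⟩, rfl⟩
    unfold KK
    rcases h.2.2.2 with h | ⟨h | h, -⟩ | ⟨h, -, -⟩ | ⟨q, hq, h, -, -⟩ | ⟨s, hs, h | h, -⟩ <;> omega

theorem card_FS (P : Prog) (l : ℕ) : (FS P l).card ≤ KK P * (2 ^ l * (2 ^ l * 2 ^ l)) := by
  classical
  unfold FS
  refine Finset.card_image_le.trans ((Finset.card_filter_le _ _).trans ?_)
  simp [Finset.card_product]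

/-- the assignment as a function on strings -/
def semS (P : Prog) (x : Str) (l : ℕ) (R : ℕ → Bool) (s : Str) : Bool :=
  sem P x R (s.tail.drop (l + l + l)).length (val ((s.tail.drop (l + l)).take l))
    (val ((s.tail.drop l).take l)) (val (s.tail.take l))

theorem semS_cell (P : Prog) (x : Str) (l : ℕ) (R : ℕ → Bool) {k a b c : ℕ} (ha : a < 2 ^ l)
    (hb : b < 2 ^ l) (hc : c < 2 ^ l) : semS P x l R (cell l k a b c) = sem P x R k a b c := by
  unfold semS cell
  simp only [List.tail_cons]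
  have e1 : (bin l c ++ (bin l b ++ (bin l a ++ List.replicate k true))).take l = bin l c := by
    rw [List.take_left' (by simp)]
  have e2 : ((bin l c ++ (bin l b ++ (bin l a ++ List.replicate k true))).drop l)
      = (bin l b ++ (bin l a ++ List.replicate k true)) := by
    rw [List.drop_left' (by simp)]
  have e3 : ((bin l b ++ (bin l a ++ List.replicate k true))).take l = bin l b := by
    rw [List.take_left' (by simp)]
  have e4 : ((bin l c ++ (bin l b ++ (bin l a ++ List.replicate k true))).drop (l + l))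
      = (bin l a ++ List.replicate k true) := by
    rw [← List.append_assoc, List.drop_left' (by simp)]
  have e5 : (bin l a ++ List.replicate k true).take l = bin l a := by
    rw [List.take_left' (by simp)]
  have e6 : ((bin l c ++ (bin l b ++ (bin l a ++ List.replicate k true))).drop (l + l + l))
      = List.replicate k true := by
    rw [← List.append_assoc, ← List.append_assoc, List.drop_left' (by simp; omega)]
  rw [e1, e4, e5, e6, e2, e3, val_bin l a ha, val_bin l b hb, val_bin l c hc,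
    List.length_replicate]

/-- the free bits -/
def RZ (l : ℕ) (Z : Oracle) (t : ℕ) : Bool := Z (cell l 4 t 0 0)

/-- acceptance by the lazy run -/
def AccL (P : Prog) (x : Str) (R : ℕ → Bool) (t : ℕ) : Prop :=
  ∃ w, (lz P x R t).1.2 1 = true :: w

/-- shape of the addresses occurring in the rules -/
def GoodA (P : Prog) (A : Adr) : Prop :=
  A.1 = 0 ∨ ((A.1 = 1 ∨ A.1 = 2) ∧ A.2.2.2 = cZ) ∨
    ((A.1 = 3 ∨ A.1 = 4) ∧ A.2.2.1 = cZ ∧ A.2.2.2 = cZ) ∨
    (∃ q < (Lam P).length, A.1 = 5 + 3 * q ∧ A.2.2.1 = cZ ∧ A.2.2.2 = cZ) ∨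
    (∃ s < SS P, (A.1 = 6 + 3 * s ∨ A.1 = 7 + 3 * s) ∧ A.2.2.1 = cZ)

theorem good_pcs {P : Prog} {c : Co} {A : Adr} (h : A ∈ pcs (Lam P) c) : GoodA P A := by
  simp only [pcs, List.mem_map, List.mem_range] at h
  obtain ⟨q, hq, rfl⟩ := h
  exact Or.inr (Or.inr (Or.inr (Or.inl ⟨q, hq, rfl, rfl, rfl⟩)))

theorem good_cls {P : Prog} {c d : Co} {A : Adr} (h : A ∈ cls (SS P) c d) : GoodA P A := by
  simp only [cls, List.mem_flatMap, List.mem_range, List.mem_cons, List.not_mem_nil,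
    or_false] at h
  obtain ⟨s, hs, rfl | rfl⟩ := h
  · exact Or.inr (Or.inr (Or.inr (Or.inr ⟨s, hs, Or.inl rfl, rfl⟩)))
  · exact Or.inr (Or.inr (Or.inr (Or.inr ⟨s, hs, Or.inr rfl, rfl⟩)))

theorem SS_two (P : Prog) : 2 ≤ SS P := le_max_right _ _

theorem good_n {P : Prog} {s : ℕ} (hs : s < SS P) (c d : Co) : GoodA P (6 + 3 * s, c, cZ, d) :=
  Or.inr (Or.inr (Or.inr (Or.inr ⟨s, hs, Or.inl rfl, rfl⟩)))

theorem good_v {P : Prog} {s : ℕ} (hs : s < SS P) (c d : Co) : GoodA P (7 + 3 * s, c, cZ, d) :=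
  Or.inr (Or.inr (Or.inr (Or.inr ⟨s, hs, Or.inr rfl, rfl⟩)))

theorem good_rules {P : Prog} {r : Rule} (hr : r ∈ rulesOf P ∨ r ∈ finRules) :
    GoodA P r.X ∧ ∀ A ∈ r.Ys, GoodA P A := by
  have h0 : 0 < SS P := by have := SS_two P; omega
  have h1 : 1 < SS P := by have := SS_two P; omega
  have noY : ∀ A ∈ ([] : List Adr), GoodA P A := by simp
  rcases hr with hr | hr
  swap
  · simp only [finRules, List.mem_cons, List.not_mem_nil, or_false] at hr
    rcases hr with rfl | rfl
    · exact ⟨good_n h1 _ _, noY⟩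
    · exact ⟨good_v h1 _ _, noY⟩
  simp only [rulesOf, List.mem_append, List.mem_map, List.mem_flatMap, List.mem_range] at hr
  rcases hr with ⟨q, hq, rfl⟩ | ⟨q, hq, rfl⟩ | ⟨s, hs, hr⟩ | ⟨s, hs, hr⟩ | hr
  · exact ⟨Or.inr (Or.inr (Or.inr (Or.inl ⟨q, hq, rfl, rfl, rfl⟩))), noY⟩
  · refine ⟨Or.inr (Or.inr (Or.inr (Or.inl ⟨q, hq, rfl, rfl, rfl⟩))), ?_⟩
    intro A hA
    simp only [rPC, List.mem_append, List.mem_singleton] at hA
    rcases hA with hA | hA | rfl
    · exact good_pcs hA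
    · exact good_cls hA
    · exact Or.inr (Or.inr (Or.inl ⟨Or.inl rfl, rfl, rfl⟩))
  · have two : ∀ (k : ℕ) (c d e f : Co), (GoodA P (k, c, cZ, d)) → (GoodA P (k, e, cZ, f)) →
        GoodA P (k, c, cZ, d) ∧ ∀ A ∈ pcs (Lam P) cT ++ [(k, e, cZ, f)], GoodA P A := by
      intro k c d e f g1 g2
      refine ⟨g1, fun A hA => ?_⟩
      simp only [List.mem_append, List.mem_singleton] at hA
      rcases hA with hA | rfl
      · exact good_pcs hA
      · exact g2
    simp only [stackRules, List.mem_cons, List.not_mem_nil, or_false] at hr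
    rcases hr with rfl | rfl | rfl | rfl | rfl | rfl | rfl | rfl | rfl | rfl
    · exact ⟨good_n hs _ _, fun A hA => good_pcs hA⟩
    · exact ⟨good_v hs _ _, fun A hA => good_pcs hA⟩
    · exact two _ _ _ _ _ (good_n hs _ _) (good_n hs _ _)
    · exact two _ _ _ _ _ (good_v hs _ _) (good_v hs _ _)
    · exact two _ _ _ _ _ (good_n hs _ _) (good_n hs _ _)
    · exact two _ _ _ _ _ (good_v hs _ _) (good_v hs _ _)
    · exact two _ _ _ _ _ (good_n hs _ _) (good_n hs _ _)
    · exact two _ _ _ _ _ (good_v hs _ _) (good_v hs _ _)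
    · exact ⟨good_n hs _ _, noY⟩
    · exact ⟨good_v hs _ _, noY⟩
  · have hs' : s + 1 < SS P := by omega
    simp only [iniRules, List.mem_cons, List.not_mem_nil, or_false] at hr
    rcases hr with rfl | rfl
    · exact ⟨good_n hs' _ _, noY⟩
    · exact ⟨good_v hs' _ _, noY⟩
  · have e6 : ∀ c d, GoodA P (6, c, cZ, d) := fun c d => good_n (s := 0) h0 c d
    have e7 : ∀ c d, GoodA P (7, c, cZ, d) := fun c d => good_v (s := 0) h0 c d
    have e0 : ∀ c d e, GoodA P (0, c, d, e) := fun c d e => Or.inl rfl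
    have e1 : ∀ c d, GoodA P (1, c, d, cZ) := fun c d => Or.inr (Or.inl ⟨Or.inl rfl, rfl⟩)
    have e2 : ∀ c d, GoodA P (2, c, d, cZ) := fun c d => Or.inr (Or.inl ⟨Or.inr rfl, rfl⟩)
    have e3 : ∀ c, GoodA P (3, c, cZ, cZ) :=
      fun c => Or.inr (Or.inr (Or.inl ⟨Or.inl rfl, rfl, rfl⟩))
    have e4 : ∀ c, GoodA P (4, c, cZ, cZ) :=
      fun c => Or.inr (Or.inr (Or.inl ⟨Or.inr rfl, rfl, rfl⟩))
    simp only [List.mem_cons, List.not_mem_nil, or_false] at hr
    rcases hr with rfl | rfl | rfl | rfl | rfl | rfl | rfl | rfl | rfl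
    · refine ⟨e6 _ _, fun A hA => ?_⟩
      simp only [rIni0, List.mem_singleton] at hA
      subst hA; exact e6 _ _
    · refine ⟨e7 _ _, fun A hA => ?_⟩
      simp only [rIni0, List.mem_singleton] at hA
      subst hA; exact e6 _ _
    · refine ⟨e0 _ _ _, fun A hA => ?_⟩
      simp only [rEQ0, List.mem_append] at hA
      rcases hA with (hA | hA) | (hA | hA)
      · exact good_pcs hA
      · exact good_cls hA
      · exact good_pcs hA
      · exact good_cls hA
    · refine ⟨e0 _ _ _, fun A hA => ?_⟩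
      simp only [rEQ, List.mem_cons, List.mem_append] at hA
      rcases hA with rfl | (hA | hA) | (hA | hA)
      · exact e0 _ _ _
      · exact good_pcs hA
      · exact good_cls hA
      · exact good_pcs hA
      · exact good_cls hA
    · exact ⟨e1 _ _, noY⟩
    · refine ⟨e1 _ _, fun A hA => ?_⟩
      simp only [rFD, List.mem_cons, List.not_mem_nil, or_false] at hA
      rcases hA with rfl | rfl
      · exact e1 _ _
      · exact e0 _ _ _
    · exact ⟨e2 _ _, noY⟩
    · refine ⟨e2 _ _, fun A hA => ?_⟩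
      simp only [rVL, List.mem_cons, List.not_mem_nil, or_false] at hA
      rcases hA with rfl | rfl | rfl
      · exact e2 _ _
      · exact e0 _ _ _
      · exact e3 _
    · refine ⟨e3 _, fun A hA => ?_⟩
      simp only [rAN, List.mem_cons, List.not_mem_nil, or_false] at hA
      rcases hA with rfl | rfl | rfl
      · exact e1 _ _
      · exact e2 _ _
      · exact e4 _

theorem cell_good {P : Prog} {x : Str} {l : ℕ} {Z : Oracle}
    (h : ∀ s ∈ FS P l, Z s = semS P x l (RZ l Z) s) {n0 n1 n2 : ℕ} {A : Adr}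
    (hg : GoodA P A) (hin : InR l n0 n1 n2 A) :
    Z (cellA l n0 n1 n2 A) = phi P x (RZ l Z) (2 ^ l) n0 n1 n2 A := by
  obtain ⟨k, c1, c2, c3⟩ := A
  obtain ⟨i1, i2, i3⟩ := hin
  simp only at i1 i2 i3
  have key : Forced P l k (cN (2 ^ l) n0 n1 n2 c1) (cN (2 ^ l) n0 n1 n2 c2)
      (cN (2 ^ l) n0 n1 n2 c3) → Z (cellA l n0 n1 n2 (k, c1, c2, c3))
        = phi P x (RZ l Z) (2 ^ l) n0 n1 n2 (k, c1, c2, c3) := by
    intro hf
    have := h _ (mem_FS.2 ⟨_, _, _, _, hf, rfl⟩)
    rw [semS_cell P x l _ i1 i2 i3] at this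
    exact this
  have z0 : cN (2 ^ l) n0 n1 n2 cZ = 0 := rfl
  rcases hg with hg | ⟨hg, h3⟩ | ⟨hg, h2, h3⟩ | ⟨q, hq, hg, h2, h3⟩ | ⟨s, hs, hg, h2⟩
  · exact key ⟨i1, i2, i3, Or.inl hg⟩
  · simp only at hg h3; subst h3
    exact key ⟨i1, i2, i3, Or.inr (Or.inl ⟨hg, z0⟩)⟩
  · simp only at hg h2 h3; subst h2; subst h3
    rcases hg with hg | hg
    · exact key ⟨i1, i2, i3, Or.inr (Or.inr (Or.inl ⟨hg, z0, z0⟩))⟩
    · subst hg
      rfl
  · simp only at hg h2 h3; subst h2; subst h3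
    exact key ⟨i1, i2, i3, Or.inr (Or.inr (Or.inr (Or.inl ⟨q, hq, hg, z0, z0⟩)))⟩
  · simp only at hg h2; subst h2
    exact key ⟨i1, i2, i3, Or.inr (Or.inr (Or.inr (Or.inr ⟨s, hs, hg, z0⟩)))⟩

/-- the patterns for a program -/
def patsP (P : Prog) : List (List Lit) := (rulesOf P ++ finRules).flatMap patsOf

/-- The tableau theorem. -/
theorem tableau {P : Prog} {x u : Str} {l T : ℕ} (hu : u.length = l)
    (hT : ∀ Z : Oracle, (run Z (fun _ => false) (start P x) T).1 = [])
    (hl : x.length + T + 2 ≤ 2 ^ l) (Z : Oracle) :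
    Valid Z u (patsP P) x ↔ (∀ s ∈ FS P l, Z s = semS P x l (RZ l Z) s) ∧
      AccL P x (RZ l Z) (2 ^ l - 1) := by
  have hp := pow_pos' l
  have h1S : 1 < SS P := by have := SS_two P; omega
  have hm : 2 ^ l - 1 < 2 ^ l := by omega
  have hacc : AccL P x (RZ l Z) (2 ^ l - 1) ↔
      sem P x (RZ l Z) (6 + 3 * 1) (2 ^ l - 1) 0 0 = true ∧
      sem P x (RZ l Z) (7 + 3 * 1) (2 ^ l - 1) 0 0 = true := by
    rw [sem_n, sem_v]
    unfold AccL
    rcases (lz P x (RZ l Z) (2 ^ l - 1)).1.2 1 with _ | ⟨b, w⟩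
    · simp
    · simp
  constructor
  · rintro ⟨hini, hpat⟩
    have hrules := (rules_ok l Z u hu (rulesOf P ++ finRules)).1 hpat
    have hr1 : ∀ r ∈ rulesOf P, RuleOK l Z r := fun r hr => hrules r (by simp [hr])
    have hall := all_ok (R := RZ l Z) hT hl (fun _ => rfl) hr1 hu hini
    have hforced : ∀ s ∈ FS P l, Z s = semS P x l (RZ l Z) s := by
      intro s hs
      obtain ⟨k, a, b, c, hf, rfl⟩ := mem_FS.1 hs
      obtain ⟨ha, hb, hc, hk⟩ := hf
      rw [semS_cell P x l _ ha hb hc]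
      rcases hk with rfl | ⟨rfl | rfl, rfl⟩ | ⟨rfl, rfl, rfl⟩ | ⟨q, hq, rfl, rfl, rfl⟩ |
        ⟨s', hs', rfl | rfl, rfl⟩
      · exact eq_ok hT hl hr1 ha hb (hall a ha).1 (hall b hb).1 c hc
      · exact (fv_ok hT hl hr1 ha (hall a ha).1 b hb fun b' h => hall b' (by omega)).1
      · exact (fv_ok hT hl hr1 ha (hall a ha).1 b hb fun b' h => hall b' (by omega)).2
      · exact (hall a ha).2
      · exact (hall a ha).1.1 q hq
      · exact ((hall a ha).1.2 s' hs' c hc).1
      · exact ((hall a ha).1.2 s' hs' c hc).2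
    refine ⟨hforced, hacc.2 ⟨?_, ?_⟩⟩
    · have h9 := hrules (rConst (9, cM, cZ, cZ) true) (by simp [finRules]) 0 0 0 hp hp hp
        (by intro A hA; simp [rConst] at hA) ⟨hm, hp, hp⟩ true rfl
      have := ((hall _ hm).1.2 1 h1S 0 hp).1
      rw [← this]
      exact h9
    · have h10 := hrules (rConst (10, cM, cZ, cZ) true) (by simp [finRules]) 0 0 0 hp hp hp
        (by intro A hA; simp [rConst] at hA) ⟨hm, hp, hp⟩ true rfl
      have := ((hall _ hm).1.2 1 h1S 0 hp).2
      rw [← this]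
      exact h10
  · rintro ⟨hforced, ha⟩
    have h0S : 0 < SS P := by omega
    refine ⟨⟨?_, ?_⟩, ?_⟩
    · intro d hd
      have hd' : d < 2 ^ l := by omega
      have e6 := cell_good hforced (n0 := 0) (n1 := 0) (n2 := d) (A := (6, cZ, cZ, cD))
        (good_n (s := 0) h0S _ _) ⟨hp, hp, hd'⟩
      have e7 := cell_good hforced (n0 := 0) (n1 := 0) (n2 := d) (A := (7, cZ, cZ, cD))
        (good_v (s := 0) h0S _ _) ⟨hp, hp, hd'⟩
      have f6 : phi P x (RZ l Z) (2 ^ l) 0 0 d (6, cZ, cZ, cD) = decide (d < x.length) :=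
        sem_n P x _ 0 0 0 d
      have f7 : phi P x (RZ l Z) (2 ^ l) 0 0 d (7, cZ, cZ, cD) = x.getD d false :=
        sem_v P x _ 0 0 0 d
      rw [adr0_cell hu, adr0_cell hu]
      constructor
      · have : Z (cell l 6 0 0 d) = decide (d < x.length) := by rw [← f6]; exact e6
        rw [this]; simpa using hd
      · have : Z (cell l 7 0 0 d) = x.getD d false := by rw [← f7]; exact e7
        rw [this]
        simp [List.getD_eq_getElem?_getD, hd]
    · have hd' : x.length < 2 ^ l := by omega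
      have e6 := cell_good hforced (n0 := 0) (n1 := 0) (n2 := x.length) (A := (6, cZ, cZ, cD))
        (good_n (s := 0) h0S _ _) ⟨hp, hp, hd'⟩
      have f6 : phi P x (RZ l Z) (2 ^ l) 0 0 x.length (6, cZ, cZ, cD)
          = decide (x.length < x.length) := sem_n P x _ 0 0 0 _
      rw [adr0_cell hu]
      have : Z (cell l 6 0 0 x.length) = decide (x.length < x.length) := by rw [← f6]; exact e6
      rw [this]; simp
    · have : ∀ r ∈ rulesOf P ++ finRules, RuleOK l Z r := by
        intro r hr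
        have hr' : r ∈ rulesOf P ∨ r ∈ finRules := by simpa using hr
        obtain ⟨gX, gY⟩ := good_rules hr'
        intro n0 n1 n2 h0 h1 h2 hY hX b hF
        rw [cell_good hforced gX hX]
        have hF' : r.F (phi P x (RZ l Z) (2 ^ l) n0 n1 n2) = some b := by
          rw [← hF]
          exact r.dep _ _ fun A hA => (cell_good hforced (gY A hA) (hY A hA)).symm
        rcases hr' with hr' | hr'
        · exact satI_all hT hl r hr' n0 n1 n2 h0 h1 h2 hY hX b hF'
        · obtain ⟨a1, a2⟩ := hacc.1 ha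
          simp only [finRules, List.mem_cons, List.not_mem_nil, or_false] at hr'
          rcases hr' with rfl | rfl
          · simp only [rConst, Option.some.injEq] at hF'
            rw [← hF']
            exact a1
          · simp only [rConst, Option.some.injEq] at hF'
            rw [← hF']
            exact a2
      exact (rules_ok l Z u hu (rulesOf P ++ finRules)).2 this

end Pool.Agent.H93.RO
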