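import Pool.Agent.H93.RO.Num

namespace Pool.Agent.H93.RO

/-! ### Addresses, literals, patterns and their codes -/

/-- a coordinate: `(a, b, m)`; `(0,0)`, `(1,0)`, `(0,1)` name the three variables, with `m = 1`
meaning plus one; `(1,1)` is the constant zero (`m = 0`) or maximum (`m = 1`) -/
abbrev Co := Bool × Bool × Bool

/-- an address: tag and three coordinates -/
abbrev Adr := ℕ × Co × Co × Co

/-- a literal -/
abbrev Lit := Adr × Bool

/-- overflow flag followed by the reversed value of the coordinate -/
def coR (u v0 v1 v2 : Str) : Co → Str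
  | (false, false, m) => bc [m] [] (false :: v0.reverse) (incR v0)
  | (true, false, m) => bc [m] [] (false :: v1.reverse) (incR v1)
  | (false, true, m) => bc [m] [] (false :: v2.reverse) (incR v2)
  | (true, true, m) => bc [m] [] (false :: List.replicate u.length false)
      (false :: List.replicate u.length true)

/-- overflow -/
def coOv (u v0 v1 v2 : Str) (c : Co) : Bool := decide ((coR u v0 v1 v2 c).head? = some true)

/-- value -/
def coV (u v0 v1 v2 : Str) (c : Co) : Str := (coR u v0 v1 v2 c).tail.reverse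

theorem coR_ne (u v0 v1 v2 : Str) (c : Co) : coR u v0 v1 v2 c ≠ [] := by
  have h : ∀ w, incR w ≠ [] := by
    intro w
    obtain ⟨c', r', h, -⟩ := stI_fold w true []
    rw [incR, h]; simp
  rcases c with ⟨_ | _, _ | _, _ | _⟩ <;> simp [coR, h]

/-- value of an address -/
def adrV (u v0 v1 v2 : Str) : Adr → Str
  | (k, c1, c2, c3) => coV u v0 v1 v2 c3 ++ (coV u v0 v1 v2 c2 ++
      (coV u v0 v1 v2 c1 ++ List.replicate k true))

/-- overflow of an address -/
def adrOv (u v0 v1 v2 : Str) : Adr → Bool
  | (_, c1, c2, c3) => coOv u v0 v1 v2 c1 || coOv u v0 v1 v2 c2 || coOv u v0 v1 v2 c3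

/-- the literal is satisfied -/
def litB (Z : Oracle) (u v0 v1 v2 : Str) (L : Lit) : Bool :=
  !adrOv u v0 v1 v2 L.1 && (Z (true :: adrV u v0 v1 v2 L.1) == L.2)

/-- all literals of the pattern are satisfied -/
def patB (Z : Oracle) (u v0 v1 v2 : Str) (p : List Lit) : Bool := p.all (litB Z u v0 v1 v2)

def tokTag : ℕ → Str
  | 0 => []
  | k + 1 => [false, false, true] ++ tokTag k

def tokCo : Co → Str
  | (a, b, m) => [true, true, a, b, m]

def tokAdr : Adr → Str
  | (k, c1, c2, c3) => tokTag k ++ (tokCo c1 ++ (tokCo c2 ++ tokCo c3))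

def tokLit (L : Lit) : Str := tokAdr L.1 ++ [false, true, L.2]

def tokPat : List Lit → Str
  | [] => [true, false]
  | L :: p => tokLit L ++ tokPat p

def tokPats : List (List Lit) → Str
  | [] => []
  | p :: ps => tokPat p ++ tokPats ps

/-! ### The interpreter -/

/-- (first bit of `t`) followed by `w` -/
def put1 (t w : Str) : Str := bc t w (false :: w) (true :: w)

/-- (first two bits of `t`) followed by `w` -/
def put2 (t w : Str) : Str := put1 t (put1 t.tail w)

@[simp] theorem put1_cons (b : Bool) (t w : Str) : put1 (b :: t) w = b :: w := by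
  cases b <;> rfl

@[simp] theorem put2_cons (b c : Bool) (t w : Str) : put2 (b :: c :: t) w = b :: c :: w := by
  simp [put2]

theorem put1_len (t w : Str) : (put1 t w).length ≤ w.length + 1 := by
  rcases t with _ | ⟨_ | _, t⟩ <;> simp [put1]

theorem put2_len (t w : Str) : (put2 t w).length ≤ w.length + 2 := by
  have h1 := put1_len t (put1 t.tail w)
  have h2 := put1_len t.tail w
  unfold put2; omega

/-- one step of the interpreter -/
def tstep (Z : Oracle) (u v0 v1 v2 : Str) (s : Str) : Str :=
  bc (pfst s) s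
    (bc (pfst s).tail s
      (bc (pfst s).tail.tail s
        (pr (pfst s).tail.tail.tail (put2 (psnd s) (false :: (psnd s).tail.tail)))
        (pr (pfst s).tail.tail.tail (put2 (psnd s) (true :: (psnd s).tail.tail))))
      (bc (pfst s).tail.tail s
        (pr (pfst s).tail.tail.tail (bc [Z (true :: (psnd s).tail.tail)] []
          (put2 (psnd s) []) (false :: put1 (psnd s).tail [])))
        (pr (pfst s).tail.tail.tail (bc [Z (true :: (psnd s).tail.tail)] []
          (false :: put1 (psnd s).tail []) (put2 (psnd s) [])))))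
    (bc (pfst s).tail s
      (pr (pfst s).tail.tail (true :: bc (psnd s) [] (put1 (psnd s).tail []) [true]))
      (pr (pfst s).tail.tail.tail.tail.tail
        (bc (coR u v0 v1 v2 ((pfst s).tail.tail.headD false,
              (pfst s).tail.tail.tail.headD false, (pfst s).tail.tail.tail.tail.headD false))
          []
          (put2 (psnd s) ((coR u v0 v1 v2 ((pfst s).tail.tail.headD false,
              (pfst s).tail.tail.tail.headD false,
              (pfst s).tail.tail.tail.tail.headD false)).tail.reverse ++ (psnd s).tail.tail))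
          (false :: put1 (psnd s).tail ((coR u v0 v1 v2 ((pfst s).tail.tail.headD false,
              (pfst s).tail.tail.tail.headD false,
              (pfst s).tail.tail.tail.tail.headD false)).tail.reverse
              ++ (psnd s).tail.tail)))))

section
variable (Z : Oracle) (u v0 v1 v2 : Str)

theorem tstep_nil (t : Str) : tstep Z u v0 v1 v2 (pr [] t) = pr [] t := by
  simp [tstep, pfst, psnd]

theorem tstep_push (b : Bool) (rest : Str) (ok res : Bool) (buf : Str) :
    tstep Z u v0 v1 v2 (pr (false :: false :: b :: rest) (ok :: res :: buf))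
      = pr rest (ok :: res :: b :: buf) := by
  unfold tstep
  rw [pfst_pr, psnd_pr]
  cases b <;> simp

theorem tstep_test (b : Bool) (rest : Str) (ok res : Bool) (buf : Str) :
    tstep Z u v0 v1 v2 (pr (false :: true :: b :: rest) (ok :: res :: buf))
      = pr rest ((ok && (Z (true :: buf) == b)) :: res :: []) := by
  unfold tstep
  rw [pfst_pr, psnd_pr]
  simp only [List.tail_cons, bc_false, bc_true]
  cases b <;> cases Z (true :: buf) <;> simp

theorem tstep_end (rest : Str) (ok res : Bool) (buf : Str) :
    tstep Z u v0 v1 v2 (pr (true :: false :: rest) (ok :: res :: buf))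
      = pr rest (true :: (res || ok) :: []) := by
  unfold tstep
  rw [pfst_pr, psnd_pr]
  cases ok <;> simp

theorem tstep_co (c : Co) (rest : Str) (ok res : Bool) (buf : Str) :
    tstep Z u v0 v1 v2 (pr (tokCo c ++ rest) (ok :: res :: buf))
      = pr rest ((ok && !coOv u v0 v1 v2 c) :: res :: (coV u v0 v1 v2 c ++ buf)) := by
  obtain ⟨a, b, m⟩ := c
  unfold tstep
  rw [pfst_pr, psnd_pr]
  simp only [tokCo, List.cons_append, List.nil_append, List.tail_cons, bc_true,
    List.headD_cons]
  have hne := coR_ne u v0 v1 v2 (a, b, m)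
  rw [coOv, coV]
  rcases hR : coR u v0 v1 v2 (a, b, m) with _ | ⟨_ | _, R⟩
  · exact absurd hR hne
  · simp
  · simp

/-- processing the token string `T` changes the state in the given way -/
def Rch (T : Str) (ok res : Bool) (buf : Str) (ok' res' : Bool) (buf' : Str) : Prop :=
  ∀ rest, ∃ k ≤ T.length, (tstep Z u v0 v1 v2)^[k] (pr (T ++ rest) (ok :: res :: buf))
    = pr rest (ok' :: res' :: buf')

variable {Z u v0 v1 v2}

theorem Rch.comp {T1 T2 : Str} {a b : Bool} {x : Str} {c d : Bool} {y : Str} {e f : Bool}
    {w : Str} (h1 : Rch Z u v0 v1 v2 T1 a b x c d y) (h2 : Rch Z u v0 v1 v2 T2 c d y e f w) :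
    Rch Z u v0 v1 v2 (T1 ++ T2) a b x e f w := by
  intro rest
  obtain ⟨k1, hk1, h1⟩ := h1 (T2 ++ rest)
  obtain ⟨k2, hk2, h2⟩ := h2 rest
  refine ⟨k2 + k1, by simp; omega, ?_⟩
  rw [Function.iterate_add_apply, List.append_assoc, h1, h2]

theorem Rch.tag (k : ℕ) (ok res : Bool) (buf : Str) :
    Rch Z u v0 v1 v2 (tokTag k) ok res buf ok res (List.replicate k true ++ buf) := by
  induction k generalizing buf with
  | zero => exact fun rest => ⟨0, by simp, rfl⟩
  | succ k ih =>
    have h1 : Rch Z u v0 v1 v2 [false, false, true] ok res buf ok res (true :: buf) :=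
      fun rest => ⟨1, by simp, tstep_push Z u v0 v1 v2 true rest ok res buf⟩
    have := h1.comp (ih (true :: buf))
    rw [List.replicate_succ', List.append_assoc]
    exact this

theorem Rch.co (c : Co) (ok res : Bool) (buf : Str) :
    Rch Z u v0 v1 v2 (tokCo c) ok res buf (ok && !coOv u v0 v1 v2 c) res
      (coV u v0 v1 v2 c ++ buf) :=
  fun rest => ⟨1, by simp [tokCo], tstep_co Z u v0 v1 v2 c rest ok res buf⟩

theorem Rch.lit (L : Lit) (ok res : Bool) :
    Rch Z u v0 v1 v2 (tokLit L) ok res [] (ok && litB Z u v0 v1 v2 L) res [] := by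
  obtain ⟨⟨k, c1, c2, c3⟩, b⟩ := L
  have h1 := (Rch.tag (Z := Z) (u := u) (v0 := v0) (v1 := v1) (v2 := v2) k ok res []).comp
    ((Rch.co c1 ok res _).comp ((Rch.co c2 _ res _).comp (Rch.co c3 _ res _)))
  have h2 : Rch Z u v0 v1 v2 [false, true, b] (((ok && !coOv u v0 v1 v2 c1) &&
      !coOv u v0 v1 v2 c2) && !coOv u v0 v1 v2 c3) res (coV u v0 v1 v2 c3 ++
        (coV u v0 v1 v2 c2 ++ (coV u v0 v1 v2 c1 ++ (List.replicate k true ++ []))))
      _ res [] := fun rest => ⟨1, by simp, tstep_test Z u v0 v1 v2 b rest _ res _⟩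
  have h3 := h1.comp h2
  have e : ((((ok && !coOv u v0 v1 v2 c1) && !coOv u v0 v1 v2 c2) && !coOv u v0 v1 v2 c3) &&
      (Z (true :: (coV u v0 v1 v2 c3 ++ (coV u v0 v1 v2 c2 ++ (coV u v0 v1 v2 c1 ++
        (List.replicate k true ++ []))))) == b))
      = (ok && litB Z u v0 v1 v2 ((k, c1, c2, c3), b)) := by
    simp only [litB, adrOv, adrV, List.append_nil]
    cases ok <;> cases coOv u v0 v1 v2 c1 <;> cases coOv u v0 v1 v2 c2 <;>
      cases coOv u v0 v1 v2 c3 <;> rfl
  rw [e] at h3
  exact h3

theorem Rch.pat (p : List Lit) (ok res : Bool) :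
    Rch Z u v0 v1 v2 (tokPat p) ok res [] true (res || (ok && patB Z u v0 v1 v2 p)) [] := by
  induction p generalizing ok with
  | nil =>
    intro rest
    refine ⟨1, by simp [tokPat], ?_⟩
    have := tstep_end Z u v0 v1 v2 rest ok res []
    simpa [patB, tokPat] using this
  | cons L p ih =>
    have := (Rch.lit (Z := Z) (u := u) (v0 := v0) (v1 := v1) (v2 := v2) L ok res).comp
      (ih (ok && litB Z u v0 v1 v2 L))
    have e : (res || (ok && litB Z u v0 v1 v2 L && patB Z u v0 v1 v2 p))
        = (res || (ok && patB Z u v0 v1 v2 (L :: p))) := by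
      simp [patB, Bool.and_assoc]
    rw [e] at this
    exact this

theorem Rch.pats (ps : List (List Lit)) (res : Bool) :
    Rch Z u v0 v1 v2 (tokPats ps) true res [] true (res || ps.any (patB Z u v0 v1 v2)) [] := by
  induction ps generalizing res with
  | nil => exact fun rest => ⟨0, by simp, by simp [tokPats]⟩
  | cons p ps ih =>
    have := (Rch.pat (Z := Z) (u := u) (v0 := v0) (v1 := v1) (v2 := v2) p true res).comp
      (ih (res || (true && patB Z u v0 v1 v2 p)))
    have e : ((res || (true && patB Z u v0 v1 v2 p)) || ps.any (patB Z u v0 v1 v2))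
        = (res || (p :: ps).any (patB Z u v0 v1 v2)) := by
      simp [Bool.or_assoc]
    rw [e] at this
    exact this

end

/-- run the interpreter: final state -/
def tokRun (Z : Oracle) (u v0 v1 v2 T : Str) : Str :=
  T.foldl (fun s _ => tstep Z u v0 v1 v2 s) (pr T [true, false])

theorem foldl_iterate {α : Type} (f : α → α) (T : Str) (a : α) :
    T.foldl (fun s _ => f s) a = f^[T.length] a := by
  induction T generalizing a with
  | nil => rfl
  | cons b T ih => rw [List.foldl_cons, ih, List.length_cons, Function.iterate_succ_apply]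

theorem tokRun_spec (Z : Oracle) (u v0 v1 v2 : Str) (ps : List (List Lit)) :
    tokRun Z u v0 v1 v2 (tokPats ps) = pr [] [true, ps.any (patB Z u v0 v1 v2)] := by
  rw [tokRun, foldl_iterate]
  obtain ⟨k, hk, h⟩ := Rch.pats (Z := Z) (u := u) (v0 := v0) (v1 := v1) (v2 := v2) ps false []
  rw [List.append_nil, Bool.false_or] at h
  obtain ⟨j, hj⟩ := Nat.exists_eq_add_of_le hk
  have hidle : ∀ j (t : Str), (tstep Z u v0 v1 v2)^[j] (pr [] t) = pr [] t := by
    intro j
    induction j with
    | zero => intro t; rfl
    | succ j ih => intro t; rw [Function.iterate_succ_apply, tstep_nil, ih]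
  rw [hj, Nat.add_comm, Function.iterate_add_apply, h, hidle]

end Pool.Agent.H93.RO
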