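import Pool.Agent.H93.RO.Tok

namespace Pool.Agent.H93.RO

theorem incR_length (w : Str) : (incR w).length = w.length + 1 := by
  obtain ⟨c', r', h1, h2, -⟩ := stI_fold w true []
  rw [incR, h1]; simp [h2]

theorem coR_length (u v0 v1 v2 : Str) (c : Co) :
    (coR u v0 v1 v2 c).length ≤ 1 + u.length + v0.length + v1.length + v2.length := by
  have h0 := incR_length v0
  have h1 := incR_length v1
  have h2 := incR_length v2
  rcases c with ⟨_ | _, _ | _, _ | _⟩ <;>
    simp only [coR, bc_false, bc_true, List.length_cons, List.length_reverse,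
      List.length_replicate] <;> omega

theorem PT.coR {n : ℕ} {u v0 v1 v2 r2 r3 r4 : Oracle → List Str → Str}
    (hu : PT n u) (h0 : PT n v0) (h1 : PT n v1) (h2 : PT n v2) (hr2 : PT n r2) (hr3 : PT n r3)
    (hr4 : PT n r4) :
    PT n (fun Z v => RO.coR (u Z v) (v0 Z v) (v1 Z v) (v2 Z v)
      ((r2 Z v).headD false, (r3 Z v).headD false, (r4 Z v).headD false)) := by
  have k0 := PT.case hr4 (PT.cons false h0.rev) (PT.cons false h0.rev) h0.incR
  have k1 := PT.case hr4 (PT.cons false h1.rev) (PT.cons false h1.rev) h1.incR
  have k2 := PT.case hr4 (PT.cons false h2.rev) (PT.cons false h2.rev) h2.incR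
  have k3 := PT.case hr4 (PT.cons false (PT.rep false hu PT.nil))
    (PT.cons false (PT.rep false hu PT.nil)) (PT.cons false (PT.rep true hu PT.nil))
  refine (PT.case hr2 (PT.case hr3 k0 k0 k2) (PT.case hr3 k0 k0 k2)
    (PT.case hr3 k1 k1 k3)).congr fun Z v _ => ?_
  rcases r2 Z v with _ | ⟨_ | _, w2⟩ <;> rcases r3 Z v with _ | ⟨_ | _, w3⟩ <;>
    rcases r4 Z v with _ | ⟨_ | _, w4⟩ <;> simp [RO.coR]

theorem PT.put1 {n : ℕ} {t w : Oracle → List Str → Str} (ht : PT n t) (hw : PT n w) :
    PT n (fun Z v => put1 (t Z v) (w Z v)) :=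
  PT.case ht hw (PT.cons false hw) (PT.cons true hw)

theorem PT.put2 {n : ℕ} {t w : Oracle → List Str → Str} (ht : PT n t) (hw : PT n w) :
    PT n (fun Z v => put2 (t Z v) (w Z v)) :=
  PT.put1 ht (PT.put1 ht.tail hw)

theorem PT.tstep {n : ℕ} {u v0 v1 v2 s : Oracle → List Str → Str}
    (hu : PT n u) (h0 : PT n v0) (h1 : PT n v1) (h2 : PT n v2) (hs : PT n s) :
    PT n (fun Z v => RO.tstep Z (u Z v) (v0 Z v) (v1 Z v) (v2 Z v) (s Z v)) := by
  have r := hs.fst
  have t := hs.snd
  have R := PT.coR hu h0 h1 h2 r.tail.tail r.tail.tail.tail r.tail.tail.tail.tail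
  have q := PT.ask (PT.cons true t.tail.tail)
  exact PT.case r hs
    (PT.case r.tail hs
      (PT.case r.tail.tail hs
        (PT.pair r.tail.tail.tail (PT.put2 t (PT.cons false t.tail.tail)))
        (PT.pair r.tail.tail.tail (PT.put2 t (PT.cons true t.tail.tail))))
      (PT.case r.tail.tail hs
        (PT.pair r.tail.tail.tail (PT.case q PT.nil (PT.put2 t PT.nil)
          (PT.cons false (PT.put1 t.tail PT.nil))))
        (PT.pair r.tail.tail.tail (PT.case q PT.nil (PT.cons false (PT.put1 t.tail PT.nil))
          (PT.put2 t PT.nil)))))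
    (PT.case r.tail hs
      (PT.pair r.tail.tail (PT.cons true (PT.case t PT.nil (PT.put1 t.tail PT.nil)
        (PT.const [true]))))
      (PT.pair r.tail.tail.tail.tail.tail (PT.case R PT.nil
        (PT.put2 t (R.tail.rev.app t.tail.tail))
        (PT.cons false (PT.put1 t.tail (R.tail.rev.app t.tail.tail))))))

theorem tstep_length (Z : Oracle) (u v0 v1 v2 s : Str) :
    (tstep Z u v0 v1 v2 s).length ≤
      s.length + (u.length + v0.length + v1.length + v2.length + 10) := by
  have hs := len_pfst_psnd s
  have hR := coR_length u v0 v1 v2 ((pfst s).tail.tail.headD false,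
    (pfst s).tail.tail.tail.headD false, (pfst s).tail.tail.tail.tail.headD false)
  unfold tstep
  generalize coR u v0 v1 v2 ((pfst s).tail.tail.headD false,
    (pfst s).tail.tail.tail.headD false, (pfst s).tail.tail.tail.tail.headD false) = R at hR ⊢
  generalize psnd s = t at hs ⊢
  generalize hr : pfst s = r at hs ⊢
  generalize Z (true :: t.tail.tail) = q
  have pl : ∀ a b : Str, (pr a b).length = 2 * a.length + 1 + b.length := pr_length
  have p2 : ∀ w, (put2 t w).length ≤ w.length + 2 := put2_len t
  have p1 : ∀ w, (put1 t.tail w).length ≤ w.length + 1 := put1_len t.tail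
  have tt : t.tail.tail.length ≤ t.length := by simp; omega
  rcases r with _ | ⟨_ | _, r⟩
  · simp only [bc_nil]; omega
  · simp only [bc_false, List.tail_cons]
    rcases r with _ | ⟨_ | _, r⟩
    · simp only [bc_nil]; omega
    · simp only [bc_false, List.tail_cons]
      simp only [List.length_cons] at hs
      rcases r with _ | ⟨_ | _, r⟩
      · simp only [bc_nil]; omega
      · simp only [bc_false, List.tail_cons, pl]
        have := p2 (false :: t.tail.tail)
        simp only [List.length_cons] at this hs
        omega
      · simp only [bc_true, List.tail_cons, pl]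
        have := p2 (true :: t.tail.tail)
        simp only [List.length_cons] at this hs
        omega
    · simp only [bc_true, List.tail_cons]
      simp only [List.length_cons] at hs
      rcases r with _ | ⟨_ | _, r⟩
      · simp only [bc_nil]; omega
      · simp only [bc_false, List.tail_cons, pl]
        have h1 := p2 []
        have h2 := p1 []
        simp only [List.length_cons, List.length_nil] at h1 h2 hs
        cases q <;> simp only [bc_false, bc_true, List.length_cons] <;> omega
      · simp only [bc_true, List.tail_cons, pl]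
        have h1 := p2 []
        have h2 := p1 []
        simp only [List.length_cons, List.length_nil] at h1 h2 hs
        cases q <;> simp only [bc_false, bc_true, List.length_cons] <;> omega
  · simp only [bc_true, List.tail_cons]
    rcases r with _ | ⟨_ | _, r⟩
    · simp only [bc_nil]; omega
    · simp only [bc_false, List.tail_cons, pl]
      have h2 := p1 []
      simp only [List.length_cons, List.length_nil] at h2 hs ⊢
      rcases t with _ | ⟨_ | _, t⟩
      · simp only [bc_nil, List.length_nil]; omega
      · simp only [bc_false]; simp only [List.length_cons] at hs; omega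
      · simp only [bc_true, List.length_cons, List.length_nil] at hs ⊢; omega
    · simp only [bc_true, List.tail_cons, pl]
      have l1 : r.tail.tail.tail.length ≤ r.length := by simp; omega
      have l2 : (R.tail.reverse ++ t.tail.tail).length ≤ R.length + t.length := by
        simp; omega
      have h1 := p2 (R.tail.reverse ++ t.tail.tail)
      have h2 := p1 (R.tail.reverse ++ t.tail.tail)
      simp only [List.length_cons] at hs ⊢
      rcases R with _ | ⟨_ | _, R⟩
      · simp only [bc_nil, List.length_nil]; omega
      · simp only [bc_false]; omega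
      · simp only [bc_true, List.length_cons]; omega

theorem PT.tokRun {n : ℕ} {u v0 v1 v2 T : Oracle → List Str → Str}
    (hu : PT n u) (h0 : PT n v0) (h1 : PT n v1) (h2 : PT n v2) (hT : PT n T) :
    PT n (fun Z v => RO.tokRun Z (u Z v) (v0 Z v) (v1 Z v) (v2 Z v) (T Z v)) := by
  obtain ⟨pu, -, hpu, hsu, -⟩ := id hu
  obtain ⟨p0, -, hp0, hs0, -⟩ := id h0
  obtain ⟨p1, -, hp1, hs1, -⟩ := id h1
  obtain ⟨p2, -, hp2, hs2, -⟩ := id h2
  refine PT.fold' (st := fun Z v => RO.tstep Z (u Z v.tail.tail) (v0 Z v.tail.tail)
      (v1 Z v.tail.tail) (v2 Z v.tail.tail) (v.getD 1 []))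
    (fun Z v s _ => RO.tstep Z (u Z v) (v0 Z v) (v1 Z v) (v2 Z v) s) hT
    (PT.pair hT (PT.const _))
    (PT.tstep hu.weak.weak h0.weak.weak h1.weak.weak h2.weak.weak PT.v1)
    (fun Z v acc b _ => rfl) (fun m => pu m + p0 m + p1 m + p2 m + 10)
    ((((hpu.add hp0).add hp1).add hp2).add (PB.const 10)) ?_
  intro Z v acc b hv
  have := tstep_length Z (u Z v) (v0 Z v) (v1 Z v) (v2 Z v) acc
  have a0 := hsu Z v hv
  have a1 := hs0 Z v hv
  have a2 := hs1 Z v hv
  have a3 := hs2 Z v hv
  omega

/-! ### The check of the initial row -/

/-- address of the cell `(0, 0, c)` with tag `k` -/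
def adr0 (u : Str) (k : ℕ) (c : Str) : Str :=
  true :: (c ++ (List.replicate u.length false ++ (List.replicate u.length false
    ++ List.replicate k true)))

/-- one step of the check: the accumulator is the answer followed by the counter -/
def stC (Z : Oracle) (u : Str) (acc : Str) (b : Bool) : Str :=
  bc acc []
    (bc [Z (adr0 u 6 acc.tail)] [] (true :: (incR acc.tail).tail.reverse)
      (bc [Z (adr0 u 7 acc.tail)] []
        (bc [b] [] (false :: (incR acc.tail).tail.reverse)
          (true :: (incR acc.tail).tail.reverse))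
        (bc [b] [] (true :: (incR acc.tail).tail.reverse)
          (false :: (incR acc.tail).tail.reverse))))
    (true :: (incR acc.tail).tail.reverse)

/-- the initial row check for the input `x` -/
def iniRun (Z : Oracle) (u x : Str) : Str :=
  x.foldl (stC Z u) (false :: (List.replicate u.length false))

/-- final answer of the initial row check: `[true]` if something is wrong -/
def iniS (Z : Oracle) (u x : Str) : Str :=
  bc (iniRun Z u x) [] [Z (adr0 u 6 (iniRun Z u x).tail)] [true]

theorem PT.adr0 {n : ℕ} (k : ℕ) {u c : Oracle → List Str → Str} (hu : PT n u) (hc : PT n c) :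
    PT n (fun Z v => RO.adr0 (u Z v) k (c Z v)) :=
  PT.cons true (hc.app (PT.rep false hu (PT.rep false hu (PT.const _))))

theorem PT.iniRun {n : ℕ} {u x : Oracle → List Str → Str} (hu : PT n u) (hx : PT n x) :
    PT n (fun Z v => RO.iniRun Z (u Z v) (x Z v)) := by
  have hc : PT (n + 2) (fun _ v => (v.getD 1 []).tail) := PT.v1.tail
  have hu' := hu.weak.weak
  have hi : PT (n + 2) (fun _ v => (RO.incR (v.getD 1 []).tail).tail.reverse) :=
    hc.incR.tail.rev
  have step := PT.case PT.v1 PT.nil
    (PT.case (PT.ask (PT.adr0 6 hu' hc)) PT.nil (PT.cons true hi)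
      (PT.case (PT.ask (PT.adr0 7 hu' hc)) PT.nil
        (PT.case PT.v0 PT.nil (PT.cons false hi) (PT.cons true hi))
        (PT.case PT.v0 PT.nil (PT.cons true hi) (PT.cons false hi))))
    (PT.cons true hi)
  have h := PT.fold' (fun Z v acc b => stC Z (u Z v) acc b) hx
    (PT.cons false (PT.rep false hu PT.nil)) step
    (fun Z v acc b _ => by cases b <;> rfl) (fun _ => 1) (PB.const 1)
    (fun Z v acc b _ => by
      have hl : ∀ w : Str, w.tail.length ≤ w.length := by intro w; simp
      have h1 := incR_length acc.tail
      have h2 : (RO.incR acc.tail).tail.reverse.length = acc.tail.length := by simp [h1]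
      have h3 := hl acc
      unfold stC
      rcases acc with _ | ⟨_ | _, acc⟩
      · simp
      · simp only [bc_false, List.tail_cons] at h2 h3 ⊢
        cases Z (RO.adr0 (u Z v) 6 acc) <;> cases Z (RO.adr0 (u Z v) 7 acc) <;> cases b <;>
          simp only [bc_false, bc_true, List.length_cons] <;> omega
      · simp only [bc_true, List.tail_cons, List.length_cons] at h2 h3 ⊢
        omega)
  refine h.congr fun Z v _ => ?_
  rw [List.append_nil]
  rfl

theorem PT.iniS {n : ℕ} {u x : Oracle → List Str → Str} (hu : PT n u) (hx : PT n x) :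
    PT n (fun Z v => RO.iniS Z (u Z v) (x Z v)) := by
  have h := PT.iniRun hu hx
  exact PT.case h PT.nil (PT.ask (PT.adr0 6 hu h.tail)) (PT.const _)

theorem iniRun_spec (Z : Oracle) (u : Str) (x : Str) : ∀ (i : ℕ) (c : Bool),
    i + x.length < 2 ^ u.length →
    x.foldl (stC Z u) (c :: bin u.length i)
      = (c || decide (¬ ∀ d (hd : d < x.length), Z (adr0 u 6 (bin u.length (i + d))) = true ∧
          Z (adr0 u 7 (bin u.length (i + d))) = x[d])) :: bin u.length (i + x.length) := by
  induction x with
  | nil => intro i c _; simp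
  | cons b x ih =>
    intro i c hi
    rw [List.length_cons] at hi
    have hinc : (incR (bin u.length i)).tail.reverse = bin u.length (i + 1) := by
      rw [incR_lt (by omega)]; simp
    have hstep : stC Z u (c :: bin u.length i) b
        = (c || decide (¬ (Z (adr0 u 6 (bin u.length i)) = true ∧
            Z (adr0 u 7 (bin u.length i)) = b))) :: bin u.length (i + 1) := by
      unfold stC
      rw [List.tail_cons, hinc]
      cases c
      · cases Z (adr0 u 6 (bin u.length i)) <;> cases Z (adr0 u 7 (bin u.length i)) <;>
          cases b <;> simp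
      · simp
    rw [List.foldl_cons, hstep, ih (i + 1) _ (by omega)]
    congr 1
    · rw [Bool.or_assoc]
      congr 1
      rw [← Bool.decide_or, decide_eq_decide, ← not_and_or, not_iff_not]
      constructor
      · rintro ⟨h1, h2⟩ d hd
        rcases d with _ | d
        · simpa using h1
        · have := h2 d (by simpa using hd)
          rw [show i + 1 + d = i + (d + 1) by ring] at this
          simpa using this
      · intro h
        refine ⟨by have h0 := h 0 (by simp); rw [Nat.add_zero] at h0; exact h0, fun d hd => ?_⟩
        have := h (d + 1) (by simpa using hd)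
        rw [show i + 1 + d = i + (d + 1) by ring]
        simpa using this
    · congr 1; simp; omega

theorem iniS_spec (Z : Oracle) (u x : Str) (hx : x.length < 2 ^ u.length) :
    (∃ w, iniS Z u x = true :: w) ↔
      ¬ ((∀ d (hd : d < x.length), Z (adr0 u 6 (bin u.length d)) = true ∧
          Z (adr0 u 7 (bin u.length d)) = x[d]) ∧
          Z (adr0 u 6 (bin u.length x.length)) = false) := by
  have h := iniRun_spec Z u x 0 false (by simpa using hx)
  simp only [Nat.zero_add, Bool.false_or, bin_zero] at h
  unfold iniS iniRun
  rw [h]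
  by_cases hc : ∀ d (hd : d < x.length), Z (adr0 u 6 (bin u.length d)) = true ∧
          Z (adr0 u 7 (bin u.length d)) = x[d]
  · rw [show decide (¬ ∀ d (hd : d < x.length), Z (adr0 u 6 (bin u.length d)) = true ∧
          Z (adr0 u 7 (bin u.length d)) = x[d]) = false by simpa using hc]
    simp only [bc_false, List.tail_cons]
    constructor
    · rintro ⟨w, hw⟩ ⟨-, h2⟩
      rw [h2] at hw; simp at hw
    · intro h2
      refine ⟨[], ?_⟩
      by_contra h3
      apply h2
      refine ⟨hc, ?_⟩
      simpa using h3
  · rw [show decide (¬ ∀ d (hd : d < x.length), Z (adr0 u 6 (bin u.length d)) = true ∧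
          Z (adr0 u 7 (bin u.length d)) = x[d]) = true by simpa using hc]
    simp only [bc_true]
    constructor
    · intro _ h2
      exact hc h2.1
    · intro _
      exact ⟨[], rfl⟩

end Pool.Agent.H93.RO
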